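import Pool.Agent.Helper22.HW.Stack

/-!
# The tower of static levels: reduction of a pair of scales to the finest common front

Levels are numbered `0, 1, ..., r` (level `0` is the label level, levels `1, ..., r` are static
with moduli `Q 0, ..., Q (r-1)`).  A code of level `t + 1` is a multiple of
`F (t+1) * Q 0 * ... * Q (t-1)` and `< F (t+1) * Q 0 * ... * Q t`; the front `F r` is common to
both scales and divides all fronts of both scales.
-/

namespace Pool.Agent.Helper57.T5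

open Finset Pool.Agent.Helper22.HW

/-- product of the moduli of the first `t` static levels -/
def LL (Q : ℕ → ℕ) (t : ℕ) : ℕ := ∏ i ∈ range t, Q i

theorem LL_zero (Q : ℕ → ℕ) : LL Q 0 = 1 := by simp [LL]

theorem LL_succ (Q : ℕ → ℕ) (t : ℕ) : LL Q (t + 1) = LL Q t * Q t := by
  simp [LL, prod_range_succ]

theorem LL_pos {Q : ℕ → ℕ} {t : ℕ} (hQ : ∀ i < t, 0 < Q i) : 0 < LL Q t :=
  Finset.prod_pos (fun i hi => hQ i (mem_range.1 hi))

theorem LL_dvd (Q : ℕ → ℕ) {s t : ℕ} (h : s ≤ t) : LL Q s ∣ LL Q t :=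
  Finset.prod_dvd_prod_of_subset _ _ _ (range_subset_range.2 h)

/-- **Triangular decoding** of a tower of static levels, modulo the product of all moduli. -/
theorem tower_dec {β : Type*} [DecidableEq β] (Y : ℕ → Finset β) (σ : ℕ → β → ℕ) (Q Cd : ℕ → ℕ) :
    ∀ (r : ℕ), (∀ t < r, ∀ y ∈ Y t, LL Q t ∣ σ t y) →
    (∀ t < r, ∀ T, ((Y t).filter (fun y => σ t y ≡ T [MOD Q t])).card ≤ Cd t) →
    ∀ T : ℕ, ((Fintype.piFinset (fun t : Fin r => Y t)).filter
      (fun y => ∑ t : Fin r, σ t (y t) ≡ T [MOD LL Q r])).card ≤ ∏ t ∈ range r, Cd t := by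
  intro r
  induction r with
  | zero =>
    intro _ _ T
    simp only [range_zero, prod_empty]
    refine (card_le_card (filter_subset _ _)).trans ?_
    rw [Fintype.card_piFinset]
    simp
  | succ r ih =>
    intro hdiv hdec T
    rw [prod_range_succ]
    have ih' := ih (fun t ht => hdiv t (by omega)) (fun t ht => hdec t (by omega)) T
    refine le_trans ?_ (Nat.mul_le_mul_right (Cd r) ih')
    rw [mul_comm]
    refine Finset.card_le_mul_card_image_of_maps_to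
      (f := fun y : Fin (r + 1) → β => (Fin.init y : Fin r → β)) ?_ (Cd r) ?_
    · intro y hy
      simp only [mem_filter, Fintype.mem_piFinset] at hy ⊢
      obtain ⟨h1, h2⟩ := hy
      refine ⟨fun t => ?_, ?_⟩
      · simpa [Fin.init] using h1 t.castSucc
      · rw [Fin.sum_univ_castSucc] at h2
        have h3 : LL Q r ∣ σ r (y (Fin.last r)) := by
          have := hdiv r (by omega) (y (Fin.last r)) (by simpa using h1 (Fin.last r))
          exact this
        have h4 : (∑ t : Fin r, σ (t.castSucc : Fin (r + 1)) (y t.castSucc)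
            + σ (Fin.last r : Fin (r + 1)) (y (Fin.last r))) ≡ T [MOD LL Q r] :=
          h2.of_dvd (LL_dvd Q (Nat.le_succ r))
        have h5 : σ (Fin.last r : Fin (r + 1)) (y (Fin.last r)) ≡ 0 [MOD LL Q r] :=
          (Nat.modEq_zero_iff_dvd).2 (by simpa using h3)
        have h6 := (Nat.ModEq.refl (n := LL Q r)
          (∑ t : Fin r, σ (t.castSucc : Fin (r + 1)) (y t.castSucc))).add h5
        have h7 := h6.symm.trans h4
        simpa [Fin.init] using h7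
    · intro z hz
      -- fibre over `z`
      rcases Finset.eq_empty_or_nonempty (((Fintype.piFinset (fun t : Fin (r + 1) => Y t)).filter
        (fun y => ∑ t : Fin (r + 1), σ t (y t) ≡ T [MOD LL Q (r + 1)])).filter
          (fun y => Fin.init y = z)) with h0 | ⟨y0, hy0⟩
      · rw [h0]; simp
      · simp only [mem_filter, Fintype.mem_piFinset] at hy0
        refine le_trans (card_le_card_of_injOn (fun y : Fin (r + 1) → β => y (Fin.last r)) ?_ ?_)
          (hdec r (by omega) (σ r (y0 (Fin.last r))))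
        · intro y hy
          simp only [coe_filter, mem_filter, Fintype.mem_piFinset, Set.mem_ofPred_eq] at hy ⊢
          refine ⟨by simpa using hy.1.1 (Fin.last r), ?_⟩
          have h1 := hy.1.2.trans hy0.1.2.symm
          rw [Fin.sum_univ_castSucc, Fin.sum_univ_castSucc] at h1
          have h2 : ∑ t : Fin r, σ (t.castSucc : Fin (r + 1)) (y t.castSucc)
              = ∑ t : Fin r, σ (t.castSucc : Fin (r + 1)) (y0 t.castSucc) := by
            refine Finset.sum_congr rfl (fun t _ => ?_)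
            have : y t.castSucc = y0 t.castSucc :=
              congrFun (hy.2.trans hy0.2.symm) t
            rw [this]
          rw [h2] at h1
          have h3 := Nat.ModEq.add_left_cancel' _ h1
          have h4 : Q r ∣ LL Q (r + 1) := by rw [LL_succ]; exact dvd_mul_left _ _
          simpa using h3.of_dvd h4
        · intro y hy y' hy' h
          simp only [coe_filter, mem_filter, Fintype.mem_piFinset, Set.mem_ofPred_eq] at hy hy'
          funext t
          refine Fin.lastCases ?_ (fun t => ?_) t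
          · exact h
          · exact congrFun (hy.2.trans hy'.2.symm) t

/-- sizes that at least double have a sum `< 2 *` the last bound -/
theorem tower_size (B : ℕ → ℕ) (x₀ : ℕ) (h₀ : x₀ < B 0) :
    ∀ (r : ℕ), (∀ t < r, 2 * B t ≤ B (t + 1)) → ∀ x : Fin r → ℕ,
      (∀ t : Fin r, x t < B (t + 1)) → x₀ + ∑ t : Fin r, x t < 2 * B r := by
  intro r
  induction r with
  | zero =>
    intro _ x _
    simp only [univ_eq_empty, sum_empty, add_zero]
    omega
  | succ r ih =>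
    intro hB x hx
    rw [Fin.sum_univ_castSucc]
    have h1 := ih (fun t ht => hB t (by omega)) (fun t => x t.castSucc)
      (fun t => by simpa using hx t.castSucc)
    have h2 := hx (Fin.last r)
    have h3 := hB r (by omega)
    simp only [Fin.val_last] at h2
    omega

/-- **Reduction of a pair of scales, configurations.**  `Λ₁` = configurations of the label level,
`Y t` = configurations of the static level `t + 1`. -/
theorem tower_card {Lam β : Type*} [DecidableEq Lam] [DecidableEq β] (Λ₁ : Finset Lam)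
    (s₁ lab : Lam → ℕ) (r : ℕ) (Y : ℕ → Finset β) (σ : ℕ → β → ℕ) (Q Cd : ℕ → ℕ)
    (U U' : Finset ℕ) {m D₂ h I R C₁ n : ℕ} {cl : ℕ → ℕ} (hm : 0 < m) (hQ : ∀ t < r, 0 < Q t)
    (hD₂ : 0 < D₂) {Qi : ℕ} (hQi : LL Q r * Qi ≡ 1 [MOD D₂])
    (hs : ∀ l ∈ Λ₁, ∀ y : Fin r → β, (∀ t : Fin r, y t ∈ Y t) →
      s₁ l + ∑ t : Fin r, σ t (y t) < h * (m * D₂ * LL Q r))
    (hms : ∀ l ∈ Λ₁, m ∣ s₁ l) (hcl : ∀ l ∈ Λ₁, s₁ l / m ≡ cl (lab l) [MOD D₂])
    (hlab : ∀ l ∈ Λ₁, lab l < I) (hC₁ : ∀ i, (Λ₁.filter (fun l => lab l = i)).card ≤ C₁)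
    (hσ : ∀ t < r, ∀ y ∈ Y t, m * D₂ * LL Q t ∣ σ t y)
    (hdec : ∀ t < r, ∀ T, ((Y t).filter (fun y => σ t y ≡ T [MOD Q t])).card ≤ Cd t)
    (hU : ∀ u ∈ U, m * LL Q r ∣ u) (hU' : ∀ u ∈ U', m * LL Q r ∣ u)
    (hR : ∀ κ₂ < h, cN U U' I (m * LL Q r) D₂
      (fun i => Qi * (cl i + (D₂ - 1) * ((n / m) % LL Q r))) κ₂
      (m * LL Q r * ((n / m) / LL Q r)) ≤ R) :
    (((Λ₁ ×ˢ Fintype.piFinset (fun t : Fin r => Y t)) ×ˢ (U ×ˢ U')).filter
      (fun t => (s₁ t.1.1 + ∑ i : Fin r, σ i (t.1.2 i)) + (t.2.1 + t.2.2) = n)).card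
      ≤ (C₁ * ∏ t ∈ range r, Cd t) * (h * R) := by
  classical
  have hL : 0 < LL Q r := LL_pos hQ
  refine stack_card (Λ₁ ×ˢ Fintype.piFinset (fun t : Fin r => Y t))
    (fun l => s₁ l.1 + ∑ i : Fin r, σ i (l.2 i)) (fun l => lab l.1) U U' hm hL hD₂ hQi
    ?_ ?_ ?_ ?_ hU hU' ?_ hR
  · rintro ⟨l, y⟩ hl
    rw [mem_product] at hl
    exact hs l hl.1 y (fun t => (Fintype.mem_piFinset.1 hl.2) t)
  · rintro ⟨l, y⟩ hl
    rw [mem_product] at hl
    refine dvd_add (hms l hl.1) (Finset.dvd_sum (fun t _ => ?_))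
    have h1 := hσ t t.2 (y t) ((Fintype.mem_piFinset.1 hl.2) t)
    exact (Dvd.intro _ (by ring : m * (D₂ * LL Q t) = m * D₂ * LL Q t)).trans h1
  · rintro ⟨l, y⟩ hl
    rw [mem_product] at hl
    have h1 : m * D₂ ∣ ∑ i : Fin r, σ i (y i) := by
      refine Finset.dvd_sum (fun t _ => ?_)
      exact (Dvd.intro _ rfl).trans (hσ t t.2 (y t) ((Fintype.mem_piFinset.1 hl.2) t))
    obtain ⟨w, hw⟩ := h1
    simp only
    rw [hw, mul_assoc, Nat.add_mul_div_left _ _ hm]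
    have h2 : s₁ l / m + D₂ * w ≡ s₁ l / m + 0 [MOD D₂] :=
      Nat.ModEq.add_left _ ((Nat.modEq_zero_iff_dvd).2 (dvd_mul_right _ _))
    exact h2.trans (by simpa using hcl l hl.1)
  · rintro ⟨l, y⟩ hl
    rw [mem_product] at hl
    exact hlab l hl.1
  · intro i T
    refine le_trans ?_ (Nat.mul_le_mul_right (∏ t ∈ range r, Cd t) (hC₁ i))
    rw [mul_comm]
    refine Finset.card_le_mul_card_image_of_maps_to
      (f := fun l : Lam × (Fin r → β) => l.1) ?_ (∏ t ∈ range r, Cd t) ?_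
    · rintro ⟨l, y⟩ hl
      simp only [mem_filter, mem_product] at hl ⊢
      exact ⟨hl.1.1, hl.2.1⟩
    · intro l hl
      rcases Finset.eq_empty_or_nonempty (((Λ₁ ×ˢ Fintype.piFinset (fun t : Fin r => Y t)).filter
        (fun l => lab l.1 = i ∧ s₁ l.1 + ∑ i : Fin r, σ i (l.2 i) = T)).filter
          (fun q => q.1 = l)) with h0 | ⟨y0, hy0⟩
      · rw [h0]; simp
      · refine le_trans (card_le_card_of_injOn (fun q : Lam × (Fin r → β) => q.2) ?_ ?_)
          (tower_dec Y σ Q Cd r (fun t ht y hy => (dvd_mul_left _ _).trans (hσ t ht y hy)) hdec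
            (∑ i : Fin r, σ i (y0.2 i)))
        · intro q hq
          simp only [coe_filter, mem_filter, mem_product, Set.mem_ofPred_eq] at hq hy0 ⊢
          refine ⟨hq.1.1.2, ?_⟩
          have h1 : s₁ q.1 + ∑ i : Fin r, σ i (q.2 i) = s₁ y0.1 + ∑ i : Fin r, σ i (y0.2 i) :=
            hq.1.2.2.trans hy0.1.2.2.symm
          rw [hq.2, hy0.2] at h1
          have h2 := Nat.add_left_cancel h1
          rw [h2]
        · intro q hq q' hq' h
          simp only [coe_filter, mem_filter, mem_product, Set.mem_ofPred_eq] at hq hq'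
          exact Prod.ext (hq.2.trans hq'.2.symm) h

/-- the elements of one scale, seen from the common front: code of the label level, codes of the
static levels `1, ..., r`, an element of the inner window -/
def scaleSet {α β : Type*} [DecidableEq β] (X : Finset α) (c : α → ℕ) (r : ℕ)
    (Y : ℕ → Finset β) (cc : ℕ → β → ℕ) (U : Finset ℕ) : Finset ℕ :=
  ((X ×ˢ Fintype.piFinset (fun t : Fin r => Y t)) ×ˢ U).image
    (fun q => (c q.1.1 + ∑ t : Fin r, cc t (q.1.2 t)) + q.2)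

/-- **Reduction of a pair of scales to the finest common front, several types of labels.**
`F`, `F'` = fronts of the two scales (levels `0, ..., r`), `F r = F' r = m * D₂` common.  The pairs
of the label level which can occur are divided into the types in `Ty`. -/
theorem scale_pair_card_ty {α β τ : Type*} [DecidableEq α] [DecidableEq β] [DecidableEq τ]
    (X X' : Finset α) (c c' : α → ℕ) (r : ℕ) (Y Y' : ℕ → Finset β) (cc cc' : ℕ → β → ℕ)
    (Q Cd : ℕ → ℕ) (F F' : ℕ → ℕ) (U U' : Finset ℕ) {m D₂ I R C₁ n : ℕ} (Ty : Finset τ)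
    (ty : α × α → τ) (cl : τ → ℕ → ℕ) (lab : α × α → ℕ)
    (hm : 0 < m) (hQ : ∀ t < r, 0 < Q t) (hD₂ : 0 < D₂) {Qi : ℕ}
    (hQi : LL Q r * Qi ≡ 1 [MOD D₂])
    (hFr : F r = m * D₂) (hFr' : F' r = m * D₂)
    (hF : ∀ t ≤ r, m * D₂ ∣ F t) (hF' : ∀ t ≤ r, m * D₂ ∣ F' t)
    (hFB : ∀ t < r, 2 * (F t * LL Q t) ≤ F (t + 1) * LL Q (t + 1))
    (hFB' : ∀ t < r, 2 * (F' t * LL Q t) ≤ F' (t + 1) * LL Q (t + 1))
    (hc : ∀ x ∈ X, c x < F 0) (hc' : ∀ x ∈ X', c' x < F' 0)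
    (hcc : ∀ t < r, ∀ y ∈ Y t, cc t y < F (t + 1) * LL Q (t + 1))
    (hcc' : ∀ t < r, ∀ y ∈ Y' t, cc' t y < F' (t + 1) * LL Q (t + 1))
    (hd : ∀ t < r, ∀ y ∈ Y t, F (t + 1) * LL Q t ∣ cc t y)
    (hd' : ∀ t < r, ∀ y ∈ Y' t, F' (t + 1) * LL Q t ∣ cc' t y)
    (hdec : ∀ t < r, Dec (Y t) (Y' t) (cc t) (cc' t) (Q t) (Cd t))
    (hlab : ∀ q ∈ X ×ˢ X', c q.1 + c' q.2 ≡ n [MOD m] →
      ty q ∈ Ty ∧ lab q < I ∧ (c q.1 + c' q.2) / m ≡ cl (ty q) (lab q) [MOD D₂])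
    (hC₁ : ∀ θ i, ((X ×ˢ X').filter
      (fun q => c q.1 + c' q.2 ≡ n [MOD m] ∧ ty q = θ ∧ lab q = i)).card ≤ C₁)
    (hU : ∀ u ∈ U, m * LL Q r ∣ u) (hU' : ∀ u ∈ U', m * LL Q r ∣ u)
    (hR : ∀ θ ∈ Ty, ∀ κ₂ < 4, cN U U' I (m * LL Q r) D₂
      (fun i => Qi * (cl θ i + (D₂ - 1) * ((n / m) % LL Q r))) κ₂
      (m * LL Q r * ((n / m) / LL Q r)) ≤ R) :
    ((scaleSet X c r Y cc U ×ˢ scaleSet X' c' r Y' cc' U').filter
      (fun a => a.1 + a.2 = n)).card ≤ Ty.card * ((C₁ * ∏ t ∈ range r, Cd t) * (4 * R)) := by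
  classical
  set s₁ : α × α → ℕ := fun q => c q.1 + c' q.2 - n % m with hs₁
  set YY : ℕ → Finset (β × β) := fun t => Y t ×ˢ Y' t with hYY
  set σ : ℕ → β × β → ℕ := fun t y => cc t y.1 + cc' t y.2 with hσd
  set n' := m * (n / m) with hn'
  have hnn : n' + n % m = n := by rw [hn']; exact Nat.div_add_mod n m
  have hn'm : n' / m = n / m := by rw [hn', Nat.mul_div_cancel_left _ hm]
  -- the configurations of the label level
  set Λ₀ : Finset (α × α) := (X ×ˢ X').filter (fun q => c q.1 + c' q.2 ≡ n [MOD m]) with hΛ0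
  set Λ₁ : τ → Finset (α × α) := fun θ => Λ₀.filter (fun q => ty q = θ) with hΛ
  have hsub0 : ∀ θ, ∀ q ∈ Λ₁ θ, q ∈ Λ₀ := fun θ q hq => (mem_filter.1 hq).1
  have hmodΛ : ∀ q ∈ Λ₀, (c q.1 + c' q.2) % m = n % m := fun q hq => (mem_filter.1 hq).2
  have hleΛ : ∀ q ∈ Λ₀, n % m ≤ c q.1 + c' q.2 := fun q hq => by
    rw [← hmodΛ q hq]; exact Nat.mod_le _ _
  have hs₁m : ∀ q ∈ Λ₀, s₁ q = m * ((c q.1 + c' q.2) / m) := by
    intro q hq
    have h1 := Nat.div_add_mod (c q.1 + c' q.2) m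
    rw [hmodΛ q hq] at h1
    simp only [hs₁]
    omega
  have hone : ∀ θ ∈ Ty, (((Λ₁ θ ×ˢ Fintype.piFinset (fun t : Fin r => YY t)) ×ˢ
      (U ×ˢ U')).filter (fun t => (s₁ t.1.1 + ∑ i : Fin r, σ i (t.1.2 i)) + (t.2.1 + t.2.2)
        = n')).card ≤ (C₁ * ∏ t ∈ range r, Cd t) * (4 * R) := by
    intro θ hθ
    refine tower_card (h := 4) (R := R) (I := I) (C₁ := C₁) (n := n') (cl := cl θ)
      (Λ₁ θ) s₁ lab r YY σ Q Cd U U' hm hQ hD₂ hQi ?_ ?_ ?_ ?_ ?_ ?_ ?_ hU hU' ?_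
    · -- sizes
      intro q hq y hy
      have hq' := (mem_product.1 (mem_filter.1 (hsub0 θ q hq)).1)
      have hy1 : ∀ t : Fin r, (y t).1 ∈ Y t := fun t => (mem_product.1 (hy t)).1
      have hy2 : ∀ t : Fin r, (y t).2 ∈ Y' t := fun t => (mem_product.1 (hy t)).2
      have h1 := tower_size (fun t => F t * LL Q t) (c q.1)
        (by simpa [LL_zero] using hc _ hq'.1) r hFB (fun t => cc t (y t).1)
        (fun t => hcc t t.2 _ (hy1 t))
      have h2 := tower_size (fun t => F' t * LL Q t) (c' q.2)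
        (by simpa [LL_zero] using hc' _ hq'.2) r hFB' (fun t => cc' t (y t).2)
        (fun t => hcc' t t.2 _ (hy2 t))
      simp only [hFr, hFr'] at h1 h2
      simp only [hs₁, hσd, Finset.sum_add_distrib]
      omega
    · intro q hq
      rw [hs₁m q (hsub0 θ q hq)]
      exact dvd_mul_right _ _
    · intro q hq
      rw [hs₁m q (hsub0 θ q hq), Nat.mul_div_cancel_left _ hm]
      have h1 := (hlab q (mem_filter.1 (hsub0 θ q hq)).1 (mem_filter.1 (hsub0 θ q hq)).2).2.2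
      rw [(mem_filter.1 hq).2] at h1
      exact h1
    · intro q hq
      exact (hlab q (mem_filter.1 (hsub0 θ q hq)).1 (mem_filter.1 (hsub0 θ q hq)).2).2.1
    · intro i
      refine le_trans (card_le_card ?_) (hC₁ θ i)
      intro q hq
      simp only [hΛ, hΛ0, mem_filter] at hq ⊢
      exact ⟨hq.1.1.1, hq.1.1.2, hq.1.2, hq.2⟩
    · intro t ht y hy
      have hy' := mem_product.1 hy
      refine dvd_add ?_ ?_
      · exact (Nat.mul_dvd_mul_right (hF (t + 1) ht) _).trans (hd t ht _ hy'.1)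
      · exact (Nat.mul_dvd_mul_right (hF' (t + 1) ht) _).trans (hd' t ht _ hy'.2)
    · intro t ht T
      exact hdec t ht T
    · intro κ₂ hκ
      rw [hn'm]
      exact hR θ hθ κ₂ hκ
  refine le_trans (card_le_card (t := (Ty.biUnion (fun θ =>
      ((Λ₁ θ ×ˢ Fintype.piFinset (fun t : Fin r => YY t)) ×ˢ
      (U ×ˢ U')).filter (fun t => (s₁ t.1.1 + ∑ i : Fin r, σ i (t.1.2 i)) + (t.2.1 + t.2.2)
        = n'))).image (fun t => (((c t.1.1.1 + ∑ i : Fin r, cc i (t.1.2 i).1) + t.2.1,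
          (c' t.1.1.2 + ∑ i : Fin r, cc' i (t.1.2 i).2) + t.2.2) : ℕ × ℕ))) ?_)
    (card_image_le.trans (card_biUnion_le.trans
      ((Finset.sum_le_card_nsmul _ _ _ hone).trans (by rw [smul_eq_mul]))))
  rintro ⟨a, a'⟩ ha
  simp only [mem_filter, mem_product, scaleSet, mem_image] at ha
  obtain ⟨⟨⟨⟨⟨x, y⟩, u⟩, ⟨⟨hx, hy⟩, hu⟩, hxa⟩, ⟨⟨⟨x', y'⟩, u'⟩, ⟨⟨hx', hy'⟩, hu'⟩, hxa'⟩⟩,
    he⟩ := ha
  simp only at hx hy hu hxa hx' hy' hu' hxa' he
  rw [Fintype.mem_piFinset] at hy hy'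
  -- divisibility of everything but the label codes
  have hmd : ∀ t : Fin r, m ∣ cc t (y t) := fun t =>
    ((Dvd.intro _ rfl : m ∣ m * D₂).trans (hF (t + 1) t.2)).trans
      ((Dvd.intro _ rfl).trans (hd t t.2 (y t) (hy t)))
  have hmd' : ∀ t : Fin r, m ∣ cc' t (y' t) := fun t =>
    ((Dvd.intro _ rfl : m ∣ m * D₂).trans (hF' (t + 1) t.2)).trans
      ((Dvd.intro _ rfl).trans (hd' t t.2 (y' t) (hy' t)))
  have hmu : m ∣ u := (Dvd.intro _ rfl).trans (hU u hu)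
  have hmu' : m ∣ u' := (Dvd.intro _ rfl).trans (hU' u' hu')
  have hrest : m ∣ (∑ t : Fin r, cc t (y t) + ∑ t : Fin r, cc' t (y' t)) + (u + u') :=
    dvd_add (dvd_add (Finset.dvd_sum (fun t _ => hmd t)) (Finset.dvd_sum (fun t _ => hmd' t)))
      (dvd_add hmu hmu')
  have hsum : (c x + c' x') + ((∑ t : Fin r, cc t (y t) + ∑ t : Fin r, cc' t (y' t)) + (u + u'))
      = n := by
    rw [← he, ← hxa, ← hxa']; ring
  have hmod : c x + c' x' ≡ n [MOD m] := by
    have h1 : (c x + c' x') + ((∑ t : Fin r, cc t (y t) + ∑ t : Fin r, cc' t (y' t)) + (u + u'))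
        ≡ (c x + c' x') + 0 [MOD m] :=
      Nat.ModEq.add_left _ ((Nat.modEq_zero_iff_dvd).2 hrest)
    rw [hsum] at h1
    simpa using h1.symm
  have hxΛ : (x, x') ∈ Λ₀ := by
    rw [hΛ0, mem_filter, mem_product]
    exact ⟨⟨hx, hx'⟩, hmod⟩
  have hle := hleΛ _ hxΛ
  have hty := (hlab (x, x') (mem_product.2 ⟨hx, hx'⟩) hmod).1
  rw [mem_image]
  refine ⟨(((x, x'), fun t => (y t, y' t)), (u, u')), ?_, ?_⟩
  · rw [mem_biUnion]
    refine ⟨ty (x, x'), hty, ?_⟩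
    simp only [mem_filter, mem_product, Fintype.mem_piFinset]
    refine ⟨⟨⟨mem_filter.2 ⟨hxΛ, rfl⟩, fun t => mem_product.2 ⟨hy t, hy' t⟩⟩, hu, hu'⟩, ?_⟩
    simp only [hs₁, hσd, Finset.sum_add_distrib]
    simp only at hle
    omega
  · simp only [Prod.mk.injEq]
    exact ⟨hxa, hxa'⟩

/-- **Reduction of a pair of scales to the finest common front.**
`F`, `F'` = fronts of the two scales (levels `0, ..., r`), `F r = F' r = m * D₂` common. -/
theorem scale_pair_card {α β : Type*} [DecidableEq α] [DecidableEq β]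
    (X X' : Finset α) (c c' : α → ℕ) (r : ℕ) (Y Y' : ℕ → Finset β) (cc cc' : ℕ → β → ℕ)
    (Q Cd : ℕ → ℕ) (F F' : ℕ → ℕ) (U U' : Finset ℕ) {m D₂ I R C₁ n : ℕ} {cl : ℕ → ℕ}
    (lab : α × α → ℕ)
    (hm : 0 < m) (hQ : ∀ t < r, 0 < Q t) (hD₂ : 0 < D₂) {Qi : ℕ}
    (hQi : LL Q r * Qi ≡ 1 [MOD D₂])
    (hFr : F r = m * D₂) (hFr' : F' r = m * D₂)
    (hF : ∀ t ≤ r, m * D₂ ∣ F t) (hF' : ∀ t ≤ r, m * D₂ ∣ F' t)
    (hFB : ∀ t < r, 2 * (F t * LL Q t) ≤ F (t + 1) * LL Q (t + 1))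
    (hFB' : ∀ t < r, 2 * (F' t * LL Q t) ≤ F' (t + 1) * LL Q (t + 1))
    (hc : ∀ x ∈ X, c x < F 0) (hc' : ∀ x ∈ X', c' x < F' 0)
    (hcc : ∀ t < r, ∀ y ∈ Y t, cc t y < F (t + 1) * LL Q (t + 1))
    (hcc' : ∀ t < r, ∀ y ∈ Y' t, cc' t y < F' (t + 1) * LL Q (t + 1))
    (hd : ∀ t < r, ∀ y ∈ Y t, F (t + 1) * LL Q t ∣ cc t y)
    (hd' : ∀ t < r, ∀ y ∈ Y' t, F' (t + 1) * LL Q t ∣ cc' t y)
    (hdec : ∀ t < r, Dec (Y t) (Y' t) (cc t) (cc' t) (Q t) (Cd t))
    (hlab : ∀ q ∈ X ×ˢ X', c q.1 + c' q.2 ≡ n [MOD m] →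
      lab q < I ∧ (c q.1 + c' q.2) / m ≡ cl (lab q) [MOD D₂])
    (hC₁ : ∀ i, ((X ×ˢ X').filter
      (fun q => c q.1 + c' q.2 ≡ n [MOD m] ∧ lab q = i)).card ≤ C₁)
    (hU : ∀ u ∈ U, m * LL Q r ∣ u) (hU' : ∀ u ∈ U', m * LL Q r ∣ u)
    (hR : ∀ κ₂ < 4, cN U U' I (m * LL Q r) D₂
      (fun i => Qi * (cl i + (D₂ - 1) * ((n / m) % LL Q r))) κ₂
      (m * LL Q r * ((n / m) / LL Q r)) ≤ R) :
    ((scaleSet X c r Y cc U ×ˢ scaleSet X' c' r Y' cc' U').filter
      (fun a => a.1 + a.2 = n)).card ≤ (C₁ * ∏ t ∈ range r, Cd t) * (4 * R) := by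
  classical
  -- the configurations of the label level
  set Λ₁ : Finset (α × α) := (X ×ˢ X').filter (fun q => c q.1 + c' q.2 ≡ n [MOD m]) with hΛ
  set s₁ : α × α → ℕ := fun q => c q.1 + c' q.2 - n % m with hs₁
  set YY : ℕ → Finset (β × β) := fun t => Y t ×ˢ Y' t with hYY
  set σ : ℕ → β × β → ℕ := fun t y => cc t y.1 + cc' t y.2 with hσd
  set n' := m * (n / m) with hn'
  have hnn : n' + n % m = n := by rw [hn']; exact Nat.div_add_mod n m
  have hn'm : n' / m = n / m := by rw [hn', Nat.mul_div_cancel_left _ hm]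
  have hmodΛ : ∀ q ∈ Λ₁, (c q.1 + c' q.2) % m = n % m := fun q hq => (mem_filter.1 hq).2
  have hleΛ : ∀ q ∈ Λ₁, n % m ≤ c q.1 + c' q.2 := fun q hq => by
    rw [← hmodΛ q hq]; exact Nat.mod_le _ _
  have hs₁m : ∀ q ∈ Λ₁, s₁ q = m * ((c q.1 + c' q.2) / m) := by
    intro q hq
    have h1 := Nat.div_add_mod (c q.1 + c' q.2) m
    rw [hmodΛ q hq] at h1
    simp only [hs₁]
    omega
  have hmain := tower_card (h := 4) (R := R) (I := I) (C₁ := C₁) (n := n') (cl := cl)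
    Λ₁ s₁ lab r YY σ Q Cd U U' hm hQ hD₂ hQi ?_ ?_ ?_ ?_ ?_ ?_ ?_ hU hU' ?_
  · refine le_trans ?_ hmain
    refine le_trans (card_le_card (t := (((Λ₁ ×ˢ Fintype.piFinset (fun t : Fin r => YY t)) ×ˢ
      (U ×ˢ U')).filter (fun t => (s₁ t.1.1 + ∑ i : Fin r, σ i (t.1.2 i)) + (t.2.1 + t.2.2)
        = n')).image (fun t => (((c t.1.1.1 + ∑ i : Fin r, cc i (t.1.2 i).1) + t.2.1,
          (c' t.1.1.2 + ∑ i : Fin r, cc' i (t.1.2 i).2) + t.2.2) : ℕ × ℕ))) ?_)
      card_image_le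
    rintro ⟨a, a'⟩ ha
    simp only [mem_filter, mem_product, scaleSet, mem_image] at ha
    obtain ⟨⟨⟨⟨⟨x, y⟩, u⟩, ⟨⟨hx, hy⟩, hu⟩, hxa⟩, ⟨⟨⟨x', y'⟩, u'⟩, ⟨⟨hx', hy'⟩, hu'⟩, hxa'⟩⟩,
      he⟩ := ha
    simp only at hx hy hu hxa hx' hy' hu' hxa' he
    rw [Fintype.mem_piFinset] at hy hy'
    -- divisibility of everything but the label codes
    have hmd : ∀ t : Fin r, m ∣ cc t (y t) := fun t =>
      ((Dvd.intro _ rfl : m ∣ m * D₂).trans (hF (t + 1) t.2)).trans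
        ((Dvd.intro _ rfl).trans (hd t t.2 (y t) (hy t)))
    have hmd' : ∀ t : Fin r, m ∣ cc' t (y' t) := fun t =>
      ((Dvd.intro _ rfl : m ∣ m * D₂).trans (hF' (t + 1) t.2)).trans
        ((Dvd.intro _ rfl).trans (hd' t t.2 (y' t) (hy' t)))
    have hmu : m ∣ u := (Dvd.intro _ rfl).trans (hU u hu)
    have hmu' : m ∣ u' := (Dvd.intro _ rfl).trans (hU' u' hu')
    have hrest : m ∣ (∑ t : Fin r, cc t (y t) + ∑ t : Fin r, cc' t (y' t)) + (u + u') :=
      dvd_add (dvd_add (Finset.dvd_sum (fun t _ => hmd t)) (Finset.dvd_sum (fun t _ => hmd' t)))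
        (dvd_add hmu hmu')
    have hsum : (c x + c' x') + ((∑ t : Fin r, cc t (y t) + ∑ t : Fin r, cc' t (y' t)) + (u + u'))
        = n := by
      rw [← he, ← hxa, ← hxa']; ring
    have hmod : c x + c' x' ≡ n [MOD m] := by
      have h1 : (c x + c' x') + ((∑ t : Fin r, cc t (y t) + ∑ t : Fin r, cc' t (y' t)) + (u + u'))
          ≡ (c x + c' x') + 0 [MOD m] :=
        Nat.ModEq.add_left _ ((Nat.modEq_zero_iff_dvd).2 hrest)
      rw [hsum] at h1
      simpa using h1.symm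
    have hxΛ : (x, x') ∈ Λ₁ := by
      rw [hΛ, mem_filter, mem_product]
      exact ⟨⟨hx, hx'⟩, hmod⟩
    have hle := hleΛ _ hxΛ
    rw [mem_image]
    refine ⟨(((x, x'), fun t => (y t, y' t)), (u, u')), ?_, ?_⟩
    · simp only [mem_filter, mem_product, Fintype.mem_piFinset]
      refine ⟨⟨⟨hxΛ, fun t => mem_product.2 ⟨hy t, hy' t⟩⟩, hu, hu'⟩, ?_⟩
      simp only [hs₁, hσd, Finset.sum_add_distrib]
      simp only at hle
      omega
    · simp only [Prod.mk.injEq]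
      exact ⟨hxa, hxa'⟩
  · -- sizes
    intro q hq y hy
    have hq' := (mem_product.1 (mem_filter.1 hq).1)
    have hy1 : ∀ t : Fin r, (y t).1 ∈ Y t := fun t => (mem_product.1 (hy t)).1
    have hy2 : ∀ t : Fin r, (y t).2 ∈ Y' t := fun t => (mem_product.1 (hy t)).2
    have h1 := tower_size (fun t => F t * LL Q t) (c q.1)
      (by simpa [LL_zero] using hc _ hq'.1) r hFB (fun t => cc t (y t).1)
      (fun t => hcc t t.2 _ (hy1 t))
    have h2 := tower_size (fun t => F' t * LL Q t) (c' q.2)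
      (by simpa [LL_zero] using hc' _ hq'.2) r hFB' (fun t => cc' t (y t).2)
      (fun t => hcc' t t.2 _ (hy2 t))
    simp only [hFr, hFr'] at h1 h2
    simp only [hs₁, hσd, Finset.sum_add_distrib]
    omega
  · intro q hq
    rw [hs₁m q hq]
    exact dvd_mul_right _ _
  · intro q hq
    rw [hs₁m q hq, Nat.mul_div_cancel_left _ hm]
    exact (hlab q (mem_filter.1 hq).1 (mem_filter.1 hq).2).2
  · intro q hq
    exact (hlab q (mem_filter.1 hq).1 (mem_filter.1 hq).2).1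
  · intro i
    refine le_trans (card_le_card ?_) (hC₁ i)
    intro q hq
    simp only [hΛ, mem_filter] at hq ⊢
    exact ⟨hq.1.1, hq.1.2, hq.2⟩
  · intro t ht y hy
    have hy' := mem_product.1 hy
    refine dvd_add ?_ ?_
    · exact (Nat.mul_dvd_mul_right (hF (t + 1) ht) _).trans (hd t ht _ hy'.1)
    · exact (Nat.mul_dvd_mul_right (hF' (t + 1) ht) _).trans (hd' t ht _ hy'.2)
  · intro t ht T
    exact hdec t ht T
  · intro κ₂ hκ
    rw [hn'm]
    exact hR κ₂ hκ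

end Pool.Agent.Helper57.T5
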