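import Pool.Agent.Helper57.T5.VLeaf
import Pool.Agent.Helper22.NEAR.Defs

/-!
# T5a (MP_12a1af), block NEAR: pairs of elements of the random windows (NE8), the label block (NE1)
-/

set_option autoImplicit false

namespace Pool.Agent.Helper57.T5

open Finset
open Pool.Agent.Helper5.ET (bb era cnt av Nj pr pr_prime pr_inj)
open Pool.Agent.Helper27.T4 (fam)
open Pool.Agent.Helper27.T5 Pool.Agent.Helper11.T5 Pool.Agent.Helper42.T5.Pr
open Pool.Agent.Helper22.SL (PrG)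
open Pool.Agent.Helper22.NEAR

/-- large positions are in late eras -/
theorem era_large {j0 l : ℕ} (h : bb j0 ≤ l) (hb0 : bb 0 ≤ l) : j0 ≤ era l := by
  have h5 := (Pool.Agent.Helper27.T4.era_spec l hb0).2
  by_contra hcon
  have h6 : bb (era l + 1) ≤ bb j0 := Pool.Agent.Helper27.T4.bb_strictMono.monotone (by omega)
  omega

/-- NE8: pairs of elements of the random windows -/
theorem vbad (k : ℕ) : ∃ (CV c0 m' : ℝ) (K0 : ℕ), 0 ≤ CV ∧ 0 < c0 ∧ 0 ≤ m' ∧
    ∀ l' l, K0 ≤ l' → era l' = era l → used (k + 2) l → used (k + 2) l' → l' ≤ l →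
    ∀ K, keysOf (k + 2) k l ⊆ K → keysOf (k + 2) k l' ⊆ K →
    PrG (Mk (k + 2)) K (VBad (k + 2) k l' l (CV * (l : ℝ) ^ ((1 : ℝ) / ((k + 2 : ℕ) : ℝ))))
      (m' * Real.exp (-((l : ℝ) ^ c0))) := by
  obtain ⟨j1, h1⟩ := v_leaf (k + 2) k le_rfl
  obtain ⟨j3, h3⟩ := Pool.Agent.Helper30.T5.exists_le_rt (show 0 < k + 2 by omega) 4
  refine ⟨1155 * 2 ^ (k + 1), 1 / (2 * (k + 2 : ℝ)), 2, bb (max j1 j3), by positivity,
    by positivity, by norm_num, ?_⟩
  intro l' l hl' he hu hu' hll K hK hK'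
  have hb0 : bb 0 ≤ l := used_bb_zero hu
  have hera : max j1 j3 ≤ era l := era_large (hl'.trans hll) hb0
  have key := h1 l l' (le_trans (le_max_left _ _) hera) hu hu' hll he K (BK_of hK) (BK_of hK')
  refine PrLe_mono (fun r _ hw => ?_) ?_ key
  · obtain ⟨n, hn⟩ := hw
    refine ⟨n, ?_⟩
    have h9 := last_le_rpow (k := k) hb0
    rw [Nat.cast_one] at h9
    have h10 : ((1155 * W (k + 2) (era l) (k + 1) : ℕ) : ℝ) <
        ((vpairs (k + 2) k l l' (ext K r) n).card : ℝ) := by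
      refine lt_of_le_of_lt ?_ hn
      push_cast
      push_cast at h9
      calc (1155 * (W (k + 2) (era l) (k + 1) : ℝ))
          ≤ 1155 * (2 ^ (k + 1) * (l : ℝ) ^ (1 / ((k : ℝ) + 2))) := by gcongr
        _ = _ := by ring
    exact_mod_cast h10
  · refine mul_le_mul_of_nonneg_left (Real.exp_le_exp.2 (neg_le_neg ?_)) (by norm_num)
    exact rpow_le_last k hb0 (h3 (era l) (le_trans (le_max_right _ _) hera))

/-- NE1: the label block -/
theorem ne1_near_R (k : ℕ) : ∃ (CR j0 : ℕ), ∀ j t l' l, j0 ≤ j → era l = j → era l' = j →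
    used (k + 2) l → used (k + 2) l' → l' ≤ l → t ≤ k →
    ef (k + 2) (t + 1) l' = ef (k + 2) (t + 1) l → ∀ (w : Key → ℕ) (R : ℕ),
    (∀ c : Cx, c.2.1.Coprime (Pool.Agent.Helper63.T5.pj j) → c.2.2.1 < 4 →
      cNx (k + 2) k j t l' l w c ≤ R) →
    ∀ n, Rp (k + 2) k l l' w n ≤ CR * R := by
  obtain ⟨j0, h⟩ := near_R_late (k + 2) k le_rfl
  refine ⟨∏ t ∈ range (k + 1), (KR t + 1), j0, ?_⟩
  intro j t l' l hj he he' hu hu' hl ht hfr w R hR n
  subst he
  have h1 : KR t ≤ ∏ t ∈ range (k + 1), (KR t + 1) := by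
    refine (Nat.le_succ _).trans ?_
    exact Finset.single_le_prod' (f := fun t => KR t + 1) (fun i _ => by omega)
      (mem_range.2 (by omega))
  refine (h l l' t hj ht hu hu' hl he' hfr w _ R le_rfl n ?_).trans (Nat.mul_le_mul_right R h1)
  intro α E N hE κ₂ hκ
  have h2 := hR (α, E, κ₂, N) hE hκ
  unfold cNx In bm DD at h2
  rw [LL_QQ] at h2
  exact h2

end Pool.Agent.Helper57.T5
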