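import Pool.Agent.Helper57.T5.RBlock
import Pool.Agent.Helper11.T5.Facts
import Pool.Agent.Helper27.T4.Phase
import Pool.Agent.Helper97.ET.Cnt
import Pool.Agent.Helper50.ET.VCount

/-!
# T5a (MP_12a1af): the label block for the states of the schedule

`scaleSet_split`: the levels `≥ r` are put into the inner windows.  `near_R`: for two states with
the common front `ef m (t + 1)` the number of representations is at most a constant times the bound
for the counting form of the inner windows.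
-/

set_option autoImplicit false

namespace Pool.Agent.Helper57.T5

open Finset

/-! ## splitting the levels -/

/-- the levels `r, ..., r + h - 1` and the window -/
def inner {β : Type*} [DecidableEq β] (r h : ℕ) (Y : ℕ → Finset β) (cc : ℕ → β → ℕ)
    (U : Finset ℕ) : Finset ℕ :=
  ((Fintype.piFinset (fun t : Fin h => Y (r + t))) ×ˢ U).image
    (fun q => (∑ t : Fin h, cc (r + t) (q.1 t)) + q.2)

theorem scaleSet_split {α β : Type*} [DecidableEq β] (X : Finset α) (c : α → ℕ) (r h : ℕ)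
    (Y : ℕ → Finset β) (cc : ℕ → β → ℕ) (U : Finset ℕ) :
    scaleSet X c (r + h) Y cc U = scaleSet X c r Y cc (inner r h Y cc U) := by
  classical
  ext a
  unfold scaleSet inner
  simp only [mem_image, mem_product, Fintype.mem_piFinset, Prod.exists]
  constructor
  · rintro ⟨x, y, u, ⟨⟨hx, hy⟩, hu⟩, rfl⟩
    refine ⟨x, fun t => y (Fin.castAdd h t),
      (∑ t : Fin h, cc (r + t) (y (Fin.natAdd r t))) + u, ⟨⟨hx, fun t => ?_⟩, ?_⟩, ?_⟩
    · exact hy (Fin.castAdd h t)
    · exact ⟨fun t => y (Fin.natAdd r t), u, ⟨fun t => hy (Fin.natAdd r t), hu⟩, rfl⟩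
    · rw [Fin.sum_univ_add]
      simp only [Fin.val_castAdd, Fin.val_natAdd]
      omega
  · rintro ⟨x, y, u, ⟨⟨hx, hy⟩, y2, u2, ⟨hy2, hu2⟩, rfl⟩, rfl⟩
    refine ⟨x, Fin.append y y2, u2, ⟨⟨hx, fun t => ?_⟩, hu2⟩, ?_⟩
    · refine Fin.addCases (fun i => ?_) (fun i => ?_) t
      · rw [Fin.append_left]
        exact hy i
      · rw [Fin.append_right]
        exact hy2 i
    · rw [Fin.sum_univ_add]
      simp only [Fin.append_left, Fin.append_right, Fin.val_castAdd, Fin.val_natAdd]
      omega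

theorem dvd_inner {β : Type*} [DecidableEq β] {r h : ℕ} {Y : ℕ → Finset β} {cc : ℕ → β → ℕ}
    {U : Finset ℕ} {M : ℕ} (hc : ∀ t < h, ∀ y ∈ Y (r + t), M ∣ cc (r + t) y)
    (hU : ∀ u ∈ U, M ∣ u) : ∀ u ∈ inner r h Y cc U, M ∣ u := by
  intro u hu
  unfold inner at hu
  rw [mem_image] at hu
  obtain ⟨⟨y, v⟩, hq, rfl⟩ := hu
  rw [mem_product, Fintype.mem_piFinset] at hq
  exact Nat.dvd_add (Finset.dvd_sum (fun t _ => hc t t.2 _ (hq.1 t))) (hU _ hq.2)

/-! ## the states -/

section States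

open Pool.Agent.Helper5.ET hiding Key AA Rp
open Pool.Agent.Helper27.T4 Pool.Agent.Helper27.T5
open Pool.Agent.Helper22.HW hiding fam
open Pool.Agent.Helper30.T5 Pool.Agent.Helper11.T5 Pool.Agent.Helper39.T5
open Pool.Agent.Helper50.ET (cnt_mono)

theorem pr_ne_two' (f : Fin 3) : pr f ≠ 2 := by
  fin_cases f <;> simp [pr]

theorem ps_ne_two' (t : ℕ) (f : Fin 3) : ps t f ≠ 2 := by
  have h1 := million_lt_sp (3 * (t + 2) + f)
  unfold ps
  intro h
  rw [h] at h1
  norm_num at h1

/-- the components of the code of the main level modulo lower powers -/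
theorem c1_cast_low (m l : ℕ) (w : Key → ℕ) (x : Fin 3 → ℕ) (f : Fin 3) {e : ℕ}
    (he : e ≤ av (ef m 1 l) f) (hx : (x f).Coprime (pr f)) :
    ((c1 m l w x : ℕ) : ZMod (pr f ^ e)) = Lg (pr f) e (x f) +
      ((w (hkey l 1 f (mask (pre l f) x)) : ℕ) : ZMod (pr f ^ e)) := by
  have h1 := congrArg (ZMod.castHom (pow_dvd_pow (pr f) he) (ZMod (pr f ^ e)))
    (c1_cast m l w x f)
  rw [map_natCast] at h1
  rw [h1]
  unfold cmp1
  rw [map_add, map_natCast, Lg_red (pr_prime f) (pr_ne_two' f) _ _ _ hx he]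

/-- **one static level decodes**: the two codes modulo `QQ m j t` -/
theorem dec_cs {m l l' t j : ℕ} (hj : era l = j) (hj' : era l' = j) (w : Key → ℕ) :
    Dec (Ys m j t) (Ys m j t) (cs m l t w) (cs m l' t w) (QQ m j t)
      (∏ i, (2 * (ps t i - 1))) := by
  subst hj
  have h1 := Ss_ok m l t
  have h2 := Ss_ok m l' t
  rw [QQ_eq_NN]
  have h3 : es m (era l') t = es m (era l) t := by rw [hj']
  have h4 := Pool.Agent.Helper73.T5.dec_sadm (ps_prime t) (ps_ne_two' t) (ps_inj t)
    (FF m l (t + 1) * LL (QQ m (era l)) t) (FF m l' (t + 1) * LL (QQ m (era l')) t) h1.cop h2.cop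
    Pool.Agent.Helper22.SL.rk3 (es m (era l) t) (es m (era l') t) (es m (era l) t)
    (fun i => le_rfl) (fun i => by rw [h3])
    ((Ss m l t).rho w) ((Ss m l' t).rho w) (h1.rho_dep w) (h2.rho_dep w)
    (Ys m (era l) t) (Ys_adm _ _ _)
  exact h4

theorem Nj_dvd {a b : ℕ} (h : a ≤ b) : Nj a ∣ Nj b := NN_dvd pr (fun f => cnt_mono f h)

/-- the order of `l` fits to the families of `l' ≤ l` of the same era -/
theorem pre_sub' {l l' : ℕ} (h0 : bb 0 ≤ l') (h : l' ≤ l) (hs : 60 * (l - l') ≤ l)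
    {f g : Fin 3} (hg : g ∈ pre l' f) : rk (ordK l) g < rk (ordK l) f := by
  rw [mem_pre] at hg
  rcases phase_cases h0 h hs with h1 | h1 | h1 | h1
  · rw [← h1.2.1]; exact hg.2
  · rw [h1.2.2.1, ← h1.2.1]; exact hg.2
  · obtain ⟨-, h2, h3, h4, -⟩ := h1
    obtain ⟨hn, hlt⟩ := hg
    rw [h2] at hn hlt
    rw [h3]
    rcases fam_cases (era l) g with rfl | rfl | rfl <;>
    rcases fam_cases (era l) f with rfl | rfl | rfl <;>
    simp only [rk_self, rk_next, rk_next2, rk_prev] at hlt hn ⊢ <;>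
    first
    | omega
    | (exfalso; exact hn ⟨h4, trivial⟩)
  · rw [h1.2.2.1, ← h1.2.1]; exact hg.2

/-- no family outside `fam (era l)` grows between `l'` and the front -/
theorem cnt_front {m i l l' : ℕ} (hb : 10 * m ≤ la (era l)) (hu : used m l) (hi0 : 1 ≤ i)
    (hi : i < m) (h : l' ≤ l) (he : era l' = era l) (f : Fin 3) :
    cnt f (ef m i l) = if f = fam (era l) then cnt f l' + (ef m i l - l') else cnt f l' := by
  have h1 := cnt_ef hu hb hi0 hi f
  have h2 := cnt_same_era h he f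
  have h3 := lt_ef hb hi
  split_ifs at h1 h2 ⊢ with hf
  · omega
  · omega

open Pool.Agent.Helper29.T4 in
/-- **the label block for a pair of states with a common front** -/
theorem near_R {m k l l' t : ℕ} (hb : 10 * m ≤ la (era l)) (hk : k + 1 < m) (ht : t ≤ k)
    (hu : used m l) (hu' : used m l') (hl : l' ≤ l) (he : era l' = era l)
    (hfr : ef m (t + 1) l' = ef m (t + 1) l) (hs : 60 * (l - l') ≤ l)
    (hc2 : cnt (fam (era l)) (ef m (t + 1) l) ≤ 2 * cnt (fam (era l)) l' + 1)
    (hsz : ∀ s < t, 2 * FF m l s ≤ FF m l (s + 1) * QQ m (era l) s)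
    (hsz' : ∀ s < t, 2 * FF m l' s ≤ FF m l' (s + 1) * QQ m (era l) s)
    (w : Key → ℕ) {I R : ℕ} (hI : pr (fam (era l)) ^ ((l - l') / 2) ≤ I) (n : ℕ)
    (hR : ∀ α E N : ℕ, E.Coprime (pr (fam (era l))) → ∀ κ₂ < 4,
      cN (Zw m k l t w) (Zw m k l' t w) I (Nj l' * Lp m (era l) (t + 1))
        (pr (fam (era l)) ^ (ef m (t + 1) l - l')) (fun i => α + E * i) κ₂
        (Nj l' * Lp m (era l) (t + 1) * N) ≤ R) :
    Rp m k l l' w n ≤ (∏ i, (2 * (pr i - 1))) *
      (((∏ i, (2 * (pr i - 1))) * ∏ s ∈ range t, ∏ i, (2 * (ps s i - 1))) * (4 * R)) := by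
  classical
  set g := fam (era l) with hgdef
  have hi1 : t + 1 < m := by omega
  have hb' : 10 * m ≤ la (era l') := by rw [he]; exact hb
  have hlef : l' ≤ ef m (t + 1) l := hl.trans (lt_ef hb hi1).le
  have hc := fun f => cnt_front hb hu (by omega : 1 ≤ t + 1) hi1 hl he f
  have hsub : cnt g (ef m (t + 1) l) - cnt g l' = ef m (t + 1) l - l' := by
    have := hc g
    rw [if_pos hgdef] at this
    omega
  have hAl : cnt g l - cnt g l' = l - l' := by
    have := cnt_same_era hl he g
    rw [if_pos hgdef] at this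
    omega
  have h00 := used_bb_zero hu'
  have hNj : NN pr (av l') = Nj l' := rfl
  have hX1 := X1_adm l
  have hX1' := X1_adm l'
  have hgr : ∀ s ≤ t, ef m (t + 1) l ≤ ef m (s + 1) l := fun s hs =>
    ef_anti hb (by omega) hi1
  have hgr' : ∀ s ≤ t, ef m (t + 1) l ≤ ef m (s + 1) l' := fun s hs => by
    rw [← hfr]
    exact ef_anti hb' (by omega) hi1
  unfold Rp
  have hA1 := AA_split (m := m) (l := l) (w := w) ht
  have hA2 := AA_split (m := m) (l := l') (w := w) ht
  rw [he] at hA2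
  refine (card_le_card (Finset.filter_subset_filter _ (Finset.product_subset_product hA1 hA2))).trans ?_
  refine R_block (I := I) (R := R) pr_prime pr_ne_two' pr_inj (rk (ordK l)) g (av (ef m (t + 1) l)) (av l') (av l)
    ?_ ?_ ?_ ?_ ?_ ?_
    (fun f x => ((w (hkey l 1 f (mask (pre l f) x)) : ℕ) : ZMod (pr f ^ av (ef m (t + 1) l) f)))
    (fun f x => ((w (hkey l' 1 f (mask (pre l' f) x)) : ℕ) : ZMod (pr f ^ av (ef m (t + 1) l) f)))
    ?_ ?_ (X1 l) (X1 l') hX1 hX1' (c1 m l w) (c1 m l' w) ?_ ?_ t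
    (Ys m (era l)) (Ys m (era l)) (fun s y => cs m l s w y) (fun s y => cs m l' s w y)
    (QQ m (era l)) (fun s => ∏ i, (2 * (ps s i - 1))) (FF m l) (FF m l')
    (Zw m k l t w) (Zw m k l' t w) n ?_ ?_ ?_ ?_ ?_ ?_ ?_ ?_ ?_ ?_ ?_ ?_ ?_ ?_ ?_ ?_ ?_ ?_ ?_
  · intro f hf
    have := hc f
    rw [if_neg hf] at this
    exact this.symm
  · exact cnt_mono g hlef
  · exact hc2
  · show 0 < cnt g (ef m (t + 1) l)
    have h1 := hc g
    rw [if_pos hgdef] at h1
    have := lt_ef hb hi1
    omega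
  · intro f hf
    have := cnt_same_era hl he f
    rw [if_neg hf] at this
    exact this
  · exact cnt_mono g hl
  · intro f x y hxy
    have : mask (pre l f) x = mask (pre l f) y := by
      funext h
      unfold mask
      split_ifs with hh
      · exact hxy h ((mem_pre l f h).1 hh).2
      · rfl
    simp only [this]
  · intro f x y hxy
    have : mask (pre l' f) x = mask (pre l' f) y := by
      funext h
      unfold mask
      split_ifs with hh
      · exact hxy h (pre_sub' h00 hl hs hh)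
      · rfl
    simp only [this]
  · intro x hx f
    exact c1_cast_low m l w x f (cnt_mono f (hgr 0 (Nat.zero_le _))) (hX1 x hx f).2.1
  · intro x hx f
    exact c1_cast_low m l' w x f (cnt_mono f (hgr' 0 (Nat.zero_le _))) (hX1' x hx f).2.1
  · intro s _
    exact Qs_pos _ _ _
  · rw [LL_QQ]
    exact Nat.Coprime.prod_left (fun i _ => (coprime_pr_Qs g m (era l) i).symm)
  · rfl
  · show Nj (ef m (t + 1) l') = Nj (ef m (t + 1) l)
    rw [hfr]
  · intro s hs
    exact Nj_dvd (hgr s hs)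
  · intro s hs
    exact Nj_dvd (hgr' s hs)
  · intro s hs
    rw [LL_succ]
    calc 2 * (FF m l s * LL (QQ m (era l)) s) = (2 * FF m l s) * LL (QQ m (era l)) s := by ring
      _ ≤ (FF m l (s + 1) * QQ m (era l) s) * LL (QQ m (era l)) s :=
        Nat.mul_le_mul_right _ (hsz s hs)
      _ = _ := by ring
  · intro s hs
    rw [LL_succ]
    calc 2 * (FF m l' s * LL (QQ m (era l)) s) = (2 * FF m l' s) * LL (QQ m (era l)) s := by ring
      _ ≤ (FF m l' (s + 1) * QQ m (era l) s) * LL (QQ m (era l)) s :=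
        Nat.mul_le_mul_right _ (hsz' s hs)
      _ = _ := by ring
  · exact fun x _ => c1_lt m l w x
  · exact fun x _ => c1_lt m l' w x
  · exact fun s _ y _ => cs_lt m l s w y
  · intro s _ y _
    have := cs_lt m l' s w y
    rw [he] at this
    exact this
  · exact fun s _ y _ => dvd_cs m l s w y
  · intro s _ y _
    have := dvd_cs m l' s w y
    rw [he] at this
    exact this
  · intro s _
    exact dec_cs rfl he w
  · have h2 : av l g - av l' g = l - l' := hAl
    rw [h2]
    exact hI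
  · intro u hu1
    have h1 := dvd_Zw hb hk ht hu1
    exact (Nat.mul_dvd_mul (Nj_dvd hl) dvd_rfl).trans h1
  · intro u hu1
    have h1 := dvd_Zw hb' hk ht hu1
    rw [he] at h1
    exact h1
  · intro α E N hE κ₂ hκ
    have := hR α E N hE κ₂ hκ
    rw [LL_QQ]
    have h2 : av (ef m (t + 1) l) g - av l' g = ef m (t + 1) l - l' := hsub
    rw [h2]
    exact this

/-! ## the numeric conditions for late eras -/

theorem eight_PP {m i j : ℕ} (hb : 10 * m ≤ la j) (hi : i < m) (hi0 : 1 ≤ i) :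
    2 ^ 19 * PP m j i ≤ bb j := by
  have h1 := PP_mul hb hi
  have h2 := W_one_small hb (by omega : 0 < m)
  have h3 := Pool.Agent.Helper27.T5.W_anti (m := m) (j := j) hi0
  omega

/-- two states with a common front are close -/
theorem close_of_common {m t l l' : ℕ} (hb : 10 * m ≤ la (era l)) (hi : t + 1 < m)
    (hu : used m l) (hl : l' ≤ l) (he : era l' = era l)
    (hfr : ef m (t + 1) l' = ef m (t + 1) l) : 60 * (l - l') ≤ l := by
  have h1 := dist_of_common hb hi hl he hfr
  have h2 := eight_PP hb hi (by omega)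
  have h3 := used_bb hu
  omega

/-- the growth of the owner from `l'` to the front is small -/
theorem exists_cnt2 : ∃ j0 : ℕ, ∀ m t l l' : ℕ, j0 ≤ era l → 10 * m ≤ la (era l) → t + 1 < m →
    used m l → used m l' → l' ≤ l → era l' = era l → ef m (t + 1) l' = ef m (t + 1) l →
    cnt (fam (era l)) (ef m (t + 1) l) ≤ 2 * cnt (fam (era l)) l' + 1 := by
  obtain ⟨y0, hy0⟩ := Pool.Agent.Helper97.ET.cnt_ge
  refine ⟨y0, fun m t l l' hj hb hi hu hu' hl he hfr => ?_⟩
  have h1 := dist_of_common hb hi hl he hfr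
  have h2 := eight_PP hb hi (by omega)
  have h3 := used_bb hu'
  rw [he] at h3
  have h4 : era l ≤ bb (era l) := bb_strictMono.id_le _
  have h5 := (hy0 l' (by omega) (fam (era l))).1
  have h6 := cnt_front hb hu (by omega : 1 ≤ t + 1) hi hl he (fam (era l))
  rw [if_pos rfl] at h6
  have h7 := two_ef_le m (t + 1) l
  have h8 : (l' : ℝ) ≤ 6 * cnt (fam (era l)) l' := by linarith
  have h9 : l' ≤ 6 * cnt (fam (era l)) l' := by exact_mod_cast h8
  omega

end States

end Pool.Agent.Helper57.T5
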