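import Pool.Agent.Helper57.T5.Arc
import Pool.Agent.Helper22.SL.Defs

/-!
# The number `PP` of pairs of windows for two random windows (last level, small distance)
-/

set_option autoImplicit false

namespace Pool.Agent.Helper57.T5

open Finset Pool.Agent.Helper1.ET4 Pool.Agent.Helper22.SL Pool.Agent.Helper27.T4

/-- a class modulo `m` meets an interval of length `N m` in at most `N` points -/
theorem card_class_le (S : Finset ℕ) (a N m : ℕ) (hm : 0 < m)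
    (hS : ∀ t ∈ S, a ≤ t ∧ t < a + N * m) (hc : ∀ t ∈ S, ∀ u ∈ S, t ≡ u [MOD m]) : S.card ≤ N := by
  rw [← card_range N]
  refine card_le_card_of_injOn (fun t => (t - a) / m) ?_ ?_
  · intro t ht
    rw [mem_coe] at ht
    have h1 := hS t ht
    rw [mem_coe, mem_range, Nat.div_lt_iff_lt_mul hm]
    omega
  · intro t ht u hu htu
    rw [mem_coe] at ht hu
    have h1 := hS t ht
    have h2 := hS u hu
    have h3 : (t - a) / m = (u - a) / m := htu
    have h4 : (t - a) % m = (u - a) % m := by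
      have h5 : (t - a) + a ≡ (u - a) + a [MOD m] := by
        rw [Nat.sub_add_cancel h1.1, Nat.sub_add_cancel h2.1]
        exact hc t ht u hu
      exact Nat.ModEq.add_right_cancel' a h5
    have h5 := Nat.div_add_mod (t - a) m
    have h6 := Nat.div_add_mod (u - a) m
    rw [h3, h4] at h5
    omega

section

variable {κ : Type*} {P : Pr κ} {Mk : κ → ℕ} {I : ℕ} {X Ir : ℕ → ℕ}

theorem L_succ' (P : Pr κ) (r : ℕ) : P.L (r + 1) = P.L r * P.Q r := by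
  unfold Pr.L
  rw [prod_range_succ]
  ring

theorem Q_pos (hP : P.Ok Mk) (r : ℕ) : 0 < P.Q r := NN_pos (hP.prime r) _

theorem L_pos (hP : P.Ok Mk) (r : ℕ) : 0 < P.L r :=
  Nat.mul_pos hP.posL (Finset.prod_pos fun t _ => Q_pos hP t)

theorem FL_mono (hP : P.Ok Mk) : ∀ r ≤ P.h, P.F 0 * P.L 0 ≤ P.F r * P.L r := by
  intro r
  induction r with
  | zero => intro _; exact le_rfl
  | succ r ih =>
    intro hr
    have h1 := ih (by omega)
    have h2 := hP.size r (by omega)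
    omega

theorem L_zero (P : Pr κ) : P.L 0 = P.L0 := by
  unfold Pr.L
  simp

theorem posF' (hP : P.Ok Mk) : 0 < P.F' P.h := by
  have h1 : P.F' P.h ∣ P.F P.h := hP.F'F _ le_rfl
  have h3 : ∀ r ≤ P.h, P.F r ∣ P.F 0 := by
    intro r
    induction r with
    | zero => intro _; exact dvd_rfl
    | succ r ih => intro hr; exact (hP.FF r (by omega)).trans (ih (by omega))
  exact Nat.pos_of_dvd_of_pos (h1.trans (h3 _ le_rfl)) hP.posF

theorem posFh (hP : P.Ok Mk) : 0 < P.F P.h := by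
  have h3 : ∀ r ≤ P.h, P.F r ∣ P.F 0 := by
    intro r
    induction r with
    | zero => intro _; exact dvd_rfl
    | succ r ih => intro hr; exact (hP.FF r (by omega)).trans (ih (by omega))
  exact Nat.pos_of_dvd_of_pos (h3 _ le_rfl) hP.posF

theorem F'_dvd_F0 (hP : P.Ok Mk) : P.F' P.h ∣ P.F 0 := by
  have h3 : ∀ r ≤ P.h, P.F r ∣ P.F 0 := by
    intro r
    induction r with
    | zero => intro _; exact dvd_rfl
    | succ r ih => intro hr; exact (hP.FF r (by omega)).trans (ih (by omega))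
  exact (hP.F'F _ le_rfl).trans (h3 _ le_rfl)

/-- the number of targets of a label after all levels -/
theorem card_AP_last (hP : P.Ok Mk) (i : ℕ) :
    (AP P X P.h i).card ≤ 4 * (P.F P.h / P.F' P.h) := by
  have hF' := posF' hP
  have hL := L_pos hP P.h
  obtain ⟨w, hw⟩ := hP.F'F P.h le_rfl
  rw [hw, Nat.mul_div_cancel_left _ hF']
  refine card_class_le _ (X i + 1 - 4 * (P.F P.h * P.L P.h)) _ (P.F' P.h * P.L P.h)
    (Nat.mul_pos hF' hL) ?_ ?_
  · intro t ht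
    rw [AP, mem_filter, mem_range] at ht
    obtain ⟨h1, h2, h3, h4⟩ := ht
    have h5 : 4 * w * (P.F' P.h * P.L P.h) = 4 * (P.F P.h * P.L P.h) := by rw [hw]; ring
    rw [h5]
    omega
  · intro t ht u hu
    rw [AP, mem_filter, mem_range] at ht hu
    have hco : (P.F' P.h).Coprime (P.L P.h) :=
      ((hP.copL P.h le_rfl).coprime_dvd_right (F'_dvd_F0 hP)).symm
    refine (Nat.modEq_and_modEq_iff_modEq_mul hco).1 ⟨?_, ?_⟩
    · exact ht.2.2.1.trans hu.2.2.1.symm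
    · have h1 : P.L P.h ∣ t := (dvd_mul_left _ _).trans ht.2.1
      have h2 : P.L P.h ∣ u := (dvd_mul_left _ _).trans hu.2.1
      exact ((Nat.modEq_zero_iff_dvd).2 h1).trans ((Nat.modEq_zero_iff_dvd).2 h2).symm

/-- the entries (label, target), in units of `M' L` -/
def EE (P : Pr κ) (I : ℕ) (X : ℕ → ℕ) : Finset (ℕ × ℕ) :=
  (range I).biUnion (fun i => (AP P X P.h i).image (fun t => (i, t / (P.M' * P.L P.h))))

theorem mem_EE {e : ℕ × ℕ} : e ∈ EE P I X ↔ e.1 < I ∧ ∃ t ∈ AP P X P.h e.1,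
    t / (P.M' * P.L P.h) = e.2 := by
  rw [EE, mem_biUnion]
  constructor
  · rintro ⟨i, hi, he⟩
    rw [mem_image] at he
    obtain ⟨t, ht, rfl⟩ := he
    exact ⟨mem_range.1 hi, t, ht, rfl⟩
  · rintro ⟨h1, t, ht, h2⟩
    exact ⟨e.1, mem_range.2 h1, mem_image.2 ⟨t, ht, Prod.ext rfl h2⟩⟩

theorem card_EE (hP : P.Ok Mk) : (EE P I X).card ≤ I * (4 * (P.F P.h / P.F' P.h)) := by
  rw [EE]
  refine card_biUnion_le.trans ?_
  refine (Finset.sum_le_card_nsmul _ _ (4 * (P.F P.h / P.F' P.h)) ?_).trans (by simp)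
  intro i _
  exact card_image_le.trans (card_AP_last hP i)

theorem EE_lab (hP : P.Ok Mk) (hT : Tg P I X Ir) (t : ℕ) :
    ((EE P I X).filter (fun e => e.2 = t)).card ≤ Ir P.h := by
  have hML : 0 < P.M' * P.L P.h := Nat.mul_pos hP.posM' (L_pos hP P.h)
  refine le_trans (card_le_card_of_injOn (fun e : ℕ × ℕ => e.1) ?_ ?_)
    (hT.cls P.h le_rfl (P.M' * P.L P.h * t))
  · intro e he
    rw [mem_coe, mem_filter] at he
    obtain ⟨h1, u, hu, h2⟩ := And.imp_left mem_EE.1 he |>.1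
    rw [AP, mem_filter] at hu
    rw [mem_coe, mem_filter, mem_range]
    refine ⟨h1, ?_⟩
    rw [← hu.2.2.1, ← he.2, ← h2, Nat.mul_div_cancel' hu.2.1]
  · intro e he e' he' hee
    rw [mem_coe, mem_filter] at he he'
    exact Prod.ext hee (he.2.trans he'.2.symm)

/-- length of the arc -/
def arcL (P : Pr κ) : ℕ := 7 * (P.F P.h / P.M')

theorem EE_arc (hP : P.Ok Mk) (hT : Tg P I X Ir) :
    ∃ X0, ∀ e ∈ EE P I X, X0 ≤ e.2 ∧ e.2 < X0 + arcL P := by
  have hL := L_pos hP P.h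
  have hML : 0 < P.M' * P.L P.h := Nat.mul_pos hP.posM' hL
  rcases Nat.eq_zero_or_pos I with h0 | hI
  · refine ⟨0, fun e he => ?_⟩
    have := (mem_EE.1 he).1
    omega
  obtain ⟨i0, hi0, hmin⟩ := Finset.exists_min_image (range I) X ⟨0, mem_range.2 hI⟩
  set a := X i0 + 1 - 4 * (P.F P.h * P.L P.h) with ha
  have hFM : P.M' ∣ P.F P.h := (hP.M'F' P.h le_rfl).trans (hP.F'F P.h le_rfl)
  obtain ⟨w, hw⟩ := hFM
  have hw0 : 0 < w := by
    have h1 : 0 < P.M' * w := by rw [← hw]; exact posFh hP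
    exact Nat.pos_of_mul_pos_left h1 |> fun _ => Nat.pos_of_ne_zero (by rintro rfl; simp at h1)
  have hFL := FL_mono hP P.h le_rfl
  rw [L_zero] at hFL
  refine ⟨a / (P.M' * P.L P.h), fun e he => ?_⟩
  obtain ⟨h1, t, ht, h2⟩ := mem_EE.1 he
  rw [AP, mem_filter, mem_range] at ht
  obtain ⟨h3, h4, h5, h6⟩ := ht
  have h7 := hmin e.1 (mem_range.2 h1)
  have h8 := hT.win e.1 h1 i0 (mem_range.1 hi0)
  rw [← h2]
  refine ⟨Nat.div_le_div_right (by omega), ?_⟩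
  have h9 : t < a + 5 * (P.F P.h * P.L P.h) := by omega
  have h10 : a < (a / (P.M' * P.L P.h) + 1) * (P.M' * P.L P.h) := by
    have := Nat.lt_div_mul_add hML (a := a)
    rw [add_mul, one_mul]
    exact this
  rw [Nat.div_lt_iff_lt_mul hML, arcL, hw, Nat.mul_div_cancel_left _ hP.posM']
  have h11 : P.F P.h * P.L P.h = w * (P.M' * P.L P.h) := by rw [hw]; ring
  rw [h11] at h9
  have h12 : (a / (P.M' * P.L P.h) + 7 * w) * (P.M' * P.L P.h)
      = (a / (P.M' * P.L P.h) + 1) * (P.M' * P.L P.h) + (7 * w - 1) * (P.M' * P.L P.h) := by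
    have : a / (P.M' * P.L P.h) + 7 * w = a / (P.M' * P.L P.h) + 1 + (7 * w - 1) := by omega
    rw [this, add_mul]
  rw [h12]
  have h13 : 5 * (w * (P.M' * P.L P.h)) ≤ (7 * w - 1) * (P.M' * P.L P.h) := by
    rw [← mul_assoc]
    exact Nat.mul_le_mul_right _ (by omega)
  omega

theorem PP_le (hP : P.Ok Mk) {q : ℕ} (hq : P.M = P.M' * q) (B B' : Finset ℕ) :
    PP P I X B B' ≤ (hitsE B B' (EE P I X) q).card := by
  have hML : 0 < P.M' * P.L P.h := Nat.mul_pos hP.posM' (L_pos hP P.h)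
  rw [PP]
  refine card_le_card_of_injOn
    (fun x : ℕ × (ℕ × ℕ) => ((x.1, q * x.2.1 + x.2.2), x.2.1, x.2.2)) ?_ ?_
  · rintro ⟨i, b, b'⟩ hx
    rw [mem_coe, mem_filter, mem_product, mem_product, mem_range] at hx
    obtain ⟨⟨hi, hb, hb'⟩, ht⟩ := hx
    rw [mem_coe, mem_hitsE]
    refine ⟨⟨mem_EE.2 ⟨hi, _, ht, ?_⟩, hb, hb'⟩, rfl⟩
    simp only
    have : P.M * P.L P.h * b + P.M' * P.L P.h * b' = P.M' * P.L P.h * (q * b + b') := by
      rw [hq]; ring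
    rw [this, Nat.mul_div_cancel_left _ hML]
  · rintro ⟨i, b, b'⟩ _ ⟨j, d, d'⟩ _ h
    simp only [Prod.mk.injEq] at h
    obtain ⟨⟨h1, _⟩, h2, h3⟩ := h
    rw [h1, h2, h3]

end

variable {κ : Type*} {P : Pr κ} {Mk : κ → ℕ} {I : ℕ} {Ir : ℕ → ℕ}
variable {Ω ι C : Type*} [Fintype Ω] [DecidableEq ι]

/-- **The number `PP` for two random windows, all contexts.** -/
theorem PP_prob (hPO : P.Ok Mk) {q : ℕ} (hMq : P.M = P.M' * q) (hq : 0 < q)
    (Pw : Ω → ℝ) (hPw : ∀ ω, 0 ≤ Pw ω) (V : Ω → Finset (ι × ℕ)) (p : ι × ℕ → ℝ)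
    (hp0 : ∀ q, 0 ≤ p q) (hind : ∀ T : Finset (ι × ℕ), pr Pw {ω | T ⊆ V ω} ≤ ∏ v ∈ T, p v)
    {s s' : ι} (hss : s ≠ s') {A A' : ℝ} (hA : 0 ≤ A) (hA' : 0 ≤ A')
    (hp : ∀ v, 1 ≤ v → p (s, v) ≤ A / Real.sqrt v)
    (hp' : ∀ v, 1 ≤ v → p (s', v) ≤ A' / Real.sqrt v) {lo hi lo' hi' : ℕ}
    (hV : ∀ ω, win (V ω) s ⊆ Ico lo hi) (hV' : ∀ ω, win (V ω) s' ⊆ Ico lo' hi')
    (h1 : 1 ≤ lo) (h2 : 1 ≤ lo') (J : Finset C) (X : C → ℕ → ℕ)
    (hT : ∀ c ∈ J, Tg P I (X c) Ir) (t t0 : ℕ) (μ μ1 μ2 : ℝ)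
    (hμ : ((I * (4 * (P.F P.h / P.F' P.h)) : ℕ) : ℝ) *
      (((hi' / q + 1 : ℕ) : ℝ) * ((A / Real.sqrt lo) * (A' / Real.sqrt lo'))) ≤ μ)
    (hμ1 : (arcL P : ℝ) * (A' / Real.sqrt lo') ≤ μ1)
    (hμ2 : ((arcL P / q + 1 : ℕ) : ℝ) * (A / Real.sqrt lo) ≤ μ2) :
    pr Pw {ω | ∃ c ∈ J, (2 * (Ir P.h * t0) + 1) * t <
        PP P I (X c) (win (V ω) s) (win (V ω) s')} ≤
      (J.card : ℝ) * (μ ^ t / (t.factorial : ℝ)) +
        (hi' * (μ1 ^ (t0 + 1) / ((t0 + 1).factorial : ℝ)) +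
          hi * (μ2 ^ (t0 + 1) / ((t0 + 1).factorial : ℝ))) := by
  classical
  choose! X0 hX0 using fun c (hc : c ∈ J) => EE_arc hPO (hT c hc)
  refine (pr_mono Pw hPw ?_).trans (arc_prob_gen Pw hPw V p hp0 hind hss hA hA' hp hp' hV hV' hq
    h1 h2 J (fun c => EE P I (X c)) X0 (arcL P) (Ir P.h) hX0
    (fun c hc u => EE_lab hPO (hT c hc) u) t t0 μ μ1 μ2 ?_ hμ1 hμ2)
  · rintro ω ⟨c, hc, hbig⟩
    exact ⟨c, hc, hbig.trans_le (PP_le hPO hMq _ _)⟩
  · intro c _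
    refine (mean_hitsE_flat hss p hp0 hA hA' hp hp' (EE P I (X c)) q hq h1 h2).trans
      (le_trans ?_ hμ)
    refine mul_le_mul_of_nonneg_right (by exact_mod_cast card_EE hPO) ?_
    positivity

end Pool.Agent.Helper57.T5
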