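import Pool.Agent.Helper57.T5.Inner

/-!
# The innermost random window: sums of two elements of the same window
-/

set_option autoImplicit false

namespace Pool.Agent.Helper57.T5

open Finset Pool.Agent.Helper1.ET4

section

variable {ι : Type*} [DecidableEq ι]

/-- ordered representations in one window -/
def reps (V : Finset ℕ) (n : ℕ) : Finset (ℕ × ℕ) := (V ×ˢ V).filter (fun x => x.1 + x.2 = n)

/-- the smaller parts -/
def halfs (lo hi n : ℕ) : Finset ℕ := (Ico lo hi).filter (fun v => v < n - v ∧ n - v < hi)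

/-- the edge of `v` -/
def sedge (s : ι) (n v : ℕ) : Finset (ι × ℕ) := {(s, v), (s, n - v)}

theorem reps_card_le {s : ι} {lo hi n t : ℕ} (V : Finset (ι × ℕ)) (hV : win V s ⊆ Ico lo hi)
    (ht : ¬ ∃ M ⊆ halfs lo hi n, M.card = t ∧ (M : Set ℕ).PairwiseDisjoint (sedge s n) ∧
      ∀ v ∈ M, sedge s n v ⊆ V) : (reps (win V s) n).card ≤ 2 * t + 1 := by
  classical
  set H := (halfs lo hi n).filter (fun v => sedge s n v ⊆ V) with hH
  have hHt : H.card ≤ t := by
    by_contra hcon
    push Not at hcon
    obtain ⟨M, hM, hMt⟩ := Finset.exists_subset_card_eq hcon.le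
    refine ht ⟨M, hM.trans (filter_subset _ _), hMt, ?_, fun v hv => (mem_filter.1 (hM hv)).2⟩
    intro v hv w hw hvw
    have h1 := (mem_filter.1 (mem_filter.1 (hM hv)).1).2
    have h2 := (mem_filter.1 (mem_filter.1 (hM hw)).1).2
    rw [Function.onFun, Finset.disjoint_left]
    intro x hx hx'
    unfold sedge at hx hx'
    rw [mem_insert, mem_singleton] at hx hx'
    rcases hx with rfl | rfl <;> rcases hx' with h3 | h3 <;>
      (have h4 := (Prod.ext_iff.1 h3).2; simp only at h4; omega)
  have hsub : reps (win V s) n ⊆ (H.image (fun v => (v, n - v))) ∪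
      (H.image (fun v => (n - v, v))) ∪ {(n / 2, n / 2)} := by
    rintro ⟨v, w⟩ hx
    rw [reps, mem_filter, mem_product] at hx
    obtain ⟨⟨hv, hw⟩, he⟩ := hx
    simp only at hv hw he
    have hv' := mem_Ico.1 (hV hv)
    have hw' := mem_Ico.1 (hV hw)
    rw [mem_union, mem_union, mem_image, mem_image, mem_singleton]
    rcases lt_trichotomy v w with h | h | h
    · left; left
      refine ⟨v, ?_, by rw [← he]; simp⟩
      rw [hH, mem_filter, halfs, mem_filter, mem_Ico]
      refine ⟨⟨hv', by omega, by omega⟩, ?_⟩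
      intro x hx
      unfold sedge at hx
      rw [mem_insert, mem_singleton] at hx
      rcases hx with rfl | rfl
      · exact mem_win.1 hv
      · have : n - v = w := by omega
        rw [this]
        exact mem_win.1 hw
    · right
      have h1 : n / 2 = v := by omega
      rw [h1, ← h]
    · left; right
      refine ⟨w, ?_, ?_⟩
      · rw [hH, mem_filter, halfs, mem_filter, mem_Ico]
        refine ⟨⟨hw', by omega, by omega⟩, ?_⟩
        intro x hx
        unfold sedge at hx
        rw [mem_insert, mem_singleton] at hx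
        rcases hx with rfl | rfl
        · exact mem_win.1 hw
        · have : n - w = v := by omega
          rw [this]
          exact mem_win.1 hv
      · have : n - w = v := by omega
        rw [this]
  refine (card_le_card hsub).trans ((card_union_le _ _).trans ?_)
  rw [card_singleton]
  have h1 := (card_union_le (H.image (fun v => (v, n - v))) (H.image (fun v => (n - v, v))))
  have h2 : (H.image (fun v => (v, n - v))).card ≤ H.card := card_image_le
  have h3 : (H.image (fun v => (n - v, v))).card ≤ H.card := card_image_le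
  omega

end

variable {Ω ι : Type*} [Fintype Ω] [DecidableEq ι]

/-- outside a small probability every number has at most `2 t + 1` representations in the window -/
theorem same_prob (P : Ω → ℝ) (hP : ∀ ω, 0 ≤ P ω) (V : Ω → Finset (ι × ℕ)) (p : ι × ℕ → ℝ)
    (hp0 : ∀ q, 0 ≤ p q) (hind : ∀ T : Finset (ι × ℕ), pr P {ω | T ⊆ V ω} ≤ ∏ v ∈ T, p v)
    {s : ι} {A : ℝ} (hA : 0 ≤ A) (hp : ∀ v, 1 ≤ v → p (s, v) ≤ A / Real.sqrt v) {lo hi : ℕ}
    (hV : ∀ ω, win (V ω) s ⊆ Ico lo hi) (h1 : 1 ≤ lo) (t : ℕ) (μ : ℝ) (hμ : 4 * (A * A) ≤ μ) :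
    pr P {ω | ∃ n, 2 * t + 1 < (reps (win (V ω) s) n).card} ≤
      (2 * hi : ℝ) * (μ ^ t / (t.factorial : ℝ)) := by
  classical
  set S : ℕ → Set Ω := fun n => {ω | ∃ M ⊆ halfs lo hi n, M.card = t ∧
      (M : Set ℕ).PairwiseDisjoint (sedge s n) ∧ ∀ v ∈ M, sedge s n v ⊆ V ω} with hS
  have hb : ∀ n ∈ range (2 * hi), pr P (S n) ≤ μ ^ t / (t.factorial : ℝ) := by
    intro n _
    refine disjoint_edges_tail P hP V p hp0 hind _ (sedge s n) μ ?_ t
    have h2 : ∀ v ∈ halfs lo hi n, 1 ≤ v ∧ 1 * v + 1 ≤ n := by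
      intro v hv
      rw [halfs, mem_filter, mem_Ico] at hv
      omega
    have h3 : ∑ e ∈ halfs lo hi n, ∏ v ∈ sedge s n e, p v
        = ∑ v ∈ halfs lo hi n, p (s, v) * p (s, n - 1 * v) := by
      refine Finset.sum_congr rfl (fun v hv => ?_)
      unfold sedge
      rw [Finset.prod_pair, one_mul]
      intro h
      have h4 := (Prod.ext_iff.1 h).2
      simp only at h4
      rw [halfs, mem_filter] at hv
      omega
    rw [h3]
    refine (mean_one A A hA hA (fun v => p (s, v)) (fun v => p (s, v)) hp hp (fun v => hp0 _)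
      1 n one_pos _ h2).trans ?_
    rw [Nat.cast_one, Real.sqrt_one, div_one]
    exact hμ
  refine (pr_biUnion_le P hP (range (2 * hi)) S _ ?_).trans ?_
  · rintro ω ⟨n, hn⟩
    have hne : (reps (win (V ω) s) n).Nonempty := card_pos.1 (by omega)
    obtain ⟨⟨v, w⟩, hx⟩ := hne
    rw [reps, mem_filter, mem_product] at hx
    have h2 := mem_Ico.1 (hV ω hx.1.1)
    have h3 := mem_Ico.1 (hV ω hx.1.2)
    have h4 := hx.2
    simp only at h2 h3 h4
    refine ⟨n, mem_range.2 (by omega), ?_⟩
    by_contra hcon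
    have := reps_card_le (V ω) (hV ω) (n := n) (t := t) hcon
    omega
  · refine (Finset.sum_le_sum hb).trans (le_of_eq ?_)
    rw [Finset.sum_const, nsmul_eq_mul, card_range]
    push_cast
    ring

end Pool.Agent.Helper57.T5
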