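import Pool.Agent.Helper57.T5.Trans
import Pool.Agent.Helper57.T5.SameV
import Pool.Agent.Helper57.T5.PPArc
import Pool.Agent.Helper22.HW.Stack

/-!
# Block BOT: the bottom lemmas for uniform keys

The windows are `Wd lo hi bk w false` (upper state) and `Wd lo hi bk w true` (lower state).
-/

set_option autoImplicit false

namespace Pool.Agent.Helper57.T5

open Finset Pool.Agent.Helper1.ET4 Pool.Agent.Helper42.T5.Pr Pool.Agent.Helper50.T5
  Pool.Agent.Helper57.T4 Pool.Agent.Helper22.HW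

variable {κ : Type*} [DecidableEq κ] {M : κ → ℕ} {K : Finset κ} {lo hi : Bool → ℕ}
  {bk : Bool → ℕ → ℕ → κ}

/-- **BOT1**: one window. -/
theorem bot_same (hM : ∀ k, 0 < M k) (h : WinD M K lo hi bk) (h1 : 1 ≤ lo false) (t : ℕ) :
    PrLe M K (fun w => ∃ n, 2 * t + 1 < (reps (Wd lo hi bk w false) n).card)
      ((2 * hi false : ℝ) * (16 ^ t / (t.factorial : ℝ))) := by
  refine PrLe_of_pr hM ?_
  have h2 := same_prob (un M K) (un_nonneg M K) (fun ω => VVs lo hi bk (ext K ω.1))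
    (fun q => wl q.2) (fun q => (wl_pos _).le) (hind_VVs hM h) (s := false) (A := 2)
    (by norm_num) (fun v hv => wl_le v hv) (lo := lo false) (hi := hi false)
    (fun ω => by rw [win_VVs]; exact Wd_sub _ _ _ _ _) h1 t 16 (by norm_num)
  simp only [win_VVs] at h2
  exact h2

/-- **BOT2**: all fronts common, `a ≥ 1` digits between the two states. -/
theorem bot_common (hM : ∀ k, 0 < M k) (h : WinD M K lo hi bk) (h1 : 1 ≤ lo false)
    {l a D I m : ℕ} (hm : 0 < m) (hl : l.Prime) (ha : 1 ≤ a) (hD : l ^ a ∣ D) (hD0 : 0 < D)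
    (hI : I ^ 2 ≤ l ^ a) (h2 : l ^ a ≤ lo true) (t t0 : ℕ) (ht0 : 1 ≤ t0) (μ1 : ℝ)
    (hμ1 : 2 * I / Real.sqrt (lo true) ≤ μ1) (T : ℕ) (hT : D + l ^ a * hi false + hi true ≤ T) :
    PrLe M K (fun w => ∃ α E N κ₂ : ℕ, E.Coprime l ∧ (2 * t0 + 1) * t <
        cN ((Wd lo hi bk w false).image (fun v => m * (l ^ a * v)))
          ((Wd lo hi bk w true).image (fun v => m * v)) I m D (fun i => α + E * i) κ₂ (m * N))
      ((D : ℝ) ^ 2 * T * (16 ^ t / (t.factorial : ℝ)) +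
        (D : ℝ) ^ 2 * T * hi false * (μ1 ^ t0 / (t0.factorial : ℝ))) := by
  refine PrLe_of_pr hM ?_
  have h3 := hits_prob (un M K) (un_nonneg M K) (fun ω => VVs lo hi bk (ext K ω.1))
    (fun q => wl q.2) (fun q => (wl_pos _).le) (hind_VVs hM h) (s := false) (s' := true)
    (by decide) (A := 2) (A' := 2) (by norm_num) (by norm_num) (fun v hv => wl_le v hv)
    (fun v hv => wl_le v hv) (lo := lo false) (hi := hi false) (lo' := lo true) (hi' := hi true)
    (fun ω => by rw [win_VVs]; exact Wd_sub _ _ _ _ _)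
    (fun ω => by rw [win_VVs]; exact Wd_sub _ _ _ _ _) (c := 1) hl ha hD hD0
    (Nat.coprime_one_left _) hI h1 h2 t t0 ht0 16 μ1 (by norm_num) hμ1 T (by rw [one_mul]; exact hT)
  refine (pr_mono _ (un_nonneg M K) ?_).trans h3
  rintro ω ⟨α, E, N, κ₂, hE, hbig⟩
  by_contra hcon
  simp only [Set.mem_ofPred_eq, not_exists, not_and, not_lt] at hcon
  have h4 := N2_of_hits (W := Wd lo hi bk (ext K ω.1) false) (W' := Wd lo hi bk (ext K ω.1) true)
    (m := m) (q := l ^ a) (c := 1) (Q := D) (I := I) (l := l) (R := (2 * t0 + 1) * t) hm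
    (fun α E n hE => by
      have h5 := hcon α E n hE
      rw [win_VVs, win_VVs] at h5
      exact h5) α E κ₂ (m * N) hE
  rw [cN2_eq_cN] at h4
  omega

/-- **BOT3**: the number `PP` of the last level, all contexts. -/
theorem bot_arc {κ' : Type*} {P : Pool.Agent.Helper22.SL.Pr κ'} {Mk : κ' → ℕ} {I : ℕ}
    {Ir : ℕ → ℕ} (hM : ∀ k, 0 < M k) (h : WinD M K lo hi bk) (h1 : 1 ≤ lo false)
    (h2 : 1 ≤ lo true) (hPO : P.Ok Mk) {q : ℕ} (hMq : P.M = P.M' * q) (hq : 0 < q)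
    {C : Type*} (J : Finset C) (X : C → ℕ → ℕ)
    (hT : ∀ c ∈ J, Pool.Agent.Helper22.SL.Tg P I (X c) Ir) (t t0 : ℕ) (μ μ1 μ2 : ℝ)
    (hμ : ((I * (4 * (P.F P.h / P.F' P.h)) : ℕ) : ℝ) *
      (((hi true / q + 1 : ℕ) : ℝ) * ((2 / Real.sqrt (lo false)) * (2 / Real.sqrt (lo true)))) ≤ μ)
    (hμ1 : (arcL P : ℝ) * (2 / Real.sqrt (lo true)) ≤ μ1)
    (hμ2 : ((arcL P / q + 1 : ℕ) : ℝ) * (2 / Real.sqrt (lo false)) ≤ μ2) :
    PrLe M K (fun w => ∃ c ∈ J, (2 * (Ir P.h * t0) + 1) * t <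
        Pool.Agent.Helper22.SL.PP P I (X c) (Wd lo hi bk w false) (Wd lo hi bk w true))
      ((J.card : ℝ) * (μ ^ t / (t.factorial : ℝ)) +
        (hi true * (μ1 ^ (t0 + 1) / ((t0 + 1).factorial : ℝ)) +
          hi false * (μ2 ^ (t0 + 1) / ((t0 + 1).factorial : ℝ)))) := by
  refine PrLe_of_pr hM ?_
  have h3 := PP_prob (I := I) (Ir := Ir) hPO hMq hq (un M K) (un_nonneg M K)
    (fun ω => VVs lo hi bk (ext K ω.1)) (fun q => wl q.2) (fun q => (wl_pos _).le)
    (hind_VVs hM h) (s := false) (s' := true) (by decide) (A := 2) (A' := 2) (by norm_num)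
    (by norm_num) (fun v hv => wl_le v hv) (fun v hv => wl_le v hv) (lo := lo false)
    (hi := hi false) (lo' := lo true) (hi' := hi true)
    (fun ω => by rw [win_VVs]; exact Wd_sub _ _ _ _ _)
    (fun ω => by rw [win_VVs]; exact Wd_sub _ _ _ _ _) h1 h2 J X hT t t0 μ μ1 μ2 hμ hμ1 hμ2
  simp only [win_VVs] at h3
  exact h3

end Pool.Agent.Helper57.T5
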