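import Pool.Agent.Helper57.T5.RInst
import Pool.Agent.Helper57.T5.BotKey
import Pool.Agent.Helper27.T5.Range
import Pool.Agent.Helper83.T5.Leaf2

/-!
# T5a (MP_12a1af): numbers of the random windows and the bottom lemma for the states
-/

set_option autoImplicit false

namespace Pool.Agent.Helper57.T5

open Finset
open Pool.Agent.Helper5.ET (bb era cnt av Nj pr pr_prime pr_inj)
open Pool.Agent.Helper27.T4 (fam)
open Pool.Agent.Helper27.T5 Pool.Agent.Helper11.T5 Pool.Agent.Helper42.T5.Pr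
open Pool.Agent.Helper22.HW (cN)
open Pool.Agent.Helper50.T5 (VW lev)

/-- the tail of the factorials -/
theorem fact_tail (c W : ℕ) (h : 48 * 10 ^ 6 ≤ c * W) :
    (16 : ℝ) ^ (c * W) / ((c * W).factorial : ℝ) ≤ (((10 : ℝ) ^ 6) ^ W)⁻¹ ^ c := by
  set t := c * W with ht
  have ht0 : (0 : ℝ) < t := by exact_mod_cast (show 0 < t by omega)
  have h1 := Real.pow_div_factorial_le_exp (t : ℝ) ht0.le t
  have h2 : Real.exp (t : ℝ) ≤ 3 ^ t := by
    rw [← Real.exp_one_pow t]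
    exact pow_le_pow_left₀ (Real.exp_pos 1).le (by linarith [Real.exp_one_lt_d9]) t
  have hf : (0 : ℝ) < (t.factorial : ℝ) := by exact_mod_cast t.factorial_pos
  have h3 : (t : ℝ) ^ t ≤ 3 ^ t * (t.factorial : ℝ) := by
    rw [div_le_iff₀ hf] at h1
    exact h1.trans (mul_le_mul_of_nonneg_right h2 hf.le)
  have h4 : (48 : ℝ) / t ≤ ((10 : ℝ) ^ 6)⁻¹ := by
    rw [div_le_iff₀ ht0]
    have h5 : (48 * 10 ^ 6 : ℝ) ≤ t := by exact_mod_cast h
    have h6 : (48 : ℝ) = ((10 : ℝ) ^ 6)⁻¹ * (48 * 10 ^ 6) := by norm_num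
    rw [h6]
    exact mul_le_mul_of_nonneg_left h5 (by positivity)
  calc (16 : ℝ) ^ t / (t.factorial : ℝ) ≤ 48 ^ t / (t : ℝ) ^ t := by
        rw [div_le_div_iff₀ hf (by positivity)]
        calc (16 : ℝ) ^ t * (t : ℝ) ^ t ≤ 16 ^ t * (3 ^ t * (t.factorial : ℝ)) :=
              mul_le_mul_of_nonneg_left h3 (by positivity)
          _ = 48 ^ t * (t.factorial : ℝ) := by
              rw [← mul_assoc, ← mul_pow]
              norm_num
    _ = (48 / (t : ℝ)) ^ t := by rw [div_pow]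
    _ ≤ (((10 : ℝ) ^ 6)⁻¹) ^ t := pow_le_pow_left₀ (by positivity) h4 t
    _ = (((10 : ℝ) ^ 6) ^ W)⁻¹ ^ c := by
        rw [inv_pow, inv_pow, ← pow_mul ((10 : ℝ) ^ 6) W c, ht, mul_comm c W]

/-- lower bound for the lower end of the window -/
theorem A_le_vlo {m k j : ℕ} (hk : k + 2 ≤ m) (hr : 8 ≤ rt m j) :
    (10 ^ 6) ^ W m j (k + 1) ≤ vlo m k j := by
  unfold vlo
  refine le_trans ?_ (Nat.le_succ _)
  rw [Nat.le_div_iff_mul_le (LA_pos m k j)]
  have h1 := Pool.Agent.Helper30.T5.Lp_le (m := m) (j := j) (s := k + 1) (by omega) (by omega) hr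
  have h2 : LA m k j = Pool.Agent.Helper30.T5.Lp m j (k + 1) := LL_QQ m j k
  rw [h2]
  have h3 : W m j (k + 1) ≤ W m j 1 := W_anti (by omega)
  calc (10 ^ 6) ^ W m j (k + 1) * Pool.Agent.Helper30.T5.Lp m j (k + 1)
      ≤ (10 ^ 6) ^ W m j (k + 1) * (10 ^ 6) ^ (W m j 1 - W m j (k + 1)) :=
        Nat.mul_le_mul_left _ h1
    _ = (10 ^ 6) ^ W m j 1 := by
        rw [← pow_add]
        congr 1
        omega

/-- the next position is in the same era -/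
theorem era_succ_used {m l : ℕ} (hb : 10 * m ≤ la (era l)) (hm : 1 < m) (hu : used m l) :
    era (l + 1) = era l := by
  have h1 := used_ef hu hb (le_refl 1) hm
  have h2 := lt_ef (l := l) hb hm
  have h3 := used_bb hu
  have h4 := W_pos m (era l) 1
  exact Pool.Agent.Helper27.T4.era_eq _ _ (by omega) (by omega)

/-- the numbers of the last window -/
structure Lastw (m k j : ℕ) : Prop where
  hb : 10 * m ≤ la j
  r8 : 8 ≤ rt m j
  cv : Pool.Agent.Helper83.T5.cv0 k ≤ (10 ^ 6) ^ W m j (k + 1)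
  big : 10 ^ 7 ≤ W m j (k + 1)

theorem exists_Lastw (m k : ℕ) (hk : k + 2 ≤ m) : ∃ j0 : ℕ, ∀ j ≥ j0, Lastw m k j := by
  obtain ⟨j1, h1⟩ := Pool.Agent.Helper30.T5.exists_le_rt (show 0 < m by omega)
    (Pool.Agent.Helper83.T5.cv0 k + 10 ^ 7)
  obtain ⟨j2, h2⟩ := exists_large m
  refine ⟨max j1 j2, fun j hj => ?_⟩
  have h3 := h1 j (le_trans (le_max_left _ _) hj)
  have h4 : rt m j ≤ W m j (k + 1) := Pool.Agent.Helper30.T5.rt_le_W (by omega)
  refine ⟨h2 j (le_trans (le_max_right _ _) hj), by omega, ?_, by omega⟩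
  have h5 : W m j (k + 1) ≤ (10 ^ 6) ^ W m j (k + 1) := (Nat.lt_pow_self (by norm_num)).le
  omega

/-- the window of a used state -/
theorem vhi_le_sq {m k l : ℕ} (hk : k + 2 ≤ m) (h : Lastw m k (era l)) (hu : used m l) :
    vhi m k l ≤ ((10 ^ 6) ^ W m (era l) (k + 1)) ^ 2 := by
  have h1 := Pool.Agent.Helper83.T5.vhi_le (m := m) (k := k) (era_succ_used h.hb (by omega) hu)
  have h2 := Pool.Agent.Helper83.T5.vlo_le (m := m) (k := k) (j := era l) hk h.r8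
  have h3 := h.cv
  have h4 : (1 : ℕ) ≤ (10 ^ 6) ^ W m (era l) (k + 1) := Nat.one_le_pow _ _ (by norm_num)
  set A := (10 ^ 6) ^ W m (era l) (k + 1) with hA
  calc vhi m k l ≤ 1000037 * vlo m k (era l) := h1
    _ ≤ 1000037 * (Pool.Agent.Helper30.T5.spq (k + 1) * A + 1) := Nat.mul_le_mul_left _ h2
    _ ≤ 1000037 * (Pool.Agent.Helper30.T5.spq (k + 1) * A + A) :=
        Nat.mul_le_mul_left _ (Nat.add_le_add_left h4 _)
    _ = Pool.Agent.Helper83.T5.cv0 k * A := by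
        unfold Pool.Agent.Helper83.T5.cv0
        ring
    _ ≤ A * A := Nat.mul_le_mul_right _ h3
    _ = A ^ 2 := (sq A).symm

theorem vlo_le_sq {m k j : ℕ} (hk : k + 2 ≤ m) (h : Lastw m k j) :
    vlo m k j ≤ ((10 ^ 6) ^ W m j (k + 1)) ^ 2 := by
  have h2 := Pool.Agent.Helper83.T5.vlo_le (m := m) (k := k) (j := j) hk h.r8
  have h3 := h.cv
  have h4 : (1 : ℕ) ≤ (10 ^ 6) ^ W m j (k + 1) := Nat.one_le_pow _ _ (by norm_num)
  set A := (10 ^ 6) ^ W m j (k + 1) with hA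
  calc vlo m k j ≤ Pool.Agent.Helper30.T5.spq (k + 1) * A + 1 := h2
    _ ≤ Pool.Agent.Helper30.T5.spq (k + 1) * A + A := Nat.add_le_add_left h4 _
    _ ≤ Pool.Agent.Helper83.T5.cv0 k * A := by
        unfold Pool.Agent.Helper83.T5.cv0
        nlinarith
    _ ≤ A * A := Nat.mul_le_mul_right _ h3
    _ = A ^ 2 := (sq A).symm

/-- the last windows are the random windows -/
theorem Zw_last (m k l : ℕ) (w : Key → ℕ) :
    Zw m k l k w = (Vw m k l w).image (fun v => Nj l * LA m k (era l) * v) := by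
  classical
  ext u
  rw [mem_Zw, mem_image]
  constructor
  · rintro ⟨y, -, v, hv, rfl⟩
    exact ⟨v, hv, by simp⟩
  · rintro ⟨v, hv, rfl⟩
    exact ⟨fun _ _ => 0, fun t h1 h2 => absurd h2 (by omega), v, hv, by simp⟩

/-! ## the keys of the windows of two states -/

/-- keys of the windows -/
def bk2 (l l' : ℕ) (s : Bool) (L b : ℕ) : Key := bkey (cond s l' l) L b

theorem bkey_inj {l L b l' L' b' : ℕ} (h : bkey l L b = bkey l' L' b') :
    l = l' ∧ L = L' ∧ b = b' := by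
  unfold bkey at h
  simp only [Prod.mk.injEq, true_and] at h
  obtain ⟨h1, h2⟩ := h
  have h3 := congrFun h2 0
  have h4 := congrFun h2 1
  simp at h3 h4
  exact ⟨h1, h3, h4⟩

/-- `K` contains the keys of the random window of the state `l` -/
def BK (m k l : ℕ) (K : Finset Key) : Prop :=
  ∀ v < vhi m k l, bkey l (lev v) (v / 2 ^ lev v) ∈ K

theorem BK.mono {m k l : ℕ} {K K' : Finset Key} (h : BK m k l K) (hK : K ⊆ K') : BK m k l K' :=
  fun v hv => hK (h v hv)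

theorem BK_of {m k l : ℕ} {K : Finset Key} (hK : keysOf m k l ⊆ K) : BK m k l K :=
  fun _ hv => hK (bkey_mem hv)

/-- two different states -/
theorem winD_two {m k l l' : ℕ} (hl : l' ≠ l) {K : Finset Key} (hK : BK m k l K)
    (hK' : BK m k l' K) : WinD (Mk m) K (fun s => cond s (vlo m k (era l'))
      (vlo m k (era l))) (fun s => cond s (vhi m k l') (vhi m k l)) (bk2 l l') := by
  refine ⟨?_, fun s L b => Mk_block _ _ _ _, ?_⟩
  · intro s L b s' L' b' h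
    obtain ⟨h1, h2, h3⟩ := bkey_inj h
    refine ⟨?_, h2, h3⟩
    cases s <;> cases s' <;> simp only [cond_true, cond_false] at h1 <;>
      first
      | rfl
      | exact absurd h1 hl
      | exact absurd h1.symm hl
  · intro s v hv
    rw [mem_Ico] at hv
    cases s
    · exact hK v hv.2
    · exact hK' v hv.2

/-- one state -/
theorem winD_one {m k l : ℕ} {K : Finset Key} (hK : BK m k l K) :
    WinD (Mk m) K (fun s => cond s 0 (vlo m k (era l))) (fun s => cond s 0 (vhi m k l))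
      (bk2 l (l + 1)) := by
  refine ⟨?_, fun s L b => Mk_block _ _ _ _, ?_⟩
  · intro s L b s' L' b' h
    obtain ⟨h1, h2, h3⟩ := bkey_inj h
    refine ⟨?_, h2, h3⟩
    cases s <;> cases s' <;> simp only [cond_true, cond_false] at h1 <;>
      first
      | rfl
      | omega
  · intro s v hv
    rw [mem_Ico] at hv
    cases s
    · exact hK v hv.2
    · exact absurd hv.2 (by simp)

/-! ## the bottom lemma for two states -/

open Real in
theorem inv_le_exp_neg (W : ℕ) : (((10 : ℝ) ^ 6) ^ W)⁻¹ ≤ Real.exp (-(W : ℝ)) := by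
  rw [Real.exp_neg]
  refine inv_anti₀ (Real.exp_pos _) ?_
  rw [← Real.exp_one_pow W]
  refine pow_le_pow_left₀ (Real.exp_pos 1).le ?_ W
  have := Real.exp_one_lt_d9
  norm_num
  linarith

/-- numbers of the bottom lemma -/
theorem bot_numbers {A D T hi W : ℕ} (hA : A = (10 ^ 6) ^ W) (hW : 10 ^ 7 ≤ W) (hD : D ≤ A ^ 2)
    (hT : T ≤ A ^ 5) (hhi : hi ≤ A ^ 2) {μ1 : ℝ} (hμ : μ1 ^ 4 ≤ (A : ℝ)⁻¹) :
    ((D : ℝ) ^ 2 * T * (16 ^ (11 * W) / ((11 * W).factorial : ℝ)) +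
        (D : ℝ) ^ 2 * T * hi * (μ1 ^ 52 / ((52 : ℕ).factorial : ℝ))) ≤
      2 * Real.exp (-(W : ℝ)) := by
  have hAr : (A : ℝ) = ((10 : ℝ) ^ 6) ^ W := by rw [hA]; push_cast; ring
  have hA1 : (1 : ℝ) ≤ A := by
    rw [hAr]
    exact one_le_pow₀ (by norm_num)
  have hA0 : (0 : ℝ) < A := by linarith
  have h1 := fact_tail 11 W (by omega)
  rw [← hAr] at h1
  have hDr : (D : ℝ) ≤ (A : ℝ) ^ 2 := by exact_mod_cast hD
  have hTr : (T : ℝ) ≤ (A : ℝ) ^ 5 := by exact_mod_cast hT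
  have hhr : (hi : ℝ) ≤ (A : ℝ) ^ 2 := by exact_mod_cast hhi
  have h2 : (D : ℝ) ^ 2 * T ≤ (A : ℝ) ^ 9 := by
    calc (D : ℝ) ^ 2 * T ≤ ((A : ℝ) ^ 2) ^ 2 * (A : ℝ) ^ 5 := by gcongr
      _ = (A : ℝ) ^ 9 := by ring
  have h3 : (D : ℝ) ^ 2 * T * hi ≤ (A : ℝ) ^ 11 := by
    calc (D : ℝ) ^ 2 * T * hi ≤ (A : ℝ) ^ 9 * (A : ℝ) ^ 2 := by gcongr
      _ = (A : ℝ) ^ 11 := by ring
  have h4 : μ1 ^ 52 ≤ ((A : ℝ)⁻¹) ^ 13 := by
    calc μ1 ^ 52 = (μ1 ^ 4) ^ 13 := by ring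
      _ ≤ ((A : ℝ)⁻¹) ^ 13 := pow_le_pow_left₀ (by positivity) hμ 13
  have h5 : μ1 ^ 52 / ((52 : ℕ).factorial : ℝ) ≤ ((A : ℝ)⁻¹) ^ 13 := by
    refine le_trans (div_le_self (by positivity) ?_) h4
    exact_mod_cast Nat.succ_le_of_lt (Nat.factorial_pos 52)
  have h6 : (A : ℝ)⁻¹ ≤ Real.exp (-(W : ℝ)) := by
    rw [hAr]
    exact inv_le_exp_neg W
  have h7 : (A : ℝ)⁻¹ ≤ 1 := inv_le_one_of_one_le₀ hA1
  have h8 : ((A : ℝ)⁻¹) ^ 2 ≤ (A : ℝ)⁻¹ := by
    rw [sq]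
    exact mul_le_of_le_one_left (by positivity) h7
  have e1 : (D : ℝ) ^ 2 * T * (16 ^ (11 * W) / ((11 * W).factorial : ℝ)) ≤ ((A : ℝ)⁻¹) ^ 2 := by
    calc (D : ℝ) ^ 2 * T * (16 ^ (11 * W) / ((11 * W).factorial : ℝ))
        ≤ (A : ℝ) ^ 9 * ((A : ℝ)⁻¹) ^ 11 := by gcongr
      _ = ((A : ℝ)⁻¹) ^ 2 := by
          field_simp
  have e2 : (D : ℝ) ^ 2 * T * hi * (μ1 ^ 52 / ((52 : ℕ).factorial : ℝ)) ≤ ((A : ℝ)⁻¹) ^ 2 := by
    calc (D : ℝ) ^ 2 * T * hi * (μ1 ^ 52 / ((52 : ℕ).factorial : ℝ))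
        ≤ (A : ℝ) ^ 11 * ((A : ℝ)⁻¹) ^ 13 := by gcongr
      _ = ((A : ℝ)⁻¹) ^ 2 := by
          field_simp
  linarith

/-- **the bottom lemma for two states of one era** -/
theorem bot_gen {m k l l' : ℕ} (hk : k + 2 ≤ m) (h : Lastw m k (era l)) (hu : used m l)
    (hu' : used m l') (hl : l' < l) (he : era l' = era l) {K : Finset Key}
    (hK : BK m k l K) (hK' : BK m k l' K) {p D I M : ℕ} (hM : 0 < M) (hp : p.Prime)
    (hD : p ^ (l - l') ∣ D) (hD0 : 0 < D) (hDA : D ≤ ((10 ^ 6) ^ W m (era l) (k + 1)) ^ 2)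
    (hI : I ^ 2 ≤ p ^ (l - l')) (hIA : 16 * I ^ 4 ≤ (10 ^ 6) ^ W m (era l) (k + 1))
    (hq : p ^ (l - l') ≤ vlo m k (era l)) :
    PrLe (Mk m) K (fun w => ∃ α E N κ₂ : ℕ, E.Coprime p ∧
        105 * (11 * W m (era l) (k + 1)) <
        cN ((Vw m k l w).image (fun v => M * (p ^ (l - l') * v)))
          ((Vw m k l' w).image (fun v => M * v)) I M D (fun i => α + E * i) κ₂ (M * N))
      (2 * Real.exp (-(W m (era l) (k + 1) : ℝ))) := by
  have hlo := A_le_vlo (k := k) hk h.r8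
  have hA1 : (1 : ℕ) ≤ (10 ^ 6) ^ W m (era l) (k + 1) := Nat.one_le_pow _ _ (by norm_num)
  have hbig := h.big
  have hh' : Lastw m k (era l') := by rw [he]; exact h
  have h1 := vhi_le_sq hk h hu
  have h2 := vhi_le_sq hk hh' hu'
  have h2' := vlo_le_sq hk h
  rw [he] at h2
  set A := (10 ^ 6) ^ W m (era l) (k + 1) with hA
  have hA10 : 10 ≤ A := by
    rw [hA]
    calc 10 ≤ (10 ^ 6) ^ 1 := by norm_num
      _ ≤ _ := Nat.pow_le_pow_right (by norm_num) (by omega)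
  have hqA : p ^ (l - l') ≤ A ^ 2 := hq.trans h2'
  have hT : D + p ^ (l - l') * vhi m k l + vhi m k l' ≤ A ^ 5 := by
    calc D + p ^ (l - l') * vhi m k l + vhi m k l' ≤ A ^ 2 + A ^ 2 * A ^ 2 + A ^ 2 := by gcongr
      _ ≤ A ^ 5 := by
          have e1 : A ^ 2 ≤ A ^ 4 := Nat.pow_le_pow_right (by omega) (by norm_num)
          have e2 : A ^ 5 = A ^ 4 * A := by ring
          rw [e2]
          nlinarith [Nat.mul_le_mul_left (A ^ 4) hA10]
  refine PrLe_mono (fun w _ hw => hw) ?_ (bot_common (fun q => Mk_pos m q)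
    (winD_two (m := m) (k := k) (ne_of_lt hl) hK hK')
    (hA1.trans hlo) (l := p) (a := l - l') (D := D) (I := I) (m := M) hM hp (by omega) hD hD0 hI
    (by simp only [cond_true]; rw [he]; exact hq) (11 * W m (era l) (k + 1)) 52 (by norm_num)
    (2 * I / Real.sqrt (vlo m k (era l) : ℕ)) (by simp only [cond_true]; rw [he])
    (D + p ^ (l - l') * vhi m k l + vhi m k l') le_rfl)
  refine bot_numbers (A := A) hA hbig hDA hT h1 ?_
  have hs : Real.sqrt (vlo m k (era l) : ℕ) ^ 4 = ((vlo m k (era l) : ℕ) : ℝ) ^ 2 := by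
    have := Real.sq_sqrt (Nat.cast_nonneg (α := ℝ) (vlo m k (era l)))
    calc Real.sqrt (vlo m k (era l) : ℕ) ^ 4 = (Real.sqrt (vlo m k (era l) : ℕ) ^ 2) ^ 2 := by ring
      _ = _ := by rw [this]
  have hA0 : (0 : ℝ) < A := by exact_mod_cast (by omega : 0 < A)
  have hlo' : (A : ℝ) ≤ ((vlo m k (era l) : ℕ) : ℝ) := by exact_mod_cast hlo
  have hIr : 16 * (I : ℝ) ^ 4 ≤ (A : ℝ) := by exact_mod_cast hIA
  have hv0 : (0 : ℝ) < ((vlo m k (era l) : ℕ) : ℝ) := hA0.trans_le hlo'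
  rw [div_pow, hs, mul_pow, div_le_iff₀ (pow_pos hv0 2)]
  calc (2 : ℝ) ^ 4 * (I : ℝ) ^ 4 = 16 * (I : ℝ) ^ 4 := by norm_num
    _ ≤ (A : ℝ) := hIr
    _ = (A : ℝ)⁻¹ * (A : ℝ) ^ 2 := by field_simp
    _ ≤ (A : ℝ)⁻¹ * ((vlo m k (era l) : ℕ) : ℝ) ^ 2 := by gcongr

end Pool.Agent.Helper57.T5
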