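import Pool.Agent.Helper57.T5.BotNum
import Pool.Agent.Helper5.T5.Pair

/-!
# T5a (MP_12a1af): pairs of states all of whose fronts are common
-/

set_option autoImplicit false

namespace Pool.Agent.Helper57.T5

open Finset
open Pool.Agent.Helper5.ET (bb era cnt av Nj pr pr_prime pr_inj)
open Pool.Agent.Helper27.T4 (fam)
open Pool.Agent.Helper27.T5 Pool.Agent.Helper11.T5 Pool.Agent.Helper42.T5.Pr
open Pool.Agent.Helper30.T5 (Lp Lp_pos)
open Pool.Agent.Helper22.HW (cN)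
open Pool.Agent.Helper50.T5 (VW lev)
open Pool.Agent.Helper5.T5

/-- the constant of the label block -/
noncomputable def KR (t : ℕ) : ℕ :=
  (∏ i, (2 * (pr i - 1))) * ((∏ i, (2 * (pr i - 1))) * ∏ s ∈ range t, ∏ i, (2 * (ps s i - 1))) * 4

/-- **the label block, late eras** -/
theorem near_R_late (m k : ℕ) (hk : k + 2 ≤ m) : ∃ j0 : ℕ, ∀ l l' t : ℕ, j0 ≤ era l → t ≤ k →
    used m l → used m l' → l' ≤ l → era l' = era l → ef m (t + 1) l' = ef m (t + 1) l →
    ∀ (w : Key → ℕ) (I R : ℕ), pr (fam (era l)) ^ ((l - l') / 2) ≤ I → ∀ n : ℕ,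
    (∀ α E N : ℕ, E.Coprime (pr (fam (era l))) → ∀ κ₂ < 4,
      cN (Zw m k l t w) (Zw m k l' t w) I (Nj l' * Lp m (era l) (t + 1))
        (pr (fam (era l)) ^ (ef m (t + 1) l - l')) (fun i => α + E * i) κ₂
        (Nj l' * Lp m (era l) (t + 1) * N) ≤ R) →
    Rp m k l l' w n ≤ KR t * R := by
  obtain ⟨j1, h1⟩ := exists_double m k hk
  obtain ⟨j2, h2⟩ := exists_cnt2
  refine ⟨max j1 j2, fun l l' t hj ht hu hu' hl he hfr w I R hI n hR => ?_⟩
  obtain ⟨hb, hd⟩ := h1 l hu (le_trans (le_max_left _ _) hj)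
  obtain ⟨-, hd'⟩ := h1 l' hu' (by rw [he]; exact le_trans (le_max_left _ _) hj)
  have key : ∀ l0 : ℕ, (∀ t < k, 2 * (FF m l0 t * LL (QQ m (era l)) t) ≤
      FF m l0 (t + 1) * LL (QQ m (era l)) (t + 1)) → ∀ s < t,
      2 * FF m l0 s ≤ FF m l0 (s + 1) * QQ m (era l) s := by
    intro l0 h s hs
    have h3 := h s (by omega)
    rw [LL_succ] at h3
    have h4 : 0 < LL (QQ m (era l)) s := LLQ_pos _ _ _
    refine Nat.le_of_mul_le_mul_right ?_ h4
    calc 2 * FF m l0 s * LL (QQ m (era l)) s = 2 * (FF m l0 s * LL (QQ m (era l)) s) := by ring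
      _ ≤ FF m l0 (s + 1) * (LL (QQ m (era l)) s * QQ m (era l) s) := h3
      _ = _ := by ring
  have h5 := near_R hb (by omega : k + 1 < m) ht hu hu' hl he hfr
    (close_of_common hb (by omega) hu hl he hfr)
    (h2 m t l l' (le_trans (le_max_right _ _) hj) hb (by omega) hu hu' hl he hfr)
    (key l hd) (key l' (by rw [he] at hd'; exact hd')) w hI n hR
  refine h5.trans (le_of_eq ?_)
  unfold KR
  ring

theorem pr_le_sq (f : Fin 3) (a : ℕ) : pr f ^ a ≤ (10 ^ 6) ^ (2 * a) := by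
  rw [pow_mul]
  refine Nat.pow_le_pow_left ?_ a
  have := pr_le f
  omega

/-- **all fronts common, two states** -/
theorem bot_two (m k : ℕ) (hk : k + 2 ≤ m) : ∃ j0 : ℕ, ∀ l l' : ℕ, j0 ≤ era l →
    used m l → used m l' → l' < l → era l' = era l → ef m (k + 1) l' = ef m (k + 1) l →
    ∀ K : Finset Key, BK m k l K → BK m k l' K →
    PrLe (Mk m) K (fun w => ∃ n, KR k * (1155 * W m (era l) (k + 1)) < Rp m k l l' w n)
      (2 * Real.exp (-(W m (era l) (k + 1) : ℝ))) := by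
  obtain ⟨j1, h1⟩ := near_R_late m k hk
  obtain ⟨j2, h2⟩ := exists_Lastw m k hk
  refine ⟨max j1 j2, fun l l' hj hu hu' hl he hfr K hK hK' => ?_⟩
  have hL := h2 (era l) (le_trans (le_max_right _ _) hj)
  have hb := hL.hb
  have hD1 := dist_of_common hb (by omega : k + 1 < m) hl.le he hfr
  have hD2 := PP_mul (m := m) (j := era l) (i := k + 1) hb (by omega)
  have hD3 := ef_sub_le (m := m) (i := k + 1) (l := l) hb (by omega)
  have hD4 := lt_ef (m := m) (i := k + 1) (l := l) hb (by omega)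
  have hbig := hL.big
  set g := fam (era l) with hg
  set M := Nj l' * Lp m (era l) (k + 1) with hM
  have hM0 : 0 < M := Nat.mul_pos (Nj_pos1 _) (Lp_pos _ _ _)
  have hNl : Nj l = Nj l' * pr g ^ (l - l') := Nj_era hl.le he
  have hLA : LA m k (era l) = Lp m (era l) (k + 1) := LL_QQ m (era l) k
  have hlo := A_le_vlo (k := k) hk hL.r8
  have e1 : ∀ w : Key → ℕ, Zw m k l k w =
      (Vw m k l w).image (fun v => M * (pr g ^ (l - l') * v)) := by
    intro w
    rw [Zw_last]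
    congr 1
    funext v
    rw [hLA, hM, hNl]
    ring
  have e2 : ∀ w : Key → ℕ, Zw m k l' k w = (Vw m k l' w).image (fun v => M * v) := by
    intro w
    rw [Zw_last, he, hLA, hM]
  have hpos : 0 < pr g ^ (ef m (k + 1) l - l') := Nat.pow_pos (pr_prime g).pos
  have hle : l - l' ≤ ef m (k + 1) l - l' := by omega
  have hbot := bot_gen (K := K) (p := pr g) (D := pr g ^ (ef m (k + 1) l - l'))
    (I := pr g ^ ((l - l') / 2)) (M := M) hk hL hu hu' hl he hK hK' hM0 (pr_prime g)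
    (pow_dvd_pow _ hle) hpos ?_ ?_ ?_ ?_
  · refine PrLe_mono (fun r _ hw => ?_) le_rfl hbot
    obtain ⟨n, hn⟩ := hw
    by_contra hcon
    simp only [not_exists, not_and, not_lt] at hcon
    refine absurd (h1 l l' k (le_trans (le_max_left _ _) hj) le_rfl hu hu' hl.le he hfr
      (ext K r) (pr g ^ ((l - l') / 2)) (1155 * W m (era l) (k + 1)) le_rfl n ?_) (not_le.2 hn)
    intro α E N hE κ₂ _
    rw [e1, e2]
    have := hcon α E N κ₂ hE
    refine this.trans (le_of_eq ?_)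
    ring
  · refine (pr_le_sq g _).trans ?_
    calc (10 ^ 6) ^ (2 * (ef m (k + 1) l - l')) ≤ (10 ^ 6) ^ (W m (era l) (k + 1) * 2) :=
          Nat.pow_le_pow_right (by norm_num) (by omega)
      _ = ((10 ^ 6) ^ W m (era l) (k + 1)) ^ 2 := pow_mul _ _ _
  · rw [← pow_mul]
    exact Nat.pow_le_pow_right (pr_prime g).pos (by omega)
  · rw [← pow_mul]
    calc 16 * pr g ^ ((l - l') / 2 * 4) ≤ (10 ^ 6) ^ 1 * (10 ^ 6) ^ (2 * ((l - l') / 2 * 4)) :=
          Nat.mul_le_mul (by norm_num) (pr_le_sq g _)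
      _ = (10 ^ 6) ^ (1 + 2 * ((l - l') / 2 * 4)) := by rw [← pow_add]
      _ ≤ (10 ^ 6) ^ W m (era l) (k + 1) := Nat.pow_le_pow_right (by norm_num) (by omega)
  · refine ((pr_le_sq g _).trans ?_).trans hlo
    exact Nat.pow_le_pow_right (by norm_num) (by omega)

/-- one window: few representations -/
theorem reps_one (m k : ℕ) (hk : k + 2 ≤ m) : ∃ j0 : ℕ, ∀ l : ℕ, j0 ≤ era l → used m l →
    ∀ K : Finset Key, BK m k l K →
    PrLe (Mk m) K (fun w => ∃ n, 1155 * W m (era l) (k + 1) < (reps (Vw m k l w) n).card)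
      (2 * Real.exp (-(W m (era l) (k + 1) : ℝ))) := by
  obtain ⟨j2, h2⟩ := exists_Lastw m k hk
  refine ⟨j2, fun l hj hu K hK => ?_⟩
  have hL := h2 (era l) hj
  have hbig := hL.big
  have hlo := A_le_vlo (k := k) hk hL.r8
  have hhi := vhi_le_sq hk hL hu
  have h3 := bot_same (fun q => Mk_pos m q) (winD_one (m := m) (k := k) hK)
    (show 1 ≤ vlo m k (era l) from (Nat.one_le_pow _ _ (by norm_num)).trans hlo)
    (11 * W m (era l) (k + 1))
  refine PrLe_mono (fun r _ hw => ?_) ?_ h3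
  · obtain ⟨n, hn⟩ := hw
    refine ⟨n, lt_of_le_of_lt ?_ hn⟩
    omega
  · have hf := fact_tail 11 (W m (era l) (k + 1)) (by omega)
    have he := inv_le_exp_neg (W m (era l) (k + 1))
    set a := ((10 : ℝ) ^ 6) ^ W m (era l) (k + 1) with ha
    have ha1 : (1 : ℝ) ≤ a := one_le_pow₀ (by norm_num)
    have ha0 : (0 : ℝ) < a := by linarith
    have hh : ((vhi m k l : ℕ) : ℝ) ≤ a ^ 2 := by
      rw [ha]
      exact_mod_cast hhi
    simp only [cond_false]
    calc (2 * (vhi m k l : ℝ)) * (16 ^ (11 * W m (era l) (k + 1)) /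
          ((11 * W m (era l) (k + 1)).factorial : ℝ)) ≤ (2 * a ^ 2) * (a⁻¹ ^ 11) := by gcongr
      _ = 2 * (a⁻¹ * a⁻¹ ^ 8) := by field_simp
      _ ≤ 2 * (a⁻¹ * 1) := by
          have : a⁻¹ ≤ 1 := inv_le_one_of_one_le₀ ha1
          gcongr
          exact pow_le_one₀ (by positivity) this
      _ ≤ 2 * Real.exp (-(W m (era l) (k + 1) : ℝ)) := by
          rw [mul_one]
          gcongr

/-- **all fronts common, one state** -/
theorem bot_self (m k : ℕ) (hk : k + 2 ≤ m) : ∃ j0 : ℕ, ∀ l : ℕ, j0 ≤ era l → used m l →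
    ∀ K : Finset Key, BK m k l K →
    PrLe (Mk m) K (fun w => ∃ n, KR k * (1155 * W m (era l) (k + 1)) < Rp m k l l w n)
      (2 * Real.exp (-(W m (era l) (k + 1) : ℝ))) := by
  classical
  obtain ⟨j1, h1⟩ := near_R_late m k hk
  obtain ⟨j2, h2⟩ := reps_one m k hk
  refine ⟨max j1 j2, fun l hj hu K hK => ?_⟩
  refine PrLe_mono (fun r _ hw => ?_) le_rfl (h2 l (le_trans (le_max_right _ _) hj) hu K hK)
  obtain ⟨n, hn⟩ := hw
  by_contra hcon
  simp only [not_exists, not_lt] at hcon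
  refine absurd (h1 l l k (le_trans (le_max_left _ _) hj) le_rfl hu hu le_rfl rfl rfl
    (ext K r) 1 (1155 * W m (era l) (k + 1)) (by simp) n ?_) (not_le.2 hn)
  intro α E N _ κ₂ _
  set g := fam (era l) with hg
  set M := Nj l * Lp m (era l) (k + 1) with hM
  have hM0 : 0 < M := Nat.mul_pos (Nj_pos1 _) (Lp_pos _ _ _)
  have hLA : LA m k (era l) = Lp m (era l) (k + 1) := LL_QQ m (era l) k
  have e2 : Zw m k l k (ext K r) = (Vw m k l (ext K r)).image (fun v => M * v) := by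
    rw [Zw_last, hLA, hM]
  rw [e2]
  set D := pr g ^ (ef m (k + 1) l - l) with hD
  refine le_trans (card_le_card_of_injOn (t := reps (Vw m k l (ext K r))
    (N - ((α + E * 0) % D + κ₂ * D))) (fun t => (t.2.1 / M, t.2.2 / M)) ?_ ?_) (hcon _)
  · intro t ht
    rw [mem_coe, mem_filter, mem_product, mem_product, mem_image, mem_image, mem_range] at ht
    obtain ⟨⟨h0, ⟨v, hv, hv1⟩, ⟨v', hv', hv1'⟩⟩, hs⟩ := ht
    have ht0 : t.1 = 0 := by omega
    rw [ht0, ← hv1, ← hv1', ← Nat.mul_add, ← Nat.mul_add] at hs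
    have hs' := Nat.eq_of_mul_eq_mul_left hM0 hs
    have q1 : t.2.1 / M = v := by rw [← hv1, Nat.mul_div_cancel_left _ hM0]
    have q2 : t.2.2 / M = v' := by rw [← hv1', Nat.mul_div_cancel_left _ hM0]
    rw [mem_coe]
    unfold reps
    rw [mem_filter, mem_product]
    simp only [q1, q2]
    refine ⟨⟨hv, hv'⟩, ?_⟩
    have hs2 : v + v' + ((α + E * 0) % D + κ₂ * D) = N := hs'
    generalize (α + E * 0) % D + κ₂ * D = X at hs2 ⊢
    omega
  · intro t ht t' ht' h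
    rw [mem_coe, mem_filter, mem_product, mem_product, mem_image, mem_image, mem_range] at ht ht'
    obtain ⟨⟨h0, ⟨v, hv, hv1⟩, ⟨v', hv', hv1'⟩⟩, -⟩ := ht
    obtain ⟨⟨g0, ⟨u, hu, hu1⟩, ⟨u', hu', hu1'⟩⟩, -⟩ := ht'
    simp only [Prod.mk.injEq] at h
    rw [← hv1, ← hv1', ← hu1, ← hu1', Nat.mul_div_cancel_left _ hM0,
      Nat.mul_div_cancel_left _ hM0, Nat.mul_div_cancel_left _ hM0,
      Nat.mul_div_cancel_left _ hM0] at h
    refine Prod.ext (by omega) (Prod.ext ?_ ?_)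
    · rw [← hv1, ← hu1, h.1]
    · rw [← hv1', ← hu1', h.2]

/-! ## the last window in terms of the state -/

theorem last_le_rpow {k l : ℕ} (hl : bb 0 ≤ l) :
    (W (k + 2) (era l) (k + 1) : ℝ) ≤ 2 ^ (k + 1) * (l : ℝ) ^ ((1 : ℕ) / ((k + 2 : ℕ) : ℝ)) := by
  have h1 := Pool.Agent.Helper30.T5.W_le_rpow (m := k + 2) (i := k + 1) (by omega) (by omega)
    (era l)
  have h2 : (1 : ℝ) - ((k + 1 : ℕ) : ℝ) / ((k + 2 : ℕ) : ℝ) = (1 : ℕ) / ((k + 2 : ℕ) : ℝ) := by
    have : ((k + 2 : ℕ) : ℝ) ≠ 0 := by positivity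
    field_simp
    push_cast
    ring
  rw [h2] at h1
  refine h1.trans (mul_le_mul_of_nonneg_left ?_ (by positivity))
  refine Real.rpow_le_rpow (Nat.cast_nonneg _) ?_ (by positivity)
  exact_mod_cast (Pool.Agent.Helper27.T4.era_spec l hl).1

theorem rpow_le_last (k : ℕ) {l : ℕ} (hl : bb 0 ≤ l) (hr : 4 ≤ rt (k + 2) (era l)) :
    (l : ℝ) ^ (1 / (2 * (k + 2 : ℝ))) ≤ (W (k + 2) (era l) (k + 1) : ℝ) := by
  have h1 := (Pool.Agent.Helper30.T5.era_bounds hl rfl).2
  have h2 := Pool.Agent.Helper30.T5.bb_lt_rt_pow (m := k + 2) (by omega) (era l)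
  have h3 : rt (k + 2) (era l) ≤ W (k + 2) (era l) (k + 1) :=
    Pool.Agent.Helper30.T5.rt_le_W (by omega)
  set r := rt (k + 2) (era l) with hrdef
  have h4 : l ≤ r ^ (2 * (k + 2)) := by
    have h5 : 2 * (2 * r) ^ (k + 2) ≤ r ^ (2 * (k + 2)) := by
      have h6 : 2 * 2 ^ (k + 2) ≤ r ^ (k + 2) := by
        calc 2 * 2 ^ (k + 2) ≤ 2 ^ (k + 2) * 2 ^ (k + 2) := by
              refine Nat.mul_le_mul_right _ ?_
              calc 2 = 2 ^ 1 := by norm_num
                _ ≤ 2 ^ (k + 2) := Nat.pow_le_pow_right (by norm_num) (by omega)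
          _ = 4 ^ (k + 2) := by rw [← mul_pow]; norm_num
          _ ≤ r ^ (k + 2) := Nat.pow_le_pow_left hr _
      calc 2 * (2 * r) ^ (k + 2) = (2 * 2 ^ (k + 2)) * r ^ (k + 2) := by rw [mul_pow]; ring
        _ ≤ r ^ (k + 2) * r ^ (k + 2) := Nat.mul_le_mul_right _ h6
        _ = r ^ (2 * (k + 2)) := by rw [← pow_add]; congr 1; ring
    omega
  have h7 : (l : ℝ) ≤ (r : ℝ) ^ (2 * (k + 2)) := by exact_mod_cast h4
  have h8 : (l : ℝ) ^ (1 / (2 * (k + 2 : ℝ))) ≤ ((r : ℝ) ^ (2 * (k + 2))) ^ (1 / (2 * (k + 2 : ℝ))) :=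
    Real.rpow_le_rpow (Nat.cast_nonneg _) h7 (by positivity)
  have h9 : ((r : ℝ) ^ (2 * (k + 2))) ^ (1 / (2 * (k + 2 : ℝ))) = r := by
    have h10 : (1 / (2 * (k + 2 : ℝ))) = ((2 * (k + 2) : ℕ) : ℝ)⁻¹ := by
      push_cast
      rw [one_div]
    rw [h10]
    exact Real.pow_rpow_inv_natCast (Nat.cast_nonneg _) (by omega)
  rw [h9] at h8
  exact h8.trans (by exact_mod_cast h3)

/-- **BotStmt** -/
theorem botStmt : BotStmt := by
  refine ⟨1, 0, fun k _ => ?_⟩
  obtain ⟨j1, h1⟩ := bot_two (k + 2) k le_rfl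
  obtain ⟨j2, h2⟩ := bot_self (k + 2) k le_rfl
  obtain ⟨j3, h3⟩ := Pool.Agent.Helper30.T5.exists_le_rt (show 0 < k + 2 by omega) 4
  refine ⟨bb (max (max j1 j2) j3), ((KR k * 1155 * 2 ^ (k + 1) : ℕ) : ℝ), 1 / (2 * (k + 2 : ℝ)), 2,
    Nat.cast_nonneg _, by positivity, by norm_num, ?_⟩
  intro l l' hl' hll hu hu' hP K hK hK'
  obtain ⟨he, hfc⟩ := hP
  have hb0 : bb 0 ≤ l := used_bb_zero hu
  have hera : max (max j1 j2) j3 ≤ era l := by
    have h4 : bb (max (max j1 j2) j3) ≤ l := hl'.trans hll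
    have h5 := (Pool.Agent.Helper27.T4.era_spec l hb0).2
    by_contra hcon
    have h6 : bb (era l + 1) ≤ bb (max (max j1 j2) j3) :=
      Pool.Agent.Helper27.T4.bb_strictMono.monotone (by omega)
    omega
  have hj1 : j1 ≤ era l := le_trans (le_trans (le_max_left _ _) (le_max_left _ _)) hera
  have hj2 : j2 ≤ era l := le_trans (le_trans (le_max_right _ _) (le_max_left _ _)) hera
  have hj3 : j3 ≤ era l := le_trans (le_max_right _ _) hera
  have hr := h3 (era l) hj3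
  have hfr : ef (k + 2) (k + 1) l' = ef (k + 2) (k + 1) l := by
    have h7 := fc_spec (m := k + 2) (k := k) (l' := l') (l := l) (by omega)
    rw [hfc] at h7
    exact h7.2
  have key : PrLe (Mk (k + 2)) K
      (fun w => ∃ n, KR k * (1155 * W (k + 2) (era l) (k + 1)) < Rp (k + 2) k l l' w n)
      (2 * Real.exp (-(W (k + 2) (era l) (k + 1) : ℝ))) := by
    rcases Nat.eq_or_lt_of_le hll with h8 | h8
    · subst h8
      exact h2 l' hj2 hu K (BK_of hK)
    · exact h1 l l' hj1 hu hu' h8 he hfr K (BK_of hK) (BK_of hK')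
  refine PrLe_mono (fun r _ hw => ?_) ?_ key
  · obtain ⟨n, hn⟩ := hw
    refine ⟨n, ?_⟩
    have h9 := last_le_rpow (k := k) hb0
    have h10 : ((KR k * (1155 * W (k + 2) (era l) (k + 1)) : ℕ) : ℝ) <
        (Rp (k + 2) k l l' (ext K r) n : ℝ) := by
      refine lt_of_le_of_lt ?_ hn
      push_cast
      push_cast at h9
      calc (KR k : ℝ) * (1155 * (W (k + 2) (era l) (k + 1) : ℝ))
          ≤ (KR k : ℝ) * (1155 * (2 ^ (k + 1) * (l : ℝ) ^ (1 / ((k : ℝ) + 2)))) := by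
            gcongr
        _ = _ := by ring
    exact_mod_cast h10
  · refine mul_le_mul_of_nonneg_left (Real.exp_le_exp.2 (neg_le_neg ?_)) (by norm_num)
    exact rpow_le_last k hb0 hr

end Pool.Agent.Helper57.T5
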