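import Pool.Agent.Helper57.T5.Bot

/-!
# The bottom of the tower: two random windows, targets in an arc

For every context `c ∈ J` there is a finite set `E c` of pairs (label, target), the targets lie in an
arc of length `ℓ` and every number is the target of at most `κ₀` labels.  Then outside a small
probability there are at most `(2 κ₀ t0 + 1) t` hits `((i, τ), v, v')`, `q * v + v' = τ`.
-/

set_option autoImplicit false

namespace Pool.Agent.Helper57.T5

open Finset Pool.Agent.Helper1.ET4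

section

variable {ι Λ : Type*} [DecidableEq ι] [DecidableEq Λ]

/-- the two vertices of a hit -/
def suppE (s s' : ι) (x : (Λ × ℕ) × ℕ × ℕ) : Finset (ι × ℕ) := {(s, x.2.1), (s', x.2.2)}

omit [DecidableEq Λ] in
theorem mem_suppE {s s' : ι} {x : (Λ × ℕ) × ℕ × ℕ} {q : ι × ℕ} :
    q ∈ suppE s s' x ↔ q = (s, x.2.1) ∨ q = (s', x.2.2) := by
  unfold suppE
  rw [Finset.mem_insert, Finset.mem_singleton]

omit [DecidableEq Λ] in
theorem hitsE_mono {V V' W W' : Finset ℕ} (h : V ⊆ W) (h' : V' ⊆ W') (E : Finset (Λ × ℕ)) (q : ℕ) :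
    hitsE V V' E q ⊆ hitsE W W' E q := by
  intro x hx
  have h1 := mem_hitsE.1 hx
  exact mem_hitsE.2 ⟨⟨h1.1.1, h h1.1.2.1, h' h1.1.2.2⟩, h1.2⟩

/-- the mean number of hits -/
theorem mean_hitsE {s s' : ι} (hss : s ≠ s') (p : ι × ℕ → ℝ) (hp0 : ∀ q, 0 ≤ p q) {A A' : ℝ}
    (hA : 0 ≤ A) (hA' : 0 ≤ A') (hp : ∀ v, 1 ≤ v → p (s, v) ≤ A / Real.sqrt v)
    (hp' : ∀ v, 1 ≤ v → p (s', v) ≤ A' / Real.sqrt v) {lo hi lo' hi' : ℕ}
    (E : Finset (Λ × ℕ)) (q : ℕ) (hq : 0 < q) (h1 : 1 ≤ lo) (h2 : q ≤ lo') :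
    ∑ e ∈ hitsE (Ico lo hi) (Ico lo' hi') E q, ∏ x ∈ suppE s s' e, p x ≤
      E.card * (4 * (A * A') / Real.sqrt q) := by
  classical
  have hprod : ∀ e : (Λ × ℕ) × ℕ × ℕ, ∏ x ∈ suppE s s' e, p x = p (s, e.2.1) * p (s', e.2.2) := by
    intro e
    unfold suppE
    rw [Finset.prod_pair]
    intro h
    exact hss (congrArg Prod.fst h)
  rw [Finset.sum_congr rfl fun e _ => hprod e]
  set H := hitsE (Ico lo hi) (Ico lo' hi') E q with hH
  have hfib : ∑ e ∈ H, p (s, e.2.1) * p (s', e.2.2) =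
      ∑ i ∈ E, ∑ e ∈ H.filter (fun e => e.1 = i), p (s, e.2.1) * p (s', e.2.2) := by
    rw [Finset.sum_fiberwise_of_maps_to]
    intro e he
    exact (mem_hitsE.1 he).1.1
  rw [hfib]
  have hone : ∀ i ∈ E, ∑ e ∈ H.filter (fun e => e.1 = i),
        p (s, e.2.1) * p (s', e.2.2) ≤ 4 * (A * A') / Real.sqrt q := by
    intro i _
    set F := H.filter (fun e => e.1 = i) with hF
    set M := i.2 with hM
    have hmem : ∀ e ∈ F, e.1 = i ∧ lo ≤ e.2.1 ∧ lo' ≤ e.2.2 ∧ q * e.2.1 + e.2.2 = M := by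
      intro e he
      rw [hF, Finset.mem_filter] at he
      have h3 := mem_hitsE.1 he.1
      rw [he.2] at h3
      exact ⟨he.2, (Finset.mem_Ico.1 h3.1.2.1).1, (Finset.mem_Ico.1 h3.1.2.2).1, h3.2⟩
    have h4 : ∀ e ∈ F, e.2.2 = M - q * e.2.1 ∧ q * e.2.1 + q ≤ M := by
      intro e he
      obtain ⟨_, _, h6, h7⟩ := hmem e he
      constructor <;> omega
    have h5 : ∑ e ∈ F, p (s, e.2.1) * p (s', e.2.2) = ∑ v ∈ F.image (fun e => e.2.1),
        p (s, v) * p (s', M - q * v) := by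
      rw [Finset.sum_image]
      · exact Finset.sum_congr rfl fun e he => by rw [← (h4 e he).1]
      · intro e he e' he' hee
        have h6 := hmem e he
        have h7 := hmem e' he'
        have h8 := (h4 e he).1
        have h9 := (h4 e' he').1
        simp only at hee
        refine Prod.ext (h6.1.trans h7.1.symm) (Prod.ext hee ?_)
        rw [h8, h9, hee]
    rw [h5]
    refine mean_one A A' hA hA' (fun v => p (s, v)) (fun v => p (s', v)) hp hp' (fun v => hp0 _)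
      q M hq _ ?_
    intro v hv
    obtain ⟨e, he, rfl⟩ := Finset.mem_image.1 hv
    have h6 := hmem e he
    exact ⟨h1.trans h6.2.1, (h4 e he).2⟩
  refine (Finset.sum_le_sum hone).trans (le_of_eq ?_)
  rw [Finset.sum_const, nsmul_eq_mul]

/-- the part of the window `s` above `lo` which lies in `[a, a + ℓ)` -/
def arcV (s : ι) (lo ℓ a : ℕ) : Finset (ι × ℕ) :=
  ((Ico a (a + ℓ)).filter (fun v => lo ≤ v)).image (fun v => (s, v))

theorem mean_arcV (s : ι) (p : ι × ℕ → ℝ) {A : ℝ} (hA : 0 ≤ A)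
    (hp : ∀ v, 1 ≤ v → p (s, v) ≤ A / Real.sqrt v) (lo ℓ a : ℕ) (h1 : 1 ≤ lo) :
    ∑ x ∈ arcV s lo ℓ a, p x ≤ ℓ * (A / Real.sqrt lo) := by
  have h3 : ∀ x ∈ arcV s lo ℓ a, p x ≤ A / Real.sqrt lo := by
    intro x hx
    obtain ⟨v, hv, rfl⟩ := Finset.mem_image.1 hx
    rw [mem_filter] at hv
    refine (hp _ (h1.trans hv.2)).trans ?_
    have h5 : (0 : ℝ) < Real.sqrt lo := Real.sqrt_pos.2 (by exact_mod_cast h1)
    exact div_le_div_of_nonneg_left hA h5 (Real.sqrt_le_sqrt (by exact_mod_cast hv.2))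
  refine (Finset.sum_le_card_nsmul _ _ _ h3).trans ?_
  rw [nsmul_eq_mul]
  have h4 : ((arcV s lo ℓ a).card : ℝ) ≤ ℓ := by
    have h5 : (arcV s lo ℓ a).card ≤ ℓ := by
      refine card_image_le.trans ((card_filter_le _ _).trans ?_)
      rw [Nat.card_Ico]; omega
    exact_mod_cast h5
  exact mul_le_mul_of_nonneg_right h4 (by positivity)

/-- deterministic step: few disjoint hits and few elements in arcs give few hits -/
theorem hitsE_card_le_arc {s s' : ι} {q lo hi lo' hi' : ℕ} (hss : s ≠ s') (hq : 0 < q)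
    (E : Finset (Λ × ℕ)) (X ℓ κ₀ : ℕ) (hE : ∀ e ∈ E, X ≤ e.2 ∧ e.2 < X + ℓ)
    (hκ : ∀ t, (E.filter (fun e => e.2 = t)).card ≤ κ₀)
    (V : Finset (ι × ℕ)) (hV : win V s ⊆ Ico lo hi) (hV' : win V s' ⊆ Ico lo' hi') (t t0 : ℕ)
    (hB1 : ∀ a, a < hi' → (arcV s' lo' ℓ a ∩ V).card ≤ t0)
    (hB1' : ∀ a, a < hi → (arcV s lo (ℓ / q + 1) a ∩ V).card ≤ t0)
    (hB2 : ¬ ∃ M ⊆ hitsE (Ico lo hi) (Ico lo' hi') E q, M.card = t ∧
      (M : Set ((Λ × ℕ) × ℕ × ℕ)).PairwiseDisjoint (suppE s s') ∧ ∀ e ∈ M, suppE s s' e ⊆ V) :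
    (hitsE (win V s) (win V s') E q).card ≤ (2 * (κ₀ * t0) + 1) * t := by
  classical
  set H := hitsE (win V s) (win V s') E q with hH
  have hHE : H ⊆ hitsE (Ico lo hi) (Ico lo' hi') E q := hitsE_mono hV hV' _ _
  refine card_edges_le H (suppE s s') 2 (κ₀ * t0) t ?_ ?_ ?_
  · intro e _
    exact Finset.card_le_two
  · intro e he x hx
    rw [mem_suppE] at hx
    rcases hx with rfl | rfl
    · -- star at `v`
      set F := H.filter fun f => (s, e.2.1) ∈ suppE s s' f with hF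
      have hFm : ∀ f ∈ F, f ∈ H ∧ f.2.1 = e.2.1 := by
        intro f hf
        obtain ⟨h1, h2⟩ := Finset.mem_filter.1 hf
        refine ⟨h1, ?_⟩
        rw [mem_suppE] at h2
        rcases h2 with h2 | h2
        · exact (congrArg Prod.snd h2).symm
        · exact absurd (congrArg Prod.fst h2) hss
      -- the start of the arc
      set a := X - q * e.2.1 with ha
      have hev := (mem_hitsE.1 he)
      have hev' := Finset.mem_Ico.1 (hV' hev.1.2.2)
      have haa : a < hi' := by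
        have h1 := (hE _ hev.1.1).1
        have h2 := hev.2
        omega
      refine le_trans ?_ (Nat.mul_le_mul_left κ₀ (hB1 a haa))
      refine Finset.card_le_mul_card_image_of_maps_to
        (f := fun f : (Λ × ℕ) × ℕ × ℕ => ((s', f.2.2) : ι × ℕ)) ?_ κ₀ ?_
      · intro f hf
        obtain ⟨h1, h2⟩ := hFm f hf
        have h3 := mem_hitsE.1 h1
        have h4 := hE _ h3.1.1
        have h5 := h3.2
        rw [h2] at h5
        have h6 := Finset.mem_Ico.1 (hV' h3.1.2.2)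
        rw [mem_inter, arcV, mem_image]
        refine ⟨⟨f.2.2, ?_, rfl⟩, mem_win.1 h3.1.2.2⟩
        rw [mem_filter, mem_Ico]
        refine ⟨⟨by omega, by omega⟩, h6.1⟩
      · intro y _
        refine le_trans (card_le_card_of_injOn (fun f : (Λ × ℕ) × ℕ × ℕ => f.1) ?_ ?_)
          (hκ (q * e.2.1 + y.2))
        · intro f hf
          rw [mem_coe, mem_filter] at hf
          obtain ⟨h1, h2⟩ := hFm f hf.1
          have h3 := mem_hitsE.1 h1
          have h4 : f.2.2 = y.2 := congrArg Prod.snd hf.2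
          rw [mem_coe, mem_filter]
          refine ⟨h3.1.1, ?_⟩
          have h5 := h3.2
          rw [h2, h4] at h5
          exact h5.symm
        · intro f hf g hg hfg
          rw [mem_coe, mem_filter] at hf hg
          obtain ⟨h1, h2⟩ := hFm f hf.1
          obtain ⟨h3, h4⟩ := hFm g hg.1
          have h5 : f.2.2 = y.2 := congrArg Prod.snd hf.2
          have h6 : g.2.2 = y.2 := congrArg Prod.snd hg.2
          exact Prod.ext hfg (Prod.ext (h2.trans h4.symm) (h5.trans h6.symm))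
    · -- star at `v'`
      set F := H.filter fun f => (s', e.2.2) ∈ suppE s s' f with hF
      have hFm : ∀ f ∈ F, f ∈ H ∧ f.2.2 = e.2.2 := by
        intro f hf
        obtain ⟨h1, h2⟩ := Finset.mem_filter.1 hf
        refine ⟨h1, ?_⟩
        rw [mem_suppE] at h2
        rcases h2 with h2 | h2
        · exact absurd (congrArg Prod.fst h2).symm hss
        · exact (congrArg Prod.snd h2).symm
      -- all `v` lie in an arc of length `ℓ / q + 1` which starts at the smallest one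
      obtain ⟨g, hg, hmin⟩ := Finset.exists_min_image F (fun f => f.2.1)
        ⟨e, Finset.mem_filter.2 ⟨he, mem_suppE.2 (Or.inr rfl)⟩⟩
      obtain ⟨hg1, hg2⟩ := hFm g hg
      have hg3 := mem_hitsE.1 hg1
      have hg4 := hE _ hg3.1.1
      have hg5 := Finset.mem_Ico.1 (hV hg3.1.2.1)
      refine le_trans ?_ (Nat.mul_le_mul_left κ₀ (hB1' g.2.1 hg5.2))
      refine Finset.card_le_mul_card_image_of_maps_to
        (f := fun f : (Λ × ℕ) × ℕ × ℕ => ((s, f.2.1) : ι × ℕ)) ?_ κ₀ ?_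
      · intro f hf
        obtain ⟨h1, h2⟩ := hFm f hf
        have h3 := mem_hitsE.1 h1
        have h4 := hE _ h3.1.1
        have h5 := h3.2
        have h6 := Finset.mem_Ico.1 (hV h3.1.2.1)
        have h7 := hmin f hf
        have h8 := hg3.2
        rw [h2] at h5
        rw [hg2] at h8
        rw [mem_inter, arcV, mem_image]
        refine ⟨⟨f.2.1, ?_, rfl⟩, mem_win.1 h3.1.2.1⟩
        rw [mem_filter, mem_Ico]
        refine ⟨⟨h7, ?_⟩, h6.1⟩
        have h9 : q * f.2.1 < q * g.2.1 + ℓ := by omega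
        obtain ⟨w, hw⟩ := Nat.exists_eq_add_of_le h7
        rw [hw, mul_add] at h9
        have h10 : q * w < ℓ := by omega
        have h11 : w ≤ ℓ / q := by
          rw [Nat.le_div_iff_mul_le hq, mul_comm]
          exact h10.le
        omega
      · intro y _
        refine le_trans (card_le_card_of_injOn (fun f : (Λ × ℕ) × ℕ × ℕ => f.1) ?_ ?_)
          (hκ (q * y.2 + e.2.2))
        · intro f hf
          rw [mem_coe, mem_filter] at hf
          obtain ⟨h1, h2⟩ := hFm f hf.1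
          have h3 := mem_hitsE.1 h1
          have h4 : f.2.1 = y.2 := congrArg Prod.snd hf.2
          rw [mem_coe, mem_filter]
          refine ⟨h3.1.1, ?_⟩
          have h5 := h3.2
          rw [h2, h4] at h5
          exact h5.symm
        · intro f hf g' hg' hfg
          rw [mem_coe, mem_filter] at hf hg'
          obtain ⟨h1, h2⟩ := hFm f hf.1
          obtain ⟨h3, h4⟩ := hFm g' hg'.1
          have h5 : f.2.1 = y.2 := congrArg Prod.snd hf.2
          have h6 : g'.2.1 = y.2 := congrArg Prod.snd hg'.2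
          exact Prod.ext hfg (Prod.ext (h5.trans h6.symm) (h2.trans h4.symm))
  · rintro ⟨M, hM, hMt, hMd⟩
    refine hB2 ⟨M, hM.trans hHE, hMt, hMd, ?_⟩
    intro e he x hx
    have h1 := mem_hitsE.1 (hM he)
    rw [mem_suppE] at hx
    rcases hx with rfl | rfl
    · exact mem_win.1 h1.1.2.1
    · exact mem_win.1 h1.1.2.2

end

variable {Ω ι Λ C : Type*} [Fintype Ω] [DecidableEq ι] [DecidableEq Λ]

/-- **Two random windows, targets in an arc, all contexts**, with a bound for the mean. -/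
theorem arc_prob_gen (P : Ω → ℝ) (hP : ∀ ω, 0 ≤ P ω) (V : Ω → Finset (ι × ℕ)) (p : ι × ℕ → ℝ)
    (hp0 : ∀ q, 0 ≤ p q) (hind : ∀ T : Finset (ι × ℕ), pr P {ω | T ⊆ V ω} ≤ ∏ v ∈ T, p v)
    {s s' : ι} (hss : s ≠ s') {A A' : ℝ} (hA : 0 ≤ A) (hA' : 0 ≤ A')
    (hp : ∀ v, 1 ≤ v → p (s, v) ≤ A / Real.sqrt v)
    (hp' : ∀ v, 1 ≤ v → p (s', v) ≤ A' / Real.sqrt v) {lo hi lo' hi' : ℕ}
    (hV : ∀ ω, win (V ω) s ⊆ Ico lo hi) (hV' : ∀ ω, win (V ω) s' ⊆ Ico lo' hi')
    {q : ℕ} (hq : 0 < q) (h1 : 1 ≤ lo) (h2 : 1 ≤ lo') (J : Finset C)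
    (E : C → Finset (Λ × ℕ)) (X : C → ℕ) (ℓ κ₀ : ℕ)
    (hE : ∀ c ∈ J, ∀ e ∈ E c, X c ≤ e.2 ∧ e.2 < X c + ℓ)
    (hκ : ∀ c ∈ J, ∀ t, ((E c).filter (fun e => e.2 = t)).card ≤ κ₀) (t t0 : ℕ)
    (μ μ1 μ2 : ℝ) (hμ : ∀ c ∈ J, ∑ e ∈ hitsE (Ico lo hi) (Ico lo' hi') (E c) q,
      ∏ x ∈ suppE s s' e, p x ≤ μ)
    (hμ1 : ℓ * (A' / Real.sqrt lo') ≤ μ1)
    (hμ2 : ((ℓ / q + 1 : ℕ) : ℝ) * (A / Real.sqrt lo) ≤ μ2) :
    pr P {ω | ∃ c ∈ J, (2 * (κ₀ * t0) + 1) * t <
        (hitsE (win (V ω) s) (win (V ω) s') (E c) q).card} ≤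
      (J.card : ℝ) * (μ ^ t / (t.factorial : ℝ)) +
        (hi' * (μ1 ^ (t0 + 1) / ((t0 + 1).factorial : ℝ)) +
          hi * (μ2 ^ (t0 + 1) / ((t0 + 1).factorial : ℝ))) := by
  classical
  set S0 : C → Set Ω := fun x => {ω | ∃ M ⊆ hitsE (Ico lo hi) (Ico lo' hi') (E x) q,
      M.card = t ∧ (M : Set ((Λ × ℕ) × ℕ × ℕ)).PairwiseDisjoint (suppE s s') ∧
      ∀ e ∈ M, suppE s s' e ⊆ V ω} with hS0
  set S1 : ℕ → Set Ω := fun a => {ω | t0 + 1 ≤ (arcV s' lo' ℓ a ∩ V ω).card} with hS1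
  set S2 : ℕ → Set Ω := fun a => {ω | t0 + 1 ≤ (arcV s lo (ℓ / q + 1) a ∩ V ω).card} with hS2
  have hb0 : ∀ x ∈ J, pr P (S0 x) ≤ μ ^ t / (t.factorial : ℝ) := fun x hx =>
    disjoint_edges_tail P hP V p hp0 hind _ (suppE s s') μ (hμ x hx) t
  have hb1 : ∀ a ∈ range hi', pr P (S1 a) ≤ μ1 ^ (t0 + 1) / ((t0 + 1).factorial : ℝ) := fun a _ =>
    inter_tail P hP V p hp0 hind _ μ1
      ((mean_arcV s' p hA' hp' lo' ℓ a h2).trans hμ1) (t0 + 1)
  have hb2 : ∀ a ∈ range hi, pr P (S2 a) ≤ μ2 ^ (t0 + 1) / ((t0 + 1).factorial : ℝ) := fun a _ =>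
    inter_tail P hP V p hp0 hind _ μ2
      ((mean_arcV s p hA hp lo (ℓ / q + 1) a h1).trans hμ2) (t0 + 1)
  have hsub : {ω | ∃ c ∈ J, (2 * (κ₀ * t0) + 1) * t <
      (hitsE (win (V ω) s) (win (V ω) s') (E c) q).card} ⊆
      {ω | ∃ x ∈ J, ω ∈ S0 x} ∪
        ({ω | ∃ a ∈ range hi', ω ∈ S1 a} ∪ {ω | ∃ a ∈ range hi, ω ∈ S2 a}) := by
    rintro ω ⟨c, hc, hbig⟩
    by_contra hcon
    rw [Set.mem_union, Set.mem_union, not_or, not_or] at hcon
    obtain ⟨hc0, hc1, hc2⟩ := hcon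
    have h3 := hitsE_card_le_arc hss hq (E c) (X c) ℓ κ₀ (hE c hc) (hκ c hc) (V ω) (hV ω) (hV' ω)
      t t0
      (fun a ha => by
        by_contra h4
        push Not at h4
        exact hc1 ⟨a, Finset.mem_range.2 ha, h4⟩)
      (fun a ha => by
        by_contra h4
        push Not at h4
        exact hc2 ⟨a, Finset.mem_range.2 ha, h4⟩)
      (fun h4 => hc0 ⟨c, hc, h4⟩)
    omega
  refine (pr_mono P hP hsub).trans ((pr_union_le P hP _ _).trans ?_)
  refine add_le_add ?_ ((pr_union_le P hP _ _).trans (add_le_add ?_ ?_))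
  · refine (pr_biUnion_le P hP J S0 _ fun ω hω => hω).trans ?_
    refine (Finset.sum_le_sum hb0).trans (le_of_eq ?_)
    rw [Finset.sum_const, nsmul_eq_mul]
  · refine (pr_biUnion_le P hP (range hi') S1 _ fun ω hω => hω).trans ?_
    refine (Finset.sum_le_sum hb1).trans (le_of_eq ?_)
    rw [Finset.sum_const, nsmul_eq_mul, Finset.card_range]
  · refine (pr_biUnion_le P hP (range hi) S2 _ fun ω hω => hω).trans ?_
    refine (Finset.sum_le_sum hb2).trans (le_of_eq ?_)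
    rw [Finset.sum_const, nsmul_eq_mul, Finset.card_range]

/-- **Two random windows, targets in an arc, all contexts.** -/
theorem arc_prob (P : Ω → ℝ) (hP : ∀ ω, 0 ≤ P ω) (V : Ω → Finset (ι × ℕ)) (p : ι × ℕ → ℝ)
    (hp0 : ∀ q, 0 ≤ p q) (hind : ∀ T : Finset (ι × ℕ), pr P {ω | T ⊆ V ω} ≤ ∏ v ∈ T, p v)
    {s s' : ι} (hss : s ≠ s') {A A' : ℝ} (hA : 0 ≤ A) (hA' : 0 ≤ A')
    (hp : ∀ v, 1 ≤ v → p (s, v) ≤ A / Real.sqrt v)
    (hp' : ∀ v, 1 ≤ v → p (s', v) ≤ A' / Real.sqrt v) {lo hi lo' hi' : ℕ}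
    (hV : ∀ ω, win (V ω) s ⊆ Ico lo hi) (hV' : ∀ ω, win (V ω) s' ⊆ Ico lo' hi')
    {q : ℕ} (hq : 0 < q) (h1 : 1 ≤ lo) (h2 : q ≤ lo') (J : Finset C)
    (E : C → Finset (Λ × ℕ)) (X : C → ℕ) (ℓ κ₀ : ℕ)
    (hE : ∀ c ∈ J, ∀ e ∈ E c, X c ≤ e.2 ∧ e.2 < X c + ℓ)
    (hκ : ∀ c ∈ J, ∀ t, ((E c).filter (fun e => e.2 = t)).card ≤ κ₀) (t t0 : ℕ)
    (μ μ1 μ2 : ℝ) (hμ : ∀ c ∈ J, (E c).card * (4 * (A * A') / Real.sqrt q) ≤ μ)
    (hμ1 : ℓ * (A' / Real.sqrt lo') ≤ μ1)
    (hμ2 : ((ℓ / q + 1 : ℕ) : ℝ) * (A / Real.sqrt lo) ≤ μ2) :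
    pr P {ω | ∃ c ∈ J, (2 * (κ₀ * t0) + 1) * t <
        (hitsE (win (V ω) s) (win (V ω) s') (E c) q).card} ≤
      (J.card : ℝ) * (μ ^ t / (t.factorial : ℝ)) +
        (hi' * (μ1 ^ (t0 + 1) / ((t0 + 1).factorial : ℝ)) +
          hi * (μ2 ^ (t0 + 1) / ((t0 + 1).factorial : ℝ))) :=
  arc_prob_gen P hP V p hp0 hind hss hA hA' hp hp' hV hV' hq h1 (hq.trans_le h2) J E X ℓ κ₀ hE hκ
    t t0 μ μ1 μ2 (fun c hc => (mean_hitsE hss p hp0 hA hA' hp hp' (E c) q hq h1 h2).trans (hμ c hc))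
    hμ1 hμ2

/-- the mean, all elements of both windows being large -/
theorem mean_hitsE_flat {s s' : ι} (hss : s ≠ s') (p : ι × ℕ → ℝ) (hp0 : ∀ q, 0 ≤ p q)
    {A A' : ℝ} (hA : 0 ≤ A) (hA' : 0 ≤ A') (hp : ∀ v, 1 ≤ v → p (s, v) ≤ A / Real.sqrt v)
    (hp' : ∀ v, 1 ≤ v → p (s', v) ≤ A' / Real.sqrt v) {lo hi lo' hi' : ℕ}
    (E : Finset (Λ × ℕ)) (q : ℕ) (hq : 0 < q) (h1 : 1 ≤ lo) (h2 : 1 ≤ lo') :
    ∑ e ∈ hitsE (Ico lo hi) (Ico lo' hi') E q, ∏ x ∈ suppE s s' e, p x ≤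
      E.card * (((hi' / q + 1 : ℕ) : ℝ) * ((A / Real.sqrt lo) * (A' / Real.sqrt lo'))) := by
  classical
  have hlo : (0 : ℝ) < Real.sqrt lo := Real.sqrt_pos.2 (by exact_mod_cast h1)
  have hlo' : (0 : ℝ) < Real.sqrt lo' := Real.sqrt_pos.2 (by exact_mod_cast h2)
  set H := hitsE (Ico lo hi) (Ico lo' hi') E q with hH
  have hterm : ∀ e ∈ H, ∏ x ∈ suppE s s' e, p x ≤ (A / Real.sqrt lo) * (A' / Real.sqrt lo') := by
    intro e he
    have h3 := mem_hitsE.1 he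
    have h4 := Finset.mem_Ico.1 h3.1.2.1
    have h5 := Finset.mem_Ico.1 h3.1.2.2
    unfold suppE
    rw [Finset.prod_pair]
    · refine mul_le_mul ?_ ?_ (hp0 _) (div_nonneg hA hlo.le)
      · refine (hp _ (h1.trans h4.1)).trans ?_
        exact div_le_div_of_nonneg_left hA hlo (Real.sqrt_le_sqrt (by exact_mod_cast h4.1))
      · refine (hp' _ (h2.trans h5.1)).trans ?_
        exact div_le_div_of_nonneg_left hA' hlo' (Real.sqrt_le_sqrt (by exact_mod_cast h5.1))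
    · intro h
      exact hss (congrArg Prod.fst h)
  refine (Finset.sum_le_card_nsmul _ _ _ hterm).trans ?_
  rw [nsmul_eq_mul, ← mul_assoc (E.card : ℝ)]
  have hz : 0 ≤ A / Real.sqrt lo * (A' / Real.sqrt lo') :=
    mul_nonneg (div_nonneg hA hlo.le) (div_nonneg hA' hlo'.le)
  refine mul_le_mul_of_nonneg_right ?_ hz
  have hcard : H.card ≤ (hi' / q + 1) * E.card := by
    refine Finset.card_le_mul_card_image_of_maps_to (f := fun e : (Λ × ℕ) × ℕ × ℕ => e.1) ?_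
      (hi' / q + 1) ?_
    · intro e he
      exact (mem_hitsE.1 he).1.1
    · intro i _
      set F := H.filter (fun e => e.1 = i) with hF
      rcases F.eq_empty_or_nonempty with h0 | hne
      · rw [h0]; simp
      · obtain ⟨g, hg, hmin⟩ := Finset.exists_min_image F (fun f => f.2.1) hne
        have hFm : ∀ f ∈ F, f.1 = i ∧ f.2.2 < hi' ∧ q * f.2.1 + f.2.2 = i.2 := by
          intro f hf
          rw [hF, mem_filter] at hf
          have h3 := mem_hitsE.1 hf.1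
          rw [hf.2] at h3
          exact ⟨hf.2, (Finset.mem_Ico.1 h3.1.2.2).2, h3.2⟩
        refine le_trans (card_le_card_of_injOn (t := Ico g.2.1 (g.2.1 + (hi' / q + 1)))
          (fun f => f.2.1) ?_ ?_) (by rw [Nat.card_Ico, Nat.add_sub_cancel_left])
        · intro f hf
          rw [mem_coe] at hf
          obtain ⟨a1, a2, a3⟩ := hFm f hf
          obtain ⟨b1, b2, b3⟩ := hFm g hg
          have h7 := hmin f hf
          rw [mem_coe, mem_Ico]
          refine ⟨h7, ?_⟩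
          obtain ⟨w, hw⟩ := Nat.exists_eq_add_of_le h7
          have h9 : q * f.2.1 = q * g.2.1 + q * w := by rw [hw]; ring
          have h10 : q * w ≤ hi' := by omega
          have h11 : w ≤ hi' / q := by
            rw [Nat.le_div_iff_mul_le hq, mul_comm]
            exact h10
          have h12 : f.2.1 = g.2.1 + w := hw
          show f.2.1 < g.2.1 + (hi' / q + 1)
          omega
        · intro f hf f' hf' hff
          rw [mem_coe] at hf hf'
          obtain ⟨a1, a2, a3⟩ := hFm f hf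
          obtain ⟨b1, b2, b3⟩ := hFm f' hf'
          have h7 : f.2.1 = f'.2.1 := hff
          rw [h7] at a3
          have h8 : f.2.2 = f'.2.2 := by omega
          exact Prod.ext (a1.trans b1.symm) (Prod.ext h7 h8)
  calc (H.card : ℝ) ≤ (((hi' / q + 1) * E.card : ℕ) : ℝ) := by exact_mod_cast hcard
    _ = E.card * ((hi' / q + 1 : ℕ) : ℝ) := by rw [Nat.cast_mul, mul_comm]

end Pool.Agent.Helper57.T5
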