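import Pool.Agent.Helper57.T5.Inner

/-!
# Two random windows and an arbitrary set of hits

`H` is a finite set of hits; the hit `h` has the vertices `(s, a h)` and `(s', b h)`, `s ≠ s'`.
-/

set_option autoImplicit false

namespace Pool.Agent.Helper57.T5

open Finset Pool.Agent.Helper1.ET4 Pool.Agent.Helper22.HW Pool.Agent.Helper57.T4

variable {Ω ι ε : Type*} [Fintype Ω] [DecidableEq ι] [DecidableEq ε]

/-- the vertices of a hit -/
def sup2 (s s' : ι) (a b : ε → ℕ) (h : ε) : Finset (ι × ℕ) := {(s, a h), (s', b h)}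

theorem mem_sup2 {s s' : ι} {a b : ε → ℕ} {h : ε} {q : ι × ℕ} :
    q ∈ sup2 s s' a b h ↔ q = (s, a h) ∨ q = (s', b h) := by
  unfold sup2
  rw [Finset.mem_insert, Finset.mem_singleton]

theorem prod_sup2 {s s' : ι} (hss : s ≠ s') (p : ι × ℕ → ℝ) (a b : ε → ℕ) (h : ε) :
    ∏ x ∈ sup2 s s' a b h, p x = p (s, a h) * p (s', b h) := by
  unfold sup2
  rw [Finset.prod_pair]
  intro h1
  exact hss (congrArg Prod.fst h1)

/-- deterministic step -/
theorem bip_card_le {s s' : ι} (hss : s ≠ s') (H : Finset ε) (a b : ε → ℕ) (V : Finset (ι × ℕ))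
    (m t t1 t2 : ℕ)
    (hm : ∀ h ∈ H, (H.filter fun g => a g = a h ∧ b g = b h).card ≤ m)
    (h1 : ∀ h ∈ H, ((((H.filter fun g => a g = a h).image fun g => (s', b g)) ∩ V).card ≤ t1))
    (h2 : ∀ h ∈ H, ((((H.filter fun g => b g = b h).image fun g => (s, a g)) ∩ V).card ≤ t2))
    (hB : ¬ ∃ M ⊆ H, M.card = t ∧ (M : Set ε).PairwiseDisjoint (sup2 s s' a b) ∧
      ∀ h ∈ M, sup2 s s' a b h ⊆ V) :
    (H.filter fun h => sup2 s s' a b h ⊆ V).card ≤ (2 * (m * max t1 t2) + 1) * t := by
  classical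
  set F := H.filter fun h => sup2 s s' a b h ⊆ V with hF
  refine card_edges_le F (sup2 s s' a b) 2 (m * max t1 t2) t ?_ ?_ ?_
  · intro e _
    exact Finset.card_le_two
  · intro e he x hx
    rw [mem_sup2] at hx
    have heH := (Finset.mem_filter.1 he).1
    rcases hx with rfl | rfl
    · -- the first vertex
      set G := F.filter fun f => (s, a e) ∈ sup2 s s' a b f with hG
      have hGm : ∀ f ∈ G, f ∈ F ∧ a f = a e := by
        intro f hf
        obtain ⟨h3, h4⟩ := Finset.mem_filter.1 hf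
        refine ⟨h3, ?_⟩
        rw [mem_sup2] at h4
        rcases h4 with h4 | h4
        · exact (Prod.ext_iff.1 h4).2.symm
        · exact absurd (Prod.ext_iff.1 h4).1 hss
      have h5 : G.card ≤ m * (G.image fun f => b f).card := by
        refine Finset.card_le_mul_card_image G m ?_
        intro y hy
        obtain ⟨f, hf, rfl⟩ := Finset.mem_image.1 hy
        refine le_trans (Finset.card_le_card ?_) (hm f (Finset.mem_filter.1 (hGm f hf).1).1)
        intro g hg
        obtain ⟨h6, h7⟩ := Finset.mem_filter.1 hg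
        exact Finset.mem_filter.2 ⟨(Finset.mem_filter.1 (hGm g h6).1).1,
          (hGm g h6).2.trans (hGm f hf).2.symm, h7⟩
      have h6 : (G.image fun f => b f).card ≤ t1 := by
        refine le_trans ?_ (h1 e heH)
        refine Finset.card_le_card_of_injOn (fun y => (s', y)) ?_ ?_
        · intro y hy
          obtain ⟨f, hf, rfl⟩ := Finset.mem_image.1 (Finset.mem_coe.1 hy)
          have h7 := Finset.mem_filter.1 (hGm f hf).1
          rw [Finset.mem_coe, Finset.mem_inter]
          refine ⟨Finset.mem_image.2 ⟨f, Finset.mem_filter.2 ⟨h7.1, (hGm f hf).2⟩, rfl⟩, ?_⟩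
          exact h7.2 (mem_sup2.2 (Or.inr rfl))
        · intro y _ z _ hyz
          exact (Prod.ext_iff.1 hyz).2
      exact h5.trans (Nat.mul_le_mul_left _ (h6.trans (le_max_left _ _)))
    · -- the second vertex
      set G := F.filter fun f => (s', b e) ∈ sup2 s s' a b f with hG
      have hGm : ∀ f ∈ G, f ∈ F ∧ b f = b e := by
        intro f hf
        obtain ⟨h3, h4⟩ := Finset.mem_filter.1 hf
        refine ⟨h3, ?_⟩
        rw [mem_sup2] at h4
        rcases h4 with h4 | h4
        · exact absurd (Prod.ext_iff.1 h4).1.symm hss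
        · exact (Prod.ext_iff.1 h4).2.symm
      have h5 : G.card ≤ m * (G.image fun f => a f).card := by
        refine Finset.card_le_mul_card_image G m ?_
        intro y hy
        obtain ⟨f, hf, rfl⟩ := Finset.mem_image.1 hy
        refine le_trans (Finset.card_le_card ?_) (hm f (Finset.mem_filter.1 (hGm f hf).1).1)
        intro g hg
        obtain ⟨h6, h7⟩ := Finset.mem_filter.1 hg
        exact Finset.mem_filter.2 ⟨(Finset.mem_filter.1 (hGm g h6).1).1, h7,
          (hGm g h6).2.trans (hGm f hf).2.symm⟩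
      have h6 : (G.image fun f => a f).card ≤ t2 := by
        refine le_trans ?_ (h2 e heH)
        refine Finset.card_le_card_of_injOn (fun y => (s, y)) ?_ ?_
        · intro y hy
          obtain ⟨f, hf, rfl⟩ := Finset.mem_image.1 (Finset.mem_coe.1 hy)
          have h7 := Finset.mem_filter.1 (hGm f hf).1
          rw [Finset.mem_coe, Finset.mem_inter]
          refine ⟨Finset.mem_image.2 ⟨f, Finset.mem_filter.2 ⟨h7.1, (hGm f hf).2⟩, rfl⟩, ?_⟩
          exact h7.2 (mem_sup2.2 (Or.inl rfl))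
        · intro y _ z _ hyz
          exact (Prod.ext_iff.1 hyz).2
      exact h5.trans (Nat.mul_le_mul_left _ (h6.trans (le_max_right _ _)))
  · rintro ⟨M, hM, hMt, hMd⟩
    exact hB ⟨M, hM.trans (Finset.filter_subset _ _), hMt, hMd,
      fun e he => (Finset.mem_filter.1 (hM he)).2⟩

/-- for one set of hits -/
theorem bip_prob (P : Ω → ℝ) (hP : ∀ ω, 0 ≤ P ω) (V : Ω → Finset (ι × ℕ)) (p : ι × ℕ → ℝ)
    (hp0 : ∀ q, 0 ≤ p q) (hind : ∀ T : Finset (ι × ℕ), pr P {ω | T ⊆ V ω} ≤ ∏ v ∈ T, p v)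
    {s s' : ι} (hss : s ≠ s') (H : Finset ε) (a b : ε → ℕ) (m t t1 t2 : ℕ) (μ μ1 μ2 : ℝ)
    (hm : ∀ h ∈ H, (H.filter fun g => a g = a h ∧ b g = b h).card ≤ m)
    (hμ : ∑ h ∈ H, p (s, a h) * p (s', b h) ≤ μ)
    (hμ1 : ∀ h ∈ H, ∑ y ∈ (H.filter fun g => a g = a h).image b, p (s', y) ≤ μ1)
    (hμ2 : ∀ h ∈ H, ∑ y ∈ (H.filter fun g => b g = b h).image a, p (s, y) ≤ μ2) :
    pr P {ω | (2 * (m * max t1 t2) + 1) * t <
      (H.filter fun h => (s, a h) ∈ V ω ∧ (s', b h) ∈ V ω).card} ≤
      μ ^ t / (t.factorial : ℝ) +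
        ((H.image a).card * (μ1 ^ (t1 + 1) / ((t1 + 1).factorial : ℝ)) +
          (H.image b).card * (μ2 ^ (t2 + 1) / ((t2 + 1).factorial : ℝ))) := by
  classical
  set S0 : Set Ω := {ω | ∃ M ⊆ H, M.card = t ∧ (M : Set ε).PairwiseDisjoint (sup2 s s' a b) ∧
      ∀ h ∈ M, sup2 s s' a b h ⊆ V ω} with hS0
  set S1 : ℕ → Set Ω := fun x => {ω | t1 + 1 ≤ (((H.filter fun g => a g = x).image
      fun g => (s', b g)) ∩ V ω).card} with hS1
  set S2 : ℕ → Set Ω := fun x => {ω | t2 + 1 ≤ (((H.filter fun g => b g = x).image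
      fun g => (s, a g)) ∩ V ω).card} with hS2
  have hsub : {ω | (2 * (m * max t1 t2) + 1) * t <
      (H.filter fun h => (s, a h) ∈ V ω ∧ (s', b h) ∈ V ω).card} ⊆
      S0 ∪ ({ω | ∃ x ∈ H.image a, ω ∈ S1 x} ∪ {ω | ∃ x ∈ H.image b, ω ∈ S2 x}) := by
    intro ω hω
    by_contra hcon
    rw [Set.mem_union, not_or, Set.mem_union, not_or] at hcon
    obtain ⟨hc0, hc1, hc2⟩ := hcon
    have h3 := bip_card_le hss H a b (V ω) m t t1 t2 hm
      (fun h hh => by
        by_contra h4
        push Not at h4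
        exact hc1 ⟨a h, Finset.mem_image_of_mem _ hh, h4⟩)
      (fun h hh => by
        by_contra h4
        push Not at h4
        exact hc2 ⟨b h, Finset.mem_image_of_mem _ hh, h4⟩) hc0
    have h4 : (H.filter fun h => (s, a h) ∈ V ω ∧ (s', b h) ∈ V ω) =
        H.filter fun h => sup2 s s' a b h ⊆ V ω := by
      refine Finset.filter_congr fun h _ => ?_
      unfold sup2
      rw [Finset.insert_subset_iff, Finset.singleton_subset_iff]
    have h5 : (2 * (m * max t1 t2) + 1) * t <
      (H.filter fun h => (s, a h) ∈ V ω ∧ (s', b h) ∈ V ω).card := hω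
    rw [h4] at h5
    omega
  refine (pr_mono P hP hsub).trans ((pr_union_le P hP _ _).trans (add_le_add ?_
    ((pr_union_le P hP _ _).trans (add_le_add ?_ ?_))))
  · refine disjoint_edges_tail P hP V p hp0 hind H (sup2 s s' a b) μ ?_ t
    rw [Finset.sum_congr rfl fun h _ => prod_sup2 hss p a b h]
    exact hμ
  · refine (pr_biUnion_le P hP (H.image a) S1 _ fun ω hω => hω).trans ?_
    have hb : ∀ x ∈ H.image a, pr P (S1 x) ≤ μ1 ^ (t1 + 1) / ((t1 + 1).factorial : ℝ) := by
      intro x hx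
      obtain ⟨h, hh, rfl⟩ := Finset.mem_image.1 hx
      refine inter_tail P hP V p hp0 hind _ μ1 ?_ (t1 + 1)
      refine le_trans (le_of_eq ?_) (hμ1 h hh)
      have h6 : ((H.filter fun g => a g = a h).image fun g => (s', b g)) =
          ((H.filter fun g => a g = a h).image b).image fun y => (s', y) := by
        rw [Finset.image_image]
        rfl
      rw [h6, Finset.sum_image]
      intro y _ z _ hyz
      exact (Prod.ext_iff.1 hyz).2
    refine (Finset.sum_le_sum hb).trans (le_of_eq ?_)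
    rw [Finset.sum_const, nsmul_eq_mul]
  · refine (pr_biUnion_le P hP (H.image b) S2 _ fun ω hω => hω).trans ?_
    have hb : ∀ x ∈ H.image b, pr P (S2 x) ≤ μ2 ^ (t2 + 1) / ((t2 + 1).factorial : ℝ) := by
      intro x hx
      obtain ⟨h, hh, rfl⟩ := Finset.mem_image.1 hx
      refine inter_tail P hP V p hp0 hind _ μ2 ?_ (t2 + 1)
      refine le_trans (le_of_eq ?_) (hμ2 h hh)
      have h6 : ((H.filter fun g => b g = b h).image fun g => (s, a g)) =
          ((H.filter fun g => b g = b h).image a).image fun y => (s, y) := by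
        rw [Finset.image_image]
        rfl
      rw [h6, Finset.sum_image]
      intro y _ z _ hyz
      exact (Prod.ext_iff.1 hyz).2
    refine (Finset.sum_le_sum hb).trans (le_of_eq ?_)
    rw [Finset.sum_const, nsmul_eq_mul]

end Pool.Agent.Helper57.T5
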