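import Pool.Agent.Helper57.T5.Inner

/-!
# The bottom of the tower: one random window against a fixed set

`U'` is a fixed finite set, `V ω` is random; for every context `c ∈ J` there is a finite set `E c` of
pairs (label, target).  Hits are the triples `((i, τ), v, u')` with `q * v + u' = τ`.
-/

set_option autoImplicit false

namespace Pool.Agent.Helper57.T5

open Finset Pool.Agent.Helper1.ET4

section

variable {Λ : Type*} [DecidableEq Λ]

/-- the hits `((i, τ), v, u')` -/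
def hitsE (V U' : Finset ℕ) (E : Finset (Λ × ℕ)) (q : ℕ) : Finset ((Λ × ℕ) × ℕ × ℕ) :=
  (E ×ˢ V ×ˢ U').filter (fun x => q * x.2.1 + x.2.2 = x.1.2)

omit [DecidableEq Λ] in
theorem mem_hitsE {V U' : Finset ℕ} {E : Finset (Λ × ℕ)} {q : ℕ} {x : (Λ × ℕ) × ℕ × ℕ} :
    x ∈ hitsE V U' E q ↔ (x.1 ∈ E ∧ x.2.1 ∈ V ∧ x.2.2 ∈ U') ∧ q * x.2.1 + x.2.2 = x.1.2 := by
  unfold hitsE
  rw [Finset.mem_filter, Finset.mem_product, Finset.mem_product]

/-- the possible first window elements -/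
def posV (U' : Finset ℕ) (E : Finset (Λ × ℕ)) (q lo hi : ℕ) : Finset ℕ :=
  (Ico lo hi).filter (fun v => ∃ e ∈ E, ∃ u ∈ U', q * v + u = e.2)

/-- the star of `v`: the pairs `((i, τ), u')` with `q * v + u' = τ` -/
def star (U' : Finset ℕ) (E : Finset (Λ × ℕ)) (q v : ℕ) : Finset ((Λ × ℕ) × ℕ) :=
  (E ×ˢ U').filter (fun x => q * v + x.2 = x.1.2)

/-- few possible `v` in the window and small stars give few hits -/
theorem hitsE_card_le {V U' : Finset ℕ} {E : Finset (Λ × ℕ)} {q lo hi t0 t : ℕ}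
    (hV : V ⊆ Ico lo hi) (hstar : ∀ v ∈ Ico lo hi, (star U' E q v).card ≤ t0)
    (ht : (posV U' E q lo hi ∩ V).card < t) : (hitsE V U' E q).card ≤ t0 * t := by
  classical
  refine le_trans ?_ (Nat.mul_le_mul_left t0 ht.le)
  refine Finset.card_le_mul_card_image_of_maps_to
    (f := fun x : (Λ × ℕ) × ℕ × ℕ => x.2.1) ?_ t0 ?_
  · intro x hx
    obtain ⟨⟨h1, h2, h3⟩, h4⟩ := mem_hitsE.1 hx
    rw [mem_inter, posV, mem_filter]
    exact ⟨⟨hV h2, x.1, h1, x.2.2, h3, h4⟩, h2⟩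
  · intro v hv
    rw [mem_inter, posV, mem_filter] at hv
    refine le_trans (card_le_card_of_injOn (fun x : (Λ × ℕ) × ℕ × ℕ => (x.1, x.2.2)) ?_ ?_)
      (hstar v hv.1.1)
    · intro x hx
      rw [mem_coe, mem_filter] at hx
      obtain ⟨⟨⟨h1, h2, h3⟩, h4⟩, h5⟩ := And.imp_left mem_hitsE.1 hx
      rw [mem_coe, star, mem_filter, mem_product]
      refine ⟨⟨h1, h3⟩, ?_⟩
      rw [← h5]
      exact h4
    · intro x hx y hy hxy
      rw [mem_coe, mem_filter] at hx hy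
      have h1 := hx.2
      have h2 := hy.2
      have h3 := Prod.ext_iff.1 hxy
      exact Prod.ext h3.1 (Prod.ext (h1.trans h2.symm) h3.2)

/-- the sum over the possible `v` is at most the sum over the pairs (entry, `u'`) -/
theorem sum_posV_le (U' : Finset ℕ) (E : Finset (Λ × ℕ)) (q lo hi : ℕ) (p : ℕ → ℝ)
    (hp : ∀ v, 0 ≤ p v) (hq : 0 < q) :
    ∑ v ∈ posV U' E q lo hi, p v ≤ ∑ e ∈ E, ∑ u ∈ U'.filter
      (fun u => u ≤ e.2 ∧ q ∣ e.2 - u ∧ (e.2 - u) / q ∈ Ico lo hi), p ((e.2 - u) / q) := by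
  classical
  rw [← Finset.sum_sigma (s := E) (t := fun e => U'.filter
      (fun u => u ≤ e.2 ∧ q ∣ e.2 - u ∧ (e.2 - u) / q ∈ Ico lo hi))
      (f := fun x : (_ : Λ × ℕ) × ℕ => p ((x.1.2 - x.2) / q))]
  set S := E.sigma (fun e => U'.filter
      (fun u => u ≤ e.2 ∧ q ∣ e.2 - u ∧ (e.2 - u) / q ∈ Ico lo hi)) with hS
  have h1 : posV U' E q lo hi ⊆ S.image (fun x : (_ : Λ × ℕ) × ℕ => (x.1.2 - x.2) / q) := by
    intro v hv
    rw [posV, mem_filter] at hv
    obtain ⟨hv1, e, he, u, hu, h⟩ := hv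
    rw [mem_image]
    have h2 : e.2 - u = q * v := by omega
    refine ⟨⟨e, u⟩, ?_, ?_⟩
    · rw [hS, mem_sigma, mem_filter]
      have h3 : u ≤ e.2 := by omega
      refine ⟨he, hu, h3, ?_, ?_⟩
      · simp only
        rw [h2]; exact dvd_mul_right _ _
      · simp only
        rw [h2, Nat.mul_div_cancel_left _ hq]
        exact hv1
    · simp only
      rw [h2, Nat.mul_div_cancel_left _ hq]
  refine (Finset.sum_le_sum_of_subset_of_nonneg h1 (fun v _ _ => hp v)).trans ?_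
  exact Finset.sum_image_le_of_nonneg (fun v _ => hp _)

end

variable {Ω ι Λ C : Type*} [Fintype Ω] [DecidableEq ι] [DecidableEq Λ]

/-- **Bottom lemma.**  `U' c`, `E c` are fixed, only the window of the state `s` is random. -/
theorem bot_prob (P : Ω → ℝ) (hP : ∀ ω, 0 ≤ P ω) (V : Ω → Finset (ι × ℕ)) (p : ι × ℕ → ℝ)
    (hp0 : ∀ q, 0 ≤ p q) (hind : ∀ T : Finset (ι × ℕ), pr P {ω | T ⊆ V ω} ≤ ∏ v ∈ T, p v)
    {s : ι} {lo hi : ℕ} (hV : ∀ ω, win (V ω) s ⊆ Ico lo hi) {q : ℕ} (J : Finset C)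
    (U' : C → Finset ℕ) (E : C → Finset (Λ × ℕ)) (t t0 : ℕ) (μ : ℝ)
    (hstar : ∀ c ∈ J, ∀ v ∈ Ico lo hi, (star (U' c) (E c) q v).card ≤ t0)
    (hμ : ∀ c ∈ J, ∑ v ∈ posV (U' c) (E c) q lo hi, p (s, v) ≤ μ) :
    pr P {ω | ∃ c ∈ J, t0 * t < (hitsE (win (V ω) s) (U' c) (E c) q).card} ≤
      (J.card : ℝ) * (μ ^ t / (t.factorial : ℝ)) := by
  classical
  set S : C → Set Ω := fun c =>
    {ω | t ≤ ((posV (U' c) (E c) q lo hi).image (fun v => (s, v)) ∩ V ω).card} with hS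
  have hb : ∀ c ∈ J, pr P (S c) ≤ μ ^ t / (t.factorial : ℝ) := by
    intro c hc
    refine inter_tail P hP V p hp0 hind _ μ ?_ t
    rw [Finset.sum_image]
    · exact hμ c hc
    · intro v _ w _ h
      exact (Prod.ext_iff.1 h).2
  refine (pr_biUnion_le P hP J S _ ?_).trans ?_
  · rintro ω ⟨c, hc, hbig⟩
    refine ⟨c, hc, ?_⟩
    by_contra hcon
    simp only [hS, Set.mem_ofPred_eq, not_le] at hcon
    have h1 : (posV (U' c) (E c) q lo hi ∩ win (V ω) s).card < t := by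
      refine lt_of_le_of_lt (card_le_card_of_injOn (fun v => (s, v)) ?_ ?_) hcon
      · intro v hv
        rw [mem_coe, mem_inter] at hv
        rw [mem_coe, mem_inter, mem_image]
        exact ⟨⟨v, hv.1, rfl⟩, mem_win.1 hv.2⟩
      · intro v _ w _ h
        exact (Prod.ext_iff.1 h).2
    have h2 := hitsE_card_le (hV ω) (hstar c hc) h1
    omega
  · refine (Finset.sum_le_sum hb).trans (le_of_eq ?_)
    rw [Finset.sum_const, nsmul_eq_mul]

end Pool.Agent.Helper57.T5
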