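import Pool.Agent.Helper57.T5.BotKey

/-!
# Block BOT with arbitrary class maps (T5b, FixedG)

`bot_cN`: two random windows, labels `i < I` with arbitrary classes `cl i` modulo `D`, at most
`κ₀` labels in each class, quotient `q` of the two units; all contexts of a finite set.
-/

set_option autoImplicit false

namespace Pool.Agent.Helper57.T5

open Finset Pool.Agent.Helper1.ET4 Pool.Agent.Helper42.T5.Pr Pool.Agent.Helper50.T5
  Pool.Agent.Helper57.T4 Pool.Agent.Helper22.HW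

variable {κ : Type*} [DecidableEq κ] {M : κ → ℕ} {K : Finset κ} {lo hi : Bool → ℕ}
  {bk : Bool → ℕ → ℕ → κ}

/-- the labels with their targets -/
def labT (I D κ₂ N : ℕ) (cl : ℕ → ℕ) : Finset (ℕ × ℕ) :=
  ((range I).filter (fun i => cl i % D + κ₂ * D ≤ N)).image
    (fun i => (i, N - (cl i % D + κ₂ * D)))

theorem card_labT_le (I D κ₂ N : ℕ) (cl : ℕ → ℕ) : (labT I D κ₂ N cl).card ≤ I := by
  unfold labT
  refine card_image_le.trans ((card_filter_le _ _).trans ?_)
  rw [card_range]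

/-- the counting form is bounded by the number of hits -/
theorem cN_le_hits {V V' : Finset ℕ} {q m I D κ₂ N : ℕ} {cl : ℕ → ℕ} (hm : 0 < m) (hq : 0 < q) :
    cN (V.image (fun v => m * (q * v))) (V'.image (fun v => m * v)) I m D cl κ₂ (m * N) ≤
      (hitsE V V' (labT I D κ₂ N cl) q).card := by
  classical
  unfold cN
  refine card_le_card_of_injOn (fun t => ((t.1, N - (cl t.1 % D + κ₂ * D)),
    (t.2.1 / (m * q), t.2.2 / m))) ?_ ?_
  · intro t ht
    rw [mem_coe, mem_filter, mem_product, mem_product, mem_image, mem_image] at ht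
    obtain ⟨⟨h0, ⟨v, hv, hv1⟩, ⟨v', hv', hv1'⟩⟩, hs⟩ := ht
    have q1 : t.2.1 / (m * q) = v := by
      rw [← hv1, ← mul_assoc, Nat.mul_div_cancel_left _ (Nat.mul_pos hm hq)]
    have q2 : t.2.2 / m = v' := by rw [← hv1', Nat.mul_div_cancel_left _ hm]
    rw [← hv1, ← hv1', ← Nat.mul_add, ← Nat.mul_add] at hs
    have hs' := Nat.eq_of_mul_eq_mul_left hm hs
    rw [mem_coe, mem_hitsE]
    simp only [q1, q2]
    have hle : cl t.1 % D + κ₂ * D ≤ N := by rw [← hs']; exact Nat.le_add_left _ _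
    refine ⟨⟨?_, hv, hv'⟩, ?_⟩
    · unfold labT
      rw [mem_image]
      exact ⟨t.1, mem_filter.2 ⟨h0, hle⟩, rfl⟩
    · rw [← hs']
      exact (Nat.add_sub_cancel _ _).symm
  · intro t ht t' ht' h
    rw [mem_coe, mem_filter, mem_product, mem_product, mem_image, mem_image] at ht ht'
    obtain ⟨⟨h0, ⟨v, hv, hv1⟩, ⟨v', hv', hv1'⟩⟩, -⟩ := ht
    obtain ⟨⟨g0, ⟨u, hu, hu1⟩, ⟨u', hu', hu1'⟩⟩, -⟩ := ht'
    simp only [Prod.mk.injEq] at h
    obtain ⟨⟨h1, -⟩, h2, h3⟩ := h
    rw [← hv1, ← hu1, ← mul_assoc, ← mul_assoc, Nat.mul_div_cancel_left _ (Nat.mul_pos hm hq),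
      Nat.mul_div_cancel_left _ (Nat.mul_pos hm hq)] at h2
    rw [← hv1', ← hu1', Nat.mul_div_cancel_left _ hm, Nat.mul_div_cancel_left _ hm] at h3
    refine Prod.ext h1 (Prod.ext ?_ ?_)
    · rw [← hv1, ← hu1, h2]
    · rw [← hv1', ← hu1', h3]

/-- **BOT for arbitrary class maps.** -/
theorem bot_cN (hM : ∀ k, 0 < M k) (h : WinD M K lo hi bk) (h1 : 1 ≤ lo false)
    {q D I m : ℕ} (hm : 0 < m) (hq : 0 < q) (hD : 0 < D) (h2 : q ≤ lo true)
    {C : Type*} (J : Finset C) (cl : C → ℕ → ℕ) (κ₂ N : C → ℕ) {κ₀ : ℕ}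
    (hκ : ∀ c ∈ J, ∀ x, ((range I).filter (fun i => cl c i % D = x)).card ≤ κ₀) (t t0 : ℕ)
    (μ μ1 μ2 : ℝ) (hμ : (I : ℝ) * (16 / Real.sqrt q) ≤ μ)
    (hμ1 : (D : ℝ) * (2 / Real.sqrt (lo true)) ≤ μ1)
    (hμ2 : ((D / q + 1 : ℕ) : ℝ) * (2 / Real.sqrt (lo false)) ≤ μ2) :
    PrLe M K (fun w => ∃ c ∈ J, (2 * (κ₀ * t0) + 1) * t <
        cN ((Wd lo hi bk w false).image (fun v => m * (q * v)))
          ((Wd lo hi bk w true).image (fun v => m * v)) I m D (cl c) (κ₂ c) (m * N c))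
      ((J.card : ℝ) * (μ ^ t / (t.factorial : ℝ)) +
        (hi true * (μ1 ^ (t0 + 1) / ((t0 + 1).factorial : ℝ)) +
          hi false * (μ2 ^ (t0 + 1) / ((t0 + 1).factorial : ℝ)))) := by
  classical
  refine PrLe_of_pr hM ?_
  have h3 := arc_prob (Λ := ℕ) (un M K) (un_nonneg M K) (fun ω => VVs lo hi bk (ext K ω.1))
    (fun q => wl q.2) (fun q => (wl_pos _).le) (hind_VVs hM h) (s := false) (s' := true)
    (by decide) (A := 2) (A' := 2) (by norm_num) (by norm_num) (fun v hv => wl_le v hv)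
    (fun v hv => wl_le v hv) (lo := lo false) (hi := hi false) (lo' := lo true) (hi' := hi true)
    (fun ω => by rw [win_VVs]; exact Wd_sub _ _ _ _ _)
    (fun ω => by rw [win_VVs]; exact Wd_sub _ _ _ _ _) hq h1 h2 J
    (fun c => labT I D (κ₂ c) (N c) (cl c)) (fun c => N c - κ₂ c * D - (D - 1)) D κ₀ ?_ ?_
    t t0 μ μ1 μ2 ?_ hμ1 hμ2
  · refine (pr_mono _ (un_nonneg M K) ?_).trans h3
    rintro ω ⟨c, hc, hbig⟩
    refine ⟨c, hc, ?_⟩
    rw [win_VVs, win_VVs]
    exact hbig.trans_le (cN_le_hits hm hq)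
  · intro c _ e he
    unfold labT at he
    rw [mem_image] at he
    obtain ⟨i, hi', rfl⟩ := he
    rw [mem_filter] at hi'
    have h4 := Nat.mod_lt (cl c i) hD
    have h5 := hi'.2
    simp only
    generalize κ₂ c * D = B at *
    generalize cl c i % D = r at *
    omega
  · intro c hc x
    refine le_trans (card_le_card_of_injOn (fun e => e.1) (t := (range I).filter
      (fun i => cl c i % D = N c - κ₂ c * D - x)) ?_ ?_) (hκ c hc _)
    · intro e he
      rw [mem_coe, mem_filter] at he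
      obtain ⟨he, hx⟩ := he
      unfold labT at he
      rw [mem_image] at he
      obtain ⟨i, hi', rfl⟩ := he
      rw [mem_filter] at hi'
      have h5 := hi'.2
      simp only at hx
      rw [mem_coe, mem_filter]
      refine ⟨hi'.1, ?_⟩
      simp only
      generalize κ₂ c * D = B at *
      generalize cl c i % D = r at *
      omega
    · intro e he e' he' hee
      rw [mem_coe, mem_filter] at he he'
      exact Prod.ext hee (he.2.trans he'.2.symm)
  · intro c _
    have h4 : ((labT I D (κ₂ c) (N c) (cl c)).card : ℝ) ≤ I := by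
      exact_mod_cast card_labT_le _ _ _ _ _
    refine le_trans ?_ hμ
    have h5 : (4 * (2 * 2) : ℝ) / Real.sqrt q = 16 / Real.sqrt q := by norm_num
    rw [h5]
    exact mul_le_mul_of_nonneg_right h4 (by positivity)

end Pool.Agent.Helper57.T5
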