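import Pool.Agent.Helper57.T5.BotCls

/-!
# Block BOT with arbitrary class maps: numbers

`S` = number of digits of the windows, `A = (10 ^ 6) ^ (S / 4)`; lower ends `≥ A ^ 3`, upper ends
`≤ 16 * A ^ 4`, `D ≤ A`, at most `A ^ c` contexts, `16 I ≤ μ0 sqrt q`.
-/

set_option autoImplicit false

namespace Pool.Agent.Helper57.T5

open Finset Pool.Agent.Helper42.T5.Pr Pool.Agent.Helper22.HW

theorem fact_tail_mu (c S : ℕ) {μ0 : ℝ} (hμ0 : 0 ≤ μ0) (hS : 0 < c * S)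
    (h : 3 * 10 ^ 6 * μ0 ≤ (c * S : ℕ)) :
    μ0 ^ (c * S) / ((c * S).factorial : ℝ) ≤ (((10 : ℝ) ^ 6) ^ S)⁻¹ ^ c := by
  set t := c * S with ht
  have ht0 : (0 : ℝ) < t := by exact_mod_cast hS
  have h1 := Real.pow_div_factorial_le_exp (t : ℝ) ht0.le t
  have h2 : Real.exp (t : ℝ) ≤ 3 ^ t := by
    rw [← Real.exp_one_pow t]
    exact pow_le_pow_left₀ (Real.exp_pos 1).le (by linarith [Real.exp_one_lt_d9]) t
  have hf : (0 : ℝ) < (t.factorial : ℝ) := by exact_mod_cast t.factorial_pos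
  have h3 : (t : ℝ) ^ t ≤ 3 ^ t * (t.factorial : ℝ) := by
    rw [div_le_iff₀ hf] at h1
    exact h1.trans (mul_le_mul_of_nonneg_right h2 hf.le)
  have h4 : (3 * μ0) / t ≤ ((10 : ℝ) ^ 6)⁻¹ := by
    rw [div_le_iff₀ ht0]
    have h6 : 3 * μ0 = ((10 : ℝ) ^ 6)⁻¹ * (3 * 10 ^ 6 * μ0) := by norm_num; ring
    rw [h6]
    exact mul_le_mul_of_nonneg_left h (by positivity)
  calc μ0 ^ t / (t.factorial : ℝ) ≤ (3 * μ0) ^ t / (t : ℝ) ^ t := by
        rw [div_le_div_iff₀ hf (by positivity)]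
        calc μ0 ^ t * (t : ℝ) ^ t ≤ μ0 ^ t * (3 ^ t * (t.factorial : ℝ)) :=
              mul_le_mul_of_nonneg_left h3 (by positivity)
          _ = (3 * μ0) ^ t * (t.factorial : ℝ) := by
              rw [← mul_assoc, ← mul_pow, mul_comm μ0 3]
    _ = ((3 * μ0) / (t : ℝ)) ^ t := by rw [div_pow]
    _ ≤ (((10 : ℝ) ^ 6)⁻¹) ^ t := pow_le_pow_left₀ (by positivity) h4 t
    _ = (((10 : ℝ) ^ 6) ^ S)⁻¹ ^ c := by
        rw [inv_pow, inv_pow, ← pow_mul ((10 : ℝ) ^ 6) S c, ht, mul_comm c S]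

variable {κ : Type*} [DecidableEq κ] {M : κ → ℕ} {K : Finset κ} {lo hi : Bool → ℕ}
  {bk : Bool → ℕ → ℕ → κ}

/-- **BOT for arbitrary class maps, with numbers**, `q` at most the lower end. -/
theorem bot_cN_num2 (hM : ∀ k, 0 < M k) (h : WinD M K lo hi bk) {A S : ℕ}
    (hA : A = (10 ^ 6) ^ (S / 4)) (hS4 : 4 ∣ S) (hS : 32 ≤ S) (hlo : ∀ s, A ^ 3 ≤ lo s)
    (hhi : ∀ s, hi s ≤ 16 * A ^ 4) {q D I m : ℕ} (hm : 0 < m) (hq : 0 < q) (hD : 0 < D)
    (hDA : D ≤ A) (hqA : q ≤ lo true) {μ0 : ℝ} (hμ0 : 0 ≤ μ0) (hI : 16 * (I : ℝ) ≤ μ0 * Real.sqrt q)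
    (hμS : 3 * 10 ^ 6 * μ0 ≤ S)
    {C : Type*} (J : Finset C) (cl : C → ℕ → ℕ) (κ₂ N : C → ℕ) {κ₀ c : ℕ}
    (hκ : ∀ c ∈ J, ∀ x, ((range I).filter (fun i => cl c i % D = x)).card ≤ κ₀)
    (hJ : J.card ≤ A ^ c) :
    PrLe M K (fun w => ∃ x ∈ J, (30 * κ₀ + 1) * ((c + 1) * S) <
        cN ((Wd lo hi bk w false).image (fun v => m * (q * v)))
          ((Wd lo hi bk w true).image (fun v => m * v)) I m D (cl x) (κ₂ x) (m * N x))
      (2 * Real.exp (-(S : ℝ))) := by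
  have hA38 : 10 ^ 48 ≤ A := by
    rw [hA, ← pow_mul]
    exact Nat.pow_le_pow_right (by norm_num) (by omega)
  have hA1 : 1 ≤ A := le_trans (by norm_num) hA38
  have hA0 : (0 : ℝ) < A := by exact_mod_cast hA1
  have hA1r : (1 : ℝ) ≤ A := by exact_mod_cast hA1
  have hsA : (0 : ℝ) < Real.sqrt A := Real.sqrt_pos.2 hA0
  have hsA2 : Real.sqrt A * Real.sqrt A = A := Real.mul_self_sqrt hA0.le
  have hq0 : (0 : ℝ) < Real.sqrt q := Real.sqrt_pos.2 (by exact_mod_cast hq)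
  have hlor : ∀ s, (A : ℝ) * Real.sqrt A ≤ Real.sqrt (lo s) := by
    intro s
    have h1 : ((A : ℝ) * Real.sqrt A) ^ 2 ≤ (lo s : ℝ) := by
      have h2 : ((A : ℝ) ^ 3) ≤ (lo s : ℝ) := by exact_mod_cast hlo s
      calc ((A : ℝ) * Real.sqrt A) ^ 2 = A ^ 2 * (Real.sqrt A * Real.sqrt A) := by ring
        _ = (A : ℝ) ^ 3 := by rw [hsA2]; ring
        _ ≤ _ := h2
    exact Real.le_sqrt_of_sq_le h1
  have key := bot_cN hM h ((Nat.one_le_pow _ _ hA1).trans (hlo false)) hm hq hD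
    hqA J cl κ₂ N hκ
    ((c + 1) * S) 15 μ0 (4 / Real.sqrt A) (4 / Real.sqrt A) ?_ ?_ ?_
  · refine PrLe_mono (fun r _ hw => ?_) ?_ key
    · obtain ⟨x, hx, hlt⟩ := hw
      refine ⟨x, hx, lt_of_eq_of_lt (by ring) hlt⟩
    · have hh : ∀ s, ((hi s : ℕ) : ℝ) ≤ 16 * (A : ℝ) ^ 4 := fun s => by exact_mod_cast hhi s
      have hf := fact_tail_mu (c + 1) S hμ0 (Nat.mul_pos (by omega) (by omega)) (by
        refine hμS.trans ?_
        push_cast
        have : (0 : ℝ) ≤ (c : ℝ) * S := by positivity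
        linarith)
      have hAr : (A : ℝ) = ((10 : ℝ) ^ 6) ^ (S / 4) := by rw [hA]; push_cast; ring
      have hA4 : (A : ℝ) ^ 4 = ((10 : ℝ) ^ 6) ^ S := by
        rw [hAr, ← pow_mul ((10 : ℝ) ^ 6)]
        congr 1
        omega
      rw [← hA4] at hf
      have e1 : (J.card : ℝ) ≤ (A : ℝ) ^ c := by exact_mod_cast hJ
      have e2 : (J.card : ℝ) * (μ0 ^ ((c + 1) * S) / (((c + 1) * S).factorial : ℝ)) ≤
          ((A : ℝ) ^ 4)⁻¹ := by
        have hinv : (A : ℝ) ^ c * (((A : ℝ) ^ 4)⁻¹) ^ c ≤ 1 := by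
          rw [← mul_pow]
          refine pow_le_one₀ (by positivity) ?_
          rw [mul_inv_le_iff₀ (by positivity), one_mul]
          exact le_self_pow₀ hA1r (by norm_num)
        calc (J.card : ℝ) * (μ0 ^ ((c + 1) * S) / (((c + 1) * S).factorial : ℝ))
            ≤ (A : ℝ) ^ c * (((A : ℝ) ^ 4)⁻¹) ^ (c + 1) := by gcongr
          _ = ((A : ℝ) ^ c * (((A : ℝ) ^ 4)⁻¹) ^ c) * ((A : ℝ) ^ 4)⁻¹ := by rw [pow_succ]; ring
          _ ≤ 1 * ((A : ℝ) ^ 4)⁻¹ := by gcongr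
          _ = _ := one_mul _
      have e3 : (4 / Real.sqrt A) ^ (15 + 1) / ((15 + 1).factorial : ℝ) ≤ 4 ^ 16 / (A : ℝ) ^ 8 := by
        have : (4 / Real.sqrt A) ^ (15 + 1) = 4 ^ 16 / (A : ℝ) ^ 8 := by
          rw [div_pow]
          congr 1
          calc Real.sqrt A ^ (15 + 1) = (Real.sqrt A * Real.sqrt A) ^ 8 := by ring
            _ = (A : ℝ) ^ 8 := by rw [hsA2]
        rw [this]
        refine div_le_self (by positivity) ?_
        exact_mod_cast Nat.succ_le_of_lt (Nat.factorial_pos 16)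
      have e4 : ∀ s, (hi s : ℝ) * ((4 / Real.sqrt A) ^ (15 + 1) / ((15 + 1).factorial : ℝ)) ≤
          2 ^ 36 / (A : ℝ) ^ 4 := by
        intro s
        calc (hi s : ℝ) * ((4 / Real.sqrt A) ^ (15 + 1) / ((15 + 1).factorial : ℝ))
            ≤ (16 * (A : ℝ) ^ 4) * (4 ^ 16 / (A : ℝ) ^ 8) := mul_le_mul (hh s) e3
              (by positivity) (by positivity)
          _ = 2 ^ 36 / (A : ℝ) ^ 4 := by
              field_simp
              norm_num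
      have e5 : Real.exp (S : ℝ) * 2 ^ 40 ≤ (A : ℝ) ^ 4 := by
        rw [hA4, ← Real.exp_one_pow S]
        have h4 : (2 : ℝ) ^ 40 ≤ 4 ^ S := by
          calc (2 : ℝ) ^ 40 = 4 ^ 20 := by norm_num
            _ ≤ 4 ^ S := pow_le_pow_right₀ (by norm_num) (by omega)
        calc Real.exp 1 ^ S * 2 ^ 40 ≤ Real.exp 1 ^ S * 4 ^ S := by gcongr
          _ = (Real.exp 1 * 4) ^ S := by rw [mul_pow]
          _ ≤ ((10 : ℝ) ^ 6) ^ S := by
              refine pow_le_pow_left₀ (by positivity) ?_ S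
              have := Real.exp_one_lt_d9
              norm_num
              linarith
      have hA40 : (0 : ℝ) < (A : ℝ) ^ 4 := by positivity
      have e6 : (1 + 2 * 2 ^ 36) / (A : ℝ) ^ 4 ≤ Real.exp (-(S : ℝ)) := by
        rw [div_le_iff₀ hA40, Real.exp_neg]
        have h5 : (Real.exp (S : ℝ))⁻¹ * (Real.exp (S : ℝ) * 2 ^ 40) = 2 ^ 40 := by
          field_simp
        calc (1 + 2 * 2 ^ 36 : ℝ) ≤ 2 ^ 40 := by norm_num
          _ = (Real.exp (S : ℝ))⁻¹ * (Real.exp (S : ℝ) * 2 ^ 40) := h5.symm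
          _ ≤ (Real.exp (S : ℝ))⁻¹ * (A : ℝ) ^ 4 := by gcongr
      have e7 := e4 true
      have e8 := e4 false
      have e9 : (0 : ℝ) ≤ Real.exp (-(S : ℝ)) := (Real.exp_pos _).le
      have e10 : (1 + 2 * 2 ^ 36) / (A : ℝ) ^ 4 =
          ((A : ℝ) ^ 4)⁻¹ + (2 ^ 36 / (A : ℝ) ^ 4 + 2 ^ 36 / (A : ℝ) ^ 4) := by
        field_simp
        ring
      linarith
  · -- mu
    have h1 : (I : ℝ) * (16 / Real.sqrt q) = (16 * (I : ℝ)) / Real.sqrt q := by ring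
    rw [h1, div_le_iff₀ hq0]
    exact hI
  · have h1 : (D : ℝ) ≤ A := by exact_mod_cast hDA
    calc (D : ℝ) * (2 / Real.sqrt (lo true)) ≤ A * (2 / (A * Real.sqrt A)) := by
          have := hlor true
          gcongr
      _ = 2 / Real.sqrt A := by field_simp
      _ ≤ 4 / Real.sqrt A := by gcongr; norm_num
  · have h1 : ((D / q + 1 : ℕ) : ℝ) ≤ 2 * A := by
      have h2 : D / q + 1 ≤ 2 * A := by
        have := Nat.div_le_self D q
        omega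
      exact_mod_cast h2
    calc ((D / q + 1 : ℕ) : ℝ) * (2 / Real.sqrt (lo false))
        ≤ (2 * A) * (2 / (A * Real.sqrt A)) := by
          have := hlor false
          gcongr
      _ = 4 / Real.sqrt A := by field_simp; norm_num

/-- **BOT for arbitrary class maps, with numbers.** -/
theorem bot_cN_num (hM : ∀ k, 0 < M k) (h : WinD M K lo hi bk) {A S : ℕ}
    (hA : A = (10 ^ 6) ^ (S / 4)) (hS4 : 4 ∣ S) (hS : 32 ≤ S) (hlo : ∀ s, A ^ 3 ≤ lo s)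
    (hhi : ∀ s, hi s ≤ 16 * A ^ 4) {q D I m : ℕ} (hm : 0 < m) (hq : 0 < q) (hD : 0 < D)
    (hDA : D ≤ A) (hqA : q ≤ A) {μ0 : ℝ} (hμ0 : 0 ≤ μ0) (hI : 16 * (I : ℝ) ≤ μ0 * Real.sqrt q)
    (hμS : 3 * 10 ^ 6 * μ0 ≤ S)
    {C : Type*} (J : Finset C) (cl : C → ℕ → ℕ) (κ₂ N : C → ℕ) {κ₀ c : ℕ}
    (hκ : ∀ c ∈ J, ∀ x, ((range I).filter (fun i => cl c i % D = x)).card ≤ κ₀)
    (hJ : J.card ≤ A ^ c) :
    PrLe M K (fun w => ∃ x ∈ J, (30 * κ₀ + 1) * ((c + 1) * S) <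
        cN ((Wd lo hi bk w false).image (fun v => m * (q * v)))
          ((Wd lo hi bk w true).image (fun v => m * v)) I m D (cl x) (κ₂ x) (m * N x))
      (2 * Real.exp (-(S : ℝ))) :=
  bot_cN_num2 hM h hA hS4 hS hlo hhi hm hq hD hDA
    (hqA.trans ((Nat.le_self_pow (by norm_num) A).trans (hlo true))) hμ0 hI hμS J cl κ₂ N hκ hJ

end Pool.Agent.Helper57.T5
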