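import Pool.Agent.Helper57.T4.Num
import Pool.Agent.Helper1.ET4.Edge3
import Pool.Agent.Helper22.HW.Closure

/-!
# Innermost random windows: the local properties `N1` and `N2`

`V ω` is a random finite set of pairs (state, number) with `P (T ⊆ V ω) ≤ ∏ p` (independence); the
window of the state `s` is `win (V ω) s`.  If `p (s, v) ≤ A / √v`, then outside a small probability
all local equations have few solutions.
-/

set_option autoImplicit false

namespace Pool.Agent.Helper57.T5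

open Finset Pool.Agent.Helper1.ET4 Pool.Agent.Helper22.HW Pool.Agent.Helper57.T4

/-! ## deterministic part -/

/-- the hits `(i, v, v')` -/
def hits (V V' : Finset ℕ) (I q c Q α E n : ℕ) : Finset (ℕ × ℕ × ℕ) :=
  (range I ×ˢ V ×ˢ V').filter
    (fun x => c * ((α + E * x.1) % Q) + q * x.2.1 + x.2.2 = n)

theorem mem_hits {V V' : Finset ℕ} {I q c Q α E n : ℕ} {x : ℕ × ℕ × ℕ} :
    x ∈ hits V V' I q c Q α E n ↔ (x.1 < I ∧ x.2.1 ∈ V ∧ x.2.2 ∈ V') ∧
      c * ((α + E * x.1) % Q) + q * x.2.1 + x.2.2 = n := by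
  unfold hits
  rw [Finset.mem_filter, Finset.mem_product, Finset.mem_product, Finset.mem_range]

theorem hits_mono {V V' W W' : Finset ℕ} (h : V ⊆ W) (h' : V' ⊆ W') (I q c Q α E n : ℕ) :
    hits V V' I q c Q α E n ⊆ hits W W' I q c Q α E n := by
  intro x hx
  have h1 := mem_hits.1 hx
  exact mem_hits.2 ⟨⟨h1.1.1, h h1.1.2.1, h' h1.1.2.2⟩, h1.2⟩

theorem hits_mod (V V' : Finset ℕ) (I q c Q α E n : ℕ) :
    hits V V' I q c Q (α % Q) (E % Q) n = hits V V' I q c Q α E n := by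
  unfold hits
  refine Finset.filter_congr fun x _ => ?_
  have h1 : (α % Q + E % Q * x.1) % Q = (α + E * x.1) % Q := by
    rw [Nat.add_mod, Nat.mod_mod, Nat.mul_mod, Nat.mod_mod, ← Nat.mul_mod, ← Nat.add_mod]
  rw [h1]

/-- the label is determined by `v'` modulo `q` -/
theorem label_unique {p a Q c I α E n : ℕ} (hQ : p ^ a ∣ Q) (hI : I ≤ p ^ a)
    (hc : c.Coprime p) (hE : E.Coprime p) {i j v u v' : ℕ} (hi : i < I) (hj : j < I)
    (h1 : c * ((α + E * i) % Q) + p ^ a * v + v' = n)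
    (h2 : c * ((α + E * j) % Q) + p ^ a * u + v' = n) : i = j := by
  have hmod : ∀ k w : ℕ, c * ((α + E * k) % Q) + p ^ a * w + v' ≡
      c * (α + E * k) + v' [MOD p ^ a] := by
    intro k w
    have e1 : c * ((α + E * k) % Q) ≡ c * (α + E * k) [MOD p ^ a] :=
      ((Nat.mod_modEq _ _).of_dvd hQ).mul_left c
    have e3 : p ^ a * w ≡ 0 [MOD p ^ a] := (Nat.modEq_zero_iff_dvd).2 (dvd_mul_right _ _)
    have := (e1.add e3).add_right v'
    simpa using this
  have h12 : c * ((α + E * i) % Q) + p ^ a * v + v' = c * ((α + E * j) % Q) + p ^ a * u + v' :=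
    h1.trans h2.symm
  have h3 : c * (α + E * i) + v' ≡ c * (α + E * j) + v' [MOD p ^ a] := by
    refine (hmod i v).symm.trans ?_
    rw [h12]
    exact hmod j u
  have h5 : c * (α + E * i) ≡ c * (α + E * j) [MOD p ^ a] := Nat.ModEq.add_right_cancel' v' h3
  have h6 : α + E * i ≡ α + E * j [MOD p ^ a] :=
    Nat.ModEq.cancel_left_of_coprime (Nat.Coprime.pow_left a hc.symm) h5
  have h7 : E * i ≡ E * j [MOD p ^ a] := Nat.ModEq.add_left_cancel' α h6
  have h8 : i ≡ j [MOD p ^ a] :=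
    Nat.ModEq.cancel_left_of_coprime (Nat.Coprime.pow_left a hE.symm) h7
  exact Nat.ModEq.eq_of_lt_of_lt h8 (hi.trans_le hI) (hj.trans_le hI)

section

variable {ι : Type*} [DecidableEq ι]

/-- the window of the state `s` -/
def win (V : Finset (ι × ℕ)) (s : ι) : Finset ℕ := (V.filter fun q => q.1 = s).image Prod.snd

theorem mem_win {V : Finset (ι × ℕ)} {s : ι} {v : ℕ} : v ∈ win V s ↔ (s, v) ∈ V := by
  unfold win
  rw [Finset.mem_image]
  constructor
  · rintro ⟨q, hq, rfl⟩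
    obtain ⟨h1, h2⟩ := Finset.mem_filter.1 hq
    rw [← h2]
    exact h1
  · intro h
    exact ⟨(s, v), Finset.mem_filter.2 ⟨h, rfl⟩, rfl⟩

/-- the two vertices of a hit -/
def supp (s s' : ι) (x : ℕ × ℕ × ℕ) : Finset (ι × ℕ) := {(s, x.2.1), (s', x.2.2)}

theorem mem_supp {s s' : ι} {x : ℕ × ℕ × ℕ} {q : ι × ℕ} :
    q ∈ supp s s' x ↔ q = (s, x.2.1) ∨ q = (s', x.2.2) := by
  unfold supp
  rw [Finset.mem_insert, Finset.mem_singleton]

/-- the mean for one label -/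
theorem mean_one (A A' : ℝ) (hA : 0 ≤ A) (hA' : 0 ≤ A') (w w' : ℕ → ℝ)
    (hw : ∀ v, 1 ≤ v → w v ≤ A / Real.sqrt v) (hw' : ∀ v, 1 ≤ v → w' v ≤ A' / Real.sqrt v)
    (hw0 : ∀ v, 0 ≤ w' v)
    (q M : ℕ) (hq : 0 < q) (s : Finset ℕ) (h : ∀ v ∈ s, 1 ≤ v ∧ q * v + q ≤ M) :
    ∑ v ∈ s, w v * w' (M - q * v) ≤ 4 * (A * A') / Real.sqrt q := by
  have hq' : (0 : ℝ) < q := by exact_mod_cast hq
  have h1 : ∀ v ∈ s, w v * w' (M - q * v) ≤
      A * A' / Real.sqrt q * (1 / Real.sqrt ((v : ℝ) * ((M : ℝ) / q - v))) := by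
    intro v hv
    obtain ⟨h2, h3⟩ := h v hv
    have h4 : 1 ≤ M - q * v := by omega
    have h5 := hw v h2
    have h6 := hw' (M - q * v) h4
    have h7 : (0 : ℝ) < v := by exact_mod_cast h2
    have h8 : ((M - q * v : ℕ) : ℝ) = q * ((M : ℝ) / q - v) := by
      rw [Nat.cast_sub (by omega)]
      push_cast
      field_simp
    have h9 : 0 < (M : ℝ) / q - v := by
      have : (0 : ℝ) < ((M - q * v : ℕ) : ℝ) := by exact_mod_cast h4
      rw [h8] at this
      exact (mul_pos_iff_of_pos_left hq').1 this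
    refine (mul_le_mul h5 h6 (hw0 _) (by positivity)).trans (le_of_eq ?_)
    rw [h8, Real.sqrt_mul hq'.le, Real.sqrt_mul h7.le]
    field_simp
  refine (Finset.sum_le_sum h1).trans ?_
  rw [← Finset.mul_sum]
  have h2 := sum_line_le ((M : ℝ) / q) s fun v hv => by
    obtain ⟨h2, h3⟩ := h v hv
    refine ⟨h2, ?_⟩
    rw [le_div_iff₀ hq']
    have h4 : ((q * v + q : ℕ) : ℝ) ≤ M := by exact_mod_cast h3
    push_cast at h4
    linarith
  have h3 : (0 : ℝ) ≤ A * A' / Real.sqrt q := by positivity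
  calc A * A' / Real.sqrt q * ∑ v ∈ s, 1 / Real.sqrt ((v : ℝ) * ((M : ℝ) / q - v))
      ≤ A * A' / Real.sqrt q * 4 := mul_le_mul_of_nonneg_left h2 h3
    _ = 4 * (A * A') / Real.sqrt q := by ring

/-- the mean number of hits -/
theorem mean_hits {s s' : ι} (hss : s ≠ s') (p : ι × ℕ → ℝ) (hp0 : ∀ q, 0 ≤ p q) {A A' : ℝ}
    (hA : 0 ≤ A) (hA' : 0 ≤ A') (hp : ∀ v, 1 ≤ v → p (s, v) ≤ A / Real.sqrt v)
    (hp' : ∀ v, 1 ≤ v → p (s', v) ≤ A' / Real.sqrt v) {lo hi lo' hi' : ℕ}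
    (I q c Q α E n : ℕ) (hq : 0 < q) (hI : I ^ 2 ≤ q)
    (h1 : 1 ≤ lo) (h2 : q ≤ lo') :
    ∑ e ∈ hits (Ico lo hi) (Ico lo' hi') I q c Q α E n, ∏ x ∈ supp s s' e, p x ≤
      4 * (A * A') := by
  classical
  have hprod : ∀ e : ℕ × ℕ × ℕ, ∏ x ∈ supp s s' e, p x = p (s, e.2.1) * p (s', e.2.2) := by
    intro e
    unfold supp
    rw [Finset.prod_pair]
    intro h
    exact hss (congrArg Prod.fst h)
  rw [Finset.sum_congr rfl fun e _ => hprod e]
  set H := hits (Ico lo hi) (Ico lo' hi') I q c Q α E n with hH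
  have hfib : ∑ e ∈ H, p (s, e.2.1) * p (s', e.2.2) =
      ∑ i ∈ range I, ∑ e ∈ H.filter (fun e => e.1 = i), p (s, e.2.1) * p (s', e.2.2) := by
    rw [Finset.sum_fiberwise_of_maps_to]
    intro e he
    exact Finset.mem_range.2 (mem_hits.1 he).1.1
  rw [hfib]
  have hone : ∀ i ∈ range I, ∑ e ∈ H.filter (fun e => e.1 = i),
        p (s, e.2.1) * p (s', e.2.2) ≤ 4 * (A * A') / Real.sqrt q := by
    intro i _
    set F := H.filter (fun e => e.1 = i) with hF
    set M := n - c * ((α + E * i) % Q) with hM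
    have hmem : ∀ e ∈ F, e.1 = i ∧ lo ≤ e.2.1 ∧ lo' ≤ e.2.2 ∧
        c * ((α + E * i) % Q) + q * e.2.1 + e.2.2 = n := by
      intro e he
      rw [hF, Finset.mem_filter] at he
      have h3 := mem_hits.1 he.1
      rw [he.2] at h3
      exact ⟨he.2, (Finset.mem_Ico.1 h3.1.2.1).1, (Finset.mem_Ico.1 h3.1.2.2).1, h3.2⟩
    have h4 : ∀ e ∈ F, e.2.2 = M - q * e.2.1 ∧ q * e.2.1 + q ≤ M := by
      intro e he
      obtain ⟨_, _, h6, h7⟩ := hmem e he
      constructor <;> omega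
    have h5 : ∑ e ∈ F, p (s, e.2.1) * p (s', e.2.2) = ∑ v ∈ F.image (fun e => e.2.1),
        p (s, v) * p (s', M - q * v) := by
      rw [Finset.sum_image]
      · exact Finset.sum_congr rfl fun e he => by rw [← (h4 e he).1]
      · intro e he e' he' hee
        have h6 := hmem e he
        have h7 := hmem e' he'
        have h8 := (h4 e he).1
        have h9 := (h4 e' he').1
        simp only at hee
        refine Prod.ext (h6.1.trans h7.1.symm) (Prod.ext hee ?_)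
        rw [h8, h9, hee]
    rw [h5]
    refine mean_one A A' hA hA' (fun v => p (s, v)) (fun v => p (s', v)) hp hp' (fun v => hp0 _)
      q M hq _ ?_
    intro v hv
    obtain ⟨e, he, rfl⟩ := Finset.mem_image.1 hv
    have h6 := hmem e he
    exact ⟨h1.trans h6.2.1, (h4 e he).2⟩
  refine (Finset.sum_le_sum hone).trans ?_
  rw [Finset.sum_const, Finset.card_range, nsmul_eq_mul]
  have hq' : (0 : ℝ) < Real.sqrt q := Real.sqrt_pos.2 (by exact_mod_cast hq)
  have h3 : (I : ℝ) ≤ Real.sqrt q := by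
    refine Real.le_sqrt_of_sq_le ?_
    exact_mod_cast hI
  rw [mul_div_assoc', div_le_iff₀ hq']
  have h4 : 0 ≤ 4 * (A * A') := by positivity
  nlinarith

/-- the possible second vertices for given `v` -/
def ends (s' : ι) (lo' I q c Q α E n v : ℕ) : Finset (ι × ℕ) :=
  ((range I).image fun i => (s', n - c * ((α + E * i) % Q) - q * v)).filter
    fun x => lo' ≤ x.2

theorem mean_ends (s' : ι) (p : ι × ℕ → ℝ) {A' : ℝ} (hA' : 0 ≤ A')
    (hp' : ∀ v, 1 ≤ v → p (s', v) ≤ A' / Real.sqrt v) (lo' I q c Q α E n v : ℕ) (h2 : 1 ≤ lo') :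
    ∑ x ∈ ends s' lo' I q c Q α E n v, p x ≤ A' * I / Real.sqrt lo' := by
  have h3 : ∀ x ∈ ends s' lo' I q c Q α E n v, p x ≤ A' / Real.sqrt lo' := by
    intro x hx
    obtain ⟨h5, h4⟩ := Finset.mem_filter.1 hx
    obtain ⟨i, _, rfl⟩ := Finset.mem_image.1 h5
    simp only at h4
    refine (hp' _ (h2.trans h4)).trans ?_
    have h5 : (0 : ℝ) < Real.sqrt lo' := Real.sqrt_pos.2 (by exact_mod_cast h2)
    exact div_le_div_of_nonneg_left hA' h5 (Real.sqrt_le_sqrt (by exact_mod_cast h4))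
  refine (Finset.sum_le_card_nsmul _ _ _ h3).trans ?_
  rw [nsmul_eq_mul]
  have h4 : ((ends s' lo' I q c Q α E n v).card : ℝ) ≤ I := by
    have h5 : (ends s' lo' I q c Q α E n v).card ≤ I := by
      refine (Finset.card_filter_le _ _).trans (Finset.card_image_le.trans ?_)
      rw [Finset.card_range]
    exact_mod_cast h5
  have h5 : (0 : ℝ) ≤ A' / Real.sqrt lo' := by positivity
  calc _ ≤ (I : ℝ) * (A' / Real.sqrt lo') := mul_le_mul_of_nonneg_right h4 h5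
    _ = _ := by ring

/-- deterministic step: few disjoint hits and small degrees give few hits -/
theorem hits_card_le {s s' : ι} {p a Q c I α E n lo hi lo' hi' : ℕ} (hss : s ≠ s')
    (hp : p.Prime) (hQ : p ^ a ∣ Q)
    (hI : I ≤ p ^ a) (hc : c.Coprime p) (hE : E.Coprime p) (V : Finset (ι × ℕ))
    (hV : win V s ⊆ Ico lo hi) (hV' : win V s' ⊆ Ico lo' hi') (t t0 : ℕ) (ht0 : 1 ≤ t0)
    (hB1 : ∀ v, v < hi → (ends s' lo' I (p ^ a) c Q α E n v ∩ V).card < t0)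
    (hB2 : ¬ ∃ M ⊆ hits (Ico lo hi) (Ico lo' hi') I (p ^ a) c Q α E n, M.card = t ∧
      (M : Set (ℕ × ℕ × ℕ)).PairwiseDisjoint (supp s s') ∧ ∀ e ∈ M, supp s s' e ⊆ V) :
    (hits (win V s) (win V s') I (p ^ a) c Q α E n).card ≤ (2 * t0 + 1) * t := by
  classical
  set H := hits (win V s) (win V s') I (p ^ a) c Q α E n with hH
  have hHE : H ⊆ hits (Ico lo hi) (Ico lo' hi') I (p ^ a) c Q α E n := hits_mono hV hV' _ _ _ _ _ _ _
  have hinj : ∀ e ∈ H, ∀ f ∈ H, e.2.2 = f.2.2 → e = f := by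
    intro e he f hf hef
    have h1 := mem_hits.1 he
    have h2 := mem_hits.1 hf
    have h3 : e.1 = f.1 := by
      have h4 := h1.2
      rw [hef] at h4
      exact label_unique hQ hI hc hE h1.1.1 h2.1.1 h4 h2.2
    have h4 : e.2.1 = f.2.1 := by
      have h5 := h1.2
      have h6 := h2.2
      rw [h3, hef] at h5
      have h7 : p ^ a * e.2.1 = p ^ a * f.2.1 := by omega
      exact Nat.eq_of_mul_eq_mul_left (Nat.pow_pos hp.pos) h7
    exact Prod.ext h3 (Prod.ext h4 hef)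
  refine card_edges_le H (supp s s') 2 t0 t ?_ ?_ ?_
  · intro e _
    exact Finset.card_le_two
  · intro e he x hx
    rw [mem_supp] at hx
    rcases hx with rfl | rfl
    · -- the vertex of `V`
      by_contra hcon
      push Not at hcon
      set F := H.filter fun f => (s, e.2.1) ∈ supp s s' f with hF
      have hFm : ∀ f ∈ F, f ∈ H ∧ f.2.1 = e.2.1 := by
        intro f hf
        obtain ⟨h1, h2⟩ := Finset.mem_filter.1 hf
        refine ⟨h1, ?_⟩
        rw [mem_supp] at h2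
        rcases h2 with h2 | h2
        · exact (congrArg Prod.snd h2).symm
        · exact absurd (congrArg Prod.fst h2) hss
      have hv := Finset.mem_Ico.1 (hV (mem_hits.1 he).1.2.1)
      have hcard : F.card ≤ (ends s' lo' I (p ^ a) c Q α E n e.2.1 ∩ V).card := by
        refine Finset.card_le_card_of_injOn (fun f => (s', f.2.2)) ?_ ?_
        · intro f hf
          obtain ⟨h1, h2⟩ := hFm f hf
          have h3 := mem_hits.1 h1
          rw [Finset.mem_coe, Finset.mem_inter]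
          refine ⟨?_, mem_win.1 h3.1.2.2⟩
          unfold ends
          refine Finset.mem_filter.2 ⟨Finset.mem_image.2 ⟨f.1, Finset.mem_range.2 h3.1.1, ?_⟩,
            (Finset.mem_Ico.1 (hV' h3.1.2.2)).1⟩
          have h4 := h3.2
          rw [h2] at h4
          refine Prod.ext rfl ?_
          simp only
          omega
        · intro f hf f' hf' hff
          have h0 : ((s', f.2.2) : ι × ℕ) = (s', f'.2.2) := hff
          exact hinj f (hFm f hf).1 f' (hFm f' hf').1 (Prod.ext_iff.1 h0).2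
      have := hB1 e.2.1 hv.2
      omega
    · -- the vertex of `V'`
      refine le_trans ?_ ht0
      rw [Finset.card_le_one]
      intro f hf f' hf'
      have key : ∀ f ∈ H.filter (fun f => (s', e.2.2) ∈ supp s s' f), f ∈ H ∧ f.2.2 = e.2.2 := by
        intro f hf
        obtain ⟨h1, h2⟩ := Finset.mem_filter.1 hf
        refine ⟨h1, ?_⟩
        rw [mem_supp] at h2
        rcases h2 with h2 | h2
        · exact absurd (congrArg Prod.fst h2).symm hss
        · exact (congrArg Prod.snd h2).symm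
      obtain ⟨h1, h2⟩ := key f hf
      obtain ⟨h3, h4⟩ := key f' hf'
      exact hinj f h1 f' h3 (h2.trans h4.symm)
  · rintro ⟨M, hM, hMt, hMd⟩
    refine hB2 ⟨M, hM.trans hHE, hMt, hMd, ?_⟩
    intro e he x hx
    have h1 := mem_hits.1 (hM he)
    rw [mem_supp] at hx
    rcases hx with rfl | rfl
    · exact mem_win.1 h1.1.2.1
    · exact mem_win.1 h1.1.2.2

end

/-! ## probability -/

section

variable {Ω ι : Type*} [Fintype Ω] [DecidableEq ι]

/-- union bound over all local data, equation with a label -/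
theorem hits_prob (P : Ω → ℝ) (hP : ∀ ω, 0 ≤ P ω) (V : Ω → Finset (ι × ℕ)) (p : ι × ℕ → ℝ)
    (hp0 : ∀ q, 0 ≤ p q) (hind : ∀ T : Finset (ι × ℕ), pr P {ω | T ⊆ V ω} ≤ ∏ v ∈ T, p v)
    {s s' : ι} (hss : s ≠ s') {A A' : ℝ} (hA : 0 ≤ A) (hA' : 0 ≤ A')
    (hp : ∀ v, 1 ≤ v → p (s, v) ≤ A / Real.sqrt v)
    (hp' : ∀ v, 1 ≤ v → p (s', v) ≤ A' / Real.sqrt v) {lo hi lo' hi' : ℕ}
    (hV : ∀ ω, win (V ω) s ⊆ Ico lo hi) (hV' : ∀ ω, win (V ω) s' ⊆ Ico lo' hi')
    {l a Q c I : ℕ} (hl : l.Prime) (ha : 1 ≤ a) (hQ : l ^ a ∣ Q) (hQ0 : 0 < Q)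
    (hc : c.Coprime l) (hI : I ^ 2 ≤ l ^ a) (h1 : 1 ≤ lo) (h2 : l ^ a ≤ lo') (t t0 : ℕ)
    (ht0 : 1 ≤ t0) (μ μ1 : ℝ) (hμ : 4 * (A * A') ≤ μ) (hμ1 : A' * I / Real.sqrt lo' ≤ μ1)
    (T : ℕ) (hT : c * Q + l ^ a * hi + hi' ≤ T) :
    pr P {ω | ∃ α E n, E.Coprime l ∧
      (2 * t0 + 1) * t < (hits (win (V ω) s) (win (V ω) s') I (l ^ a) c Q α E n).card} ≤
      (Q : ℝ) ^ 2 * T * (μ ^ t / (t.factorial : ℝ)) +
        (Q : ℝ) ^ 2 * T * hi * (μ1 ^ t0 / (t0.factorial : ℝ)) := by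
  classical
  have hpa : 0 < l ^ a := Nat.pow_pos hl.pos
  have hI' : I ≤ l ^ a := le_trans (by nlinarith [Nat.zero_le I]) hI
  set J := range Q ×ˢ range Q ×ˢ range T with hJ
  have hJc : (J.card : ℝ) = (Q : ℝ) ^ 2 * T := by
    rw [hJ, Finset.card_product, Finset.card_product, Finset.card_range, Finset.card_range]
    push_cast
    ring
  set S1 : ℕ × ℕ × ℕ → Set Ω := fun x => {ω | ∃ M ⊆ hits (Ico lo hi) (Ico lo' hi') I (l ^ a) c Q
      x.1 x.2.1 x.2.2, M.card = t ∧ (M : Set (ℕ × ℕ × ℕ)).PairwiseDisjoint (supp s s') ∧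
      ∀ e ∈ M, supp s s' e ⊆ V ω} with hS1
  set S2 : (ℕ × ℕ × ℕ) × ℕ → Set Ω := fun x => {ω | t0 ≤ (ends s' lo' I (l ^ a) c Q x.1.1 x.1.2.1
      x.1.2.2 x.2 ∩ V ω).card} with hS2
  have hb1 : ∀ x ∈ J, pr P (S1 x) ≤ μ ^ t / (t.factorial : ℝ) := fun x _ =>
    disjoint_edges_tail P hP V p hp0 hind _ (supp s s') μ
      ((mean_hits hss p hp0 hA hA' hp hp' I (l ^ a) c Q _ _ _ hpa hI h1 h2).trans hμ) t
  have hb2 : ∀ x ∈ J ×ˢ range hi, pr P (S2 x) ≤ μ1 ^ t0 / (t0.factorial : ℝ) := fun x _ =>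
    inter_tail P hP V p hp0 hind _ μ1
      ((mean_ends s' p hA' hp' lo' I (l ^ a) c Q _ _ _ _ (hpa.trans_le h2)).trans hμ1) t0
  have hsub : {ω | ∃ α E n, E.Coprime l ∧
      (2 * t0 + 1) * t < (hits (win (V ω) s) (win (V ω) s') I (l ^ a) c Q α E n).card} ⊆
      {ω | ∃ x ∈ J, ω ∈ S1 x} ∪ {ω | ∃ x ∈ J ×ˢ range hi, ω ∈ S2 x} := by
    rintro ω ⟨α, E, n, hE, hbig⟩
    by_contra hcon
    rw [Set.mem_union, not_or] at hcon
    obtain ⟨hc1, hc2⟩ := hcon
    have hn1 : n < T := by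
      by_contra hn
      push Not at hn
      have h3 : hits (win (V ω) s) (win (V ω) s') I (l ^ a) c Q α E n = ∅ := by
        rw [Finset.eq_empty_iff_forall_notMem]
        intro x hx
        have h4 := mem_hits.1 hx
        have h5 := Finset.mem_Ico.1 (hV ω h4.1.2.1)
        have h6 := Finset.mem_Ico.1 (hV' ω h4.1.2.2)
        have h7 : (α + E * x.1) % Q < Q := Nat.mod_lt _ hQ0
        have h8 : c * ((α + E * x.1) % Q) ≤ c * Q := Nat.mul_le_mul_left _ h7.le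
        have h9 : l ^ a * x.2.1 ≤ l ^ a * hi := Nat.mul_le_mul_left _ h5.2.le
        omega
      rw [h3, Finset.card_empty] at hbig
      omega
    have hctx : (α % Q, E % Q, n) ∈ J := by
      rw [hJ]
      simp only [Finset.mem_product, Finset.mem_range]
      exact ⟨Nat.mod_lt _ hQ0, Nat.mod_lt _ hQ0, hn1⟩
    have hE' : (E % Q).Coprime l := by
      have h3 : E % Q ≡ E [MOD l] := (Nat.mod_modEq E Q).of_dvd
        ((dvd_pow_self l (by omega)).trans hQ)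
      rw [Nat.Coprime, h3.gcd_eq]
      exact hE
    have h3 := hits_card_le (α := α % Q) (E := E % Q) (n := n) hss hl hQ hI' hc hE' (V ω)
      (hV ω) (hV' ω) t t0 ht0 (fun v hv => by
        by_contra h4
        push Not at h4
        exact hc2 ⟨((α % Q, E % Q, n), v), Finset.mem_product.2 ⟨hctx, Finset.mem_range.2 hv⟩, h4⟩)
      (fun h4 => hc1 ⟨(α % Q, E % Q, n), hctx, h4⟩)
    rw [hits_mod] at h3
    omega
  refine (pr_mono P hP hsub).trans ((pr_union_le P hP _ _).trans (add_le_add ?_ ?_))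
  · refine (pr_biUnion_le P hP J S1 _ fun ω hω => hω).trans ?_
    refine (Finset.sum_le_sum hb1).trans (le_of_eq ?_)
    rw [Finset.sum_const, nsmul_eq_mul, hJc]
  · refine (pr_biUnion_le P hP (J ×ˢ range hi) S2 _ fun ω hω => hω).trans ?_
    refine (Finset.sum_le_sum hb2).trans (le_of_eq ?_)
    rw [Finset.sum_const, nsmul_eq_mul, Finset.card_product, Finset.card_range]
    push_cast
    rw [hJc]

/-- from the equation for the windows to the property `N2` of the sets of multiples -/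
theorem N2_of_hits {W W' : Finset ℕ} {m q c Q I l R : ℕ} (hm : 0 < m)
    (h : ∀ α E n, E.Coprime l → (hits W W' I q c Q α E n).card ≤ R) :
    N2 (W.image fun v => m * (q * v)) (W'.image fun v => m * v) I m c Q l R := by
  intro α E κ n hE
  refine le_trans ?_ (h α E (n / m - c * (κ * Q)) hE)
  unfold cN2
  by_cases hq : q = 0
  · subst hq
    refine Finset.card_le_card_of_injOn (fun t => (t.1, (if h : ∃ v ∈ W, True then h.choose else 0),
      t.2.2 / m)) ?_ ?_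
    · rintro ⟨i, u, u'⟩ ht
      simp only [coe_filter, Set.mem_ofPred_eq, mem_product, mem_image] at ht
      obtain ⟨⟨hi, ⟨v, hv, rfl⟩, ⟨v', hv', rfl⟩⟩, he⟩ := ht
      have hex : ∃ v ∈ W, True := ⟨v, hv, trivial⟩
      rw [Finset.mem_coe, mem_hits]
      simp only [dif_pos hex]
      refine ⟨⟨Finset.mem_range.1 hi, hex.choose_spec.1, ?_⟩, ?_⟩
      · rw [Nat.mul_div_cancel_left _ hm]
        exact hv'
      · rw [Nat.mul_div_cancel_left _ hm]
        have h1 : n / m = v' + c * ((α + E * i) % Q + κ * Q) := by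
          rw [← he]
          have : m * (0 * v) + m * v' + m * (c * ((α + E * i) % Q + κ * Q)) =
            m * (v' + c * ((α + E * i) % Q + κ * Q)) := by ring
          rw [this, Nat.mul_div_cancel_left _ hm]
        rw [h1, Nat.mul_add c]
        omega
    · rintro ⟨i, u, u'⟩ ht ⟨j, w, w'⟩ ht' hij
      simp only [coe_filter, Set.mem_ofPred_eq, mem_product, mem_image, Prod.mk.injEq] at ht ht' hij
      obtain ⟨⟨hi, ⟨v, hv, rfl⟩, ⟨v', hv', rfl⟩⟩, he⟩ := ht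
      obtain ⟨⟨hi', ⟨x, hx, rfl⟩, ⟨x', hx', rfl⟩⟩, he'⟩ := ht'
      rw [Nat.mul_div_cancel_left _ hm, Nat.mul_div_cancel_left _ hm] at hij
      rw [hij.1, hij.2.2]
      simp
  · refine Finset.card_le_card_of_injOn (fun t => (t.1, t.2.1 / (m * q), t.2.2 / m)) ?_ ?_
    · rintro ⟨i, u, u'⟩ ht
      simp only [coe_filter, Set.mem_ofPred_eq, mem_product, mem_image] at ht
      obtain ⟨⟨hi, ⟨v, hv, rfl⟩, ⟨v', hv', rfl⟩⟩, he⟩ := ht
      have hmq : 0 < m * q := Nat.mul_pos hm (Nat.pos_of_ne_zero hq)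
      have e1 : m * (q * v) / (m * q) = v := by
        rw [← mul_assoc]
        exact Nat.mul_div_cancel_left _ hmq
      have e2 : m * v' / m = v' := Nat.mul_div_cancel_left _ hm
      rw [Finset.mem_coe, mem_hits]
      simp only [e1, e2]
      refine ⟨⟨Finset.mem_range.1 hi, hv, hv'⟩, ?_⟩
      have h1 : n / m = q * v + v' + c * ((α + E * i) % Q + κ * Q) := by
        rw [← he]
        have : m * (q * v) + m * v' + m * (c * ((α + E * i) % Q + κ * Q)) =
          m * (q * v + v' + c * ((α + E * i) % Q + κ * Q)) := by ring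
        rw [this, Nat.mul_div_cancel_left _ hm]
      rw [h1, Nat.mul_add c]
      omega
    · rintro ⟨i, u, u'⟩ ht ⟨j, w, w'⟩ ht' hij
      simp only [coe_filter, Set.mem_ofPred_eq, mem_product, mem_image, Prod.mk.injEq] at ht ht' hij
      obtain ⟨⟨hi, ⟨v, hv, rfl⟩, ⟨v', hv', rfl⟩⟩, he⟩ := ht
      obtain ⟨⟨hi', ⟨x, hx, rfl⟩, ⟨x', hx', rfl⟩⟩, he'⟩ := ht'
      have hmq : 0 < m * q := Nat.mul_pos hm (Nat.pos_of_ne_zero hq)
      rw [← mul_assoc, ← mul_assoc, Nat.mul_div_cancel_left _ hmq, Nat.mul_div_cancel_left _ hmq,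
        Nat.mul_div_cancel_left _ hm, Nat.mul_div_cancel_left _ hm] at hij
      rw [hij.1, hij.2.1, hij.2.2]

theorem N2_symm {U U' : Finset ℕ} {I m c D P R : ℕ} (h : N2 U U' I m c D P R) :
    N2 U' U I m c D P R := by
  intro α E κ n hE
  refine le_trans ?_ (h α E κ n hE)
  unfold cN2
  refine Finset.card_le_card_of_injOn (fun t => (t.1, t.2.2, t.2.1)) ?_ ?_
  · rintro ⟨i, u, u'⟩ ht
    simp only [coe_filter, Set.mem_ofPred_eq, mem_product] at ht ⊢
    refine ⟨⟨ht.1.1, ht.1.2.2, ht.1.2.1⟩, ?_⟩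
    have := ht.2
    omega
  · rintro ⟨i, u, u'⟩ _ ⟨j, w, w'⟩ _ hij
    simp only [Prod.mk.injEq] at hij ⊢
    exact ⟨hij.1, hij.2.2, hij.2.1⟩

theorem N1_symm {U U' : Finset ℕ} {R : ℕ} (h : N1 U U' R) : N1 U' U R := by
  intro n
  refine le_trans ?_ (h n)
  refine Finset.card_le_card_of_injOn (fun t => (t.2, t.1)) ?_ ?_
  · rintro ⟨u, u'⟩ ht
    simp only [coe_filter, Set.mem_ofPred_eq, mem_product] at ht ⊢
    refine ⟨⟨ht.1.2, ht.1.1⟩, ?_⟩
    have := ht.2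
    omega
  · rintro ⟨u, u'⟩ _ ⟨w, w'⟩ _ hij
    simp only [Prod.mk.injEq] at hij ⊢
    exact ⟨hij.2, hij.1⟩

/-- the innermost windows have the property `N2` -/
theorem N2_prob (P : Ω → ℝ) (hP : ∀ ω, 0 ≤ P ω) (V : Ω → Finset (ι × ℕ)) (p : ι × ℕ → ℝ)
    (hp0 : ∀ q, 0 ≤ p q) (hind : ∀ T : Finset (ι × ℕ), pr P {ω | T ⊆ V ω} ≤ ∏ v ∈ T, p v)
    {s s' : ι} (hss : s ≠ s') {A A' : ℝ} (hA : 0 ≤ A) (hA' : 0 ≤ A')
    (hp : ∀ v, 1 ≤ v → p (s, v) ≤ A / Real.sqrt v)
    (hp' : ∀ v, 1 ≤ v → p (s', v) ≤ A' / Real.sqrt v) {lo hi lo' hi' : ℕ}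
    (hV : ∀ ω, win (V ω) s ⊆ Ico lo hi) (hV' : ∀ ω, win (V ω) s' ⊆ Ico lo' hi')
    {l a m Q c I : ℕ} (hm : 0 < m) (hl : l.Prime) (ha : 1 ≤ a) (hQ : l ^ a ∣ Q) (hQ0 : 0 < Q)
    (hc : c.Coprime l) (hI : I ^ 2 ≤ l ^ a) (h1 : 1 ≤ lo) (h2 : l ^ a ≤ lo') (t t0 : ℕ)
    (ht0 : 1 ≤ t0) (μ μ1 : ℝ) (hμ : 4 * (A * A') ≤ μ) (hμ1 : A' * I / Real.sqrt lo' ≤ μ1)
    (T : ℕ) (hT : c * Q + l ^ a * hi + hi' ≤ T) :
    pr P {ω | ¬ N2 ((win (V ω) s).image fun v => m * (l ^ a * v))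
        ((win (V ω) s').image fun v => m * v) I m c Q l ((2 * t0 + 1) * t)} ≤
      (Q : ℝ) ^ 2 * T * (μ ^ t / (t.factorial : ℝ)) +
        (Q : ℝ) ^ 2 * T * hi * (μ1 ^ t0 / (t0.factorial : ℝ)) := by
  refine le_trans (pr_mono P hP ?_) (hits_prob P hP V p hp0 hind hss hA hA' hp hp' hV hV' hl ha hQ
    hQ0 hc hI h1 h2 t t0 ht0 μ μ1 hμ hμ1 T hT)
  intro ω hω
  by_contra hcon
  refine hω (N2_of_hits hm fun α E n hE => ?_)
  by_contra h3
  push Not at h3
  exact hcon ⟨α, E, n, hE, h3⟩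

/-! ## the equation without a label -/

/-- the first coordinates of the solutions of `v + v' = n` -/
def edg (lo hi lo' hi' n : ℕ) : Finset ℕ :=
  (Ico lo hi).filter fun v => v ≤ n ∧ lo' ≤ n - v ∧ n - v < hi'

/-- the vertices of the edge `v` -/
def sup1 (s s' : ι) (n v : ℕ) : Finset (ι × ℕ) := {(s, v), (s', n - v)}

theorem mem_sup1 {s s' : ι} {n v : ℕ} {q : ι × ℕ} :
    q ∈ sup1 s s' n v ↔ q = (s, v) ∨ q = (s', n - v) := by
  unfold sup1
  rw [Finset.mem_insert, Finset.mem_singleton]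

theorem mean_edg (s s' : ι) (p : ι × ℕ → ℝ) (hp0 : ∀ q, 0 ≤ p q) {A A' : ℝ}
    (hA : 0 ≤ A) (hA' : 0 ≤ A') (hp : ∀ v, 1 ≤ v → p (s, v) ≤ A / Real.sqrt v)
    (hp' : ∀ v, 1 ≤ v → p (s', v) ≤ A' / Real.sqrt v) {lo hi lo' hi' : ℕ} (h1 : 1 ≤ lo)
    (h1' : 1 ≤ lo') (n : ℕ) :
    ∑ v ∈ edg lo hi lo' hi' n, ∏ x ∈ sup1 s s' n v, p x ≤ 4 * (A * A') + A := by
  classical
  have hb : ∀ v ∈ edg lo hi lo' hi' n, ∏ x ∈ sup1 s s' n v, p x ≤
      A * A' * (1 / Real.sqrt ((v : ℝ) * ((n : ℝ) - v))) + (if 2 * v = n then A else 0) := by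
    intro v hv
    obtain ⟨h2, h3, h4, h5⟩ := Finset.mem_filter.1 hv
    have h6 := (Finset.mem_Ico.1 h2).1
    have h7 : 1 ≤ v := h1.trans h6
    have h8 : 1 ≤ n - v := h1'.trans h4
    have h9 : (0 : ℝ) < v := by exact_mod_cast h7
    have h10 : ((n - v : ℕ) : ℝ) = (n : ℝ) - v := by
      rw [Nat.cast_sub h3]
    have h11 : (0 : ℝ) < (n : ℝ) - v := by
      rw [← h10]
      exact_mod_cast h8
    have hnn : 0 ≤ A * A' * (1 / Real.sqrt ((v : ℝ) * ((n : ℝ) - v))) := by positivity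
    by_cases hne : ((s, v) : ι × ℕ) = (s', n - v)
    · have h12 : v = n - v := (Prod.ext_iff.1 hne).2
      have h13 : sup1 s s' n v = {(s, v)} := by
        unfold sup1
        rw [← hne]
        simp
      rw [h13, Finset.prod_singleton, if_pos (by omega)]
      have h14 : p (s, v) ≤ A := by
        refine (hp v h7).trans (div_le_self hA ?_)
        rw [Real.one_le_sqrt]
        exact_mod_cast h7
      linarith
    · unfold sup1
      rw [Finset.prod_pair hne]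
      have h15 : (0 : ℝ) ≤ (if 2 * v = n then A else 0) := by split_ifs <;> linarith
      have h16 : p (s, v) * p (s', n - v) ≤ A * A' * (1 / Real.sqrt ((v : ℝ) * ((n : ℝ) - v))) := by
        refine (mul_le_mul (hp v h7) (hp' (n - v) h8) (hp0 _) (by positivity)).trans
          (le_of_eq ?_)
        rw [h10, Real.sqrt_mul h9.le]
        field_simp
      linarith
  refine (Finset.sum_le_sum hb).trans ?_
  rw [Finset.sum_add_distrib, ← Finset.mul_sum]
  have h2 := sum_line_le (n : ℝ) (edg lo hi lo' hi' n) fun v hv => by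
    obtain ⟨h2, h3, h4, h5⟩ := Finset.mem_filter.1 hv
    refine ⟨h1.trans (Finset.mem_Ico.1 h2).1, ?_⟩
    have : v + 1 ≤ n := by omega
    exact_mod_cast this
  have h3 : ∑ v ∈ edg lo hi lo' hi' n, (if 2 * v = n then A else 0) ≤ A := by
    rw [← Finset.sum_filter, Finset.sum_const, nsmul_eq_mul]
    have h4 : ((edg lo hi lo' hi' n).filter fun v => 2 * v = n).card ≤ 1 := by
      rw [Finset.card_le_one]
      intro a ha b hb
      have := (Finset.mem_filter.1 ha).2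
      have := (Finset.mem_filter.1 hb).2
      omega
    have h5 : ((((edg lo hi lo' hi' n).filter fun v => 2 * v = n).card : ℕ) : ℝ) ≤ 1 := by
      exact_mod_cast h4
    nlinarith
  have h4 : 0 ≤ A * A' := mul_nonneg hA hA'
  have h5 := mul_le_mul_of_nonneg_left h2 h4
  linarith

/-- number of solutions of `v + v' = n` in the windows -/
def hits1 (V V' : Finset ℕ) (n : ℕ) : Finset (ℕ × ℕ) := (V ×ˢ V').filter fun x => x.1 + x.2 = n

theorem mem_hits1 {V V' : Finset ℕ} {n : ℕ} {x : ℕ × ℕ} :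
    x ∈ hits1 V V' n ↔ (x.1 ∈ V ∧ x.2 ∈ V') ∧ x.1 + x.2 = n := by
  unfold hits1
  rw [Finset.mem_filter, Finset.mem_product]

theorem hits1_card_le {s s' : ι} {n lo hi lo' hi' : ℕ} (V : Finset (ι × ℕ))
    (hV : win V s ⊆ Ico lo hi) (hV' : win V s' ⊆ Ico lo' hi') (t : ℕ)
    (hB : ¬ ∃ M ⊆ edg lo hi lo' hi' n, M.card = t ∧
      (M : Set ℕ).PairwiseDisjoint (sup1 s s' n) ∧ ∀ e ∈ M, sup1 s s' n e ⊆ V) :
    (hits1 (win V s) (win V s') n).card ≤ 5 * t := by
  classical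
  set H := (edg lo hi lo' hi' n).filter fun v => sup1 s s' n v ⊆ V with hH
  have h1 : (hits1 (win V s) (win V s') n).card ≤ H.card := by
    refine Finset.card_le_card_of_injOn Prod.fst ?_ ?_
    · intro x hx
      obtain ⟨⟨h2, h3⟩, h4⟩ := mem_hits1.1 (Finset.mem_coe.1 hx)
      have h5 := Finset.mem_Ico.1 (hV h2)
      have h6 := Finset.mem_Ico.1 (hV' h3)
      have h7 : n - x.1 = x.2 := by omega
      rw [Finset.mem_coe, hH, Finset.mem_filter]
      refine ⟨?_, ?_⟩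
      · unfold edg
        rw [Finset.mem_filter, Finset.mem_Ico, h7]
        exact ⟨h5, by omega, h6.1, h6.2⟩
      · intro q hq
        rw [mem_sup1, h7] at hq
        rcases hq with rfl | rfl
        · exact mem_win.1 h2
        · exact mem_win.1 h3
    · intro x hx y hy hxy
      have h2 := (mem_hits1.1 (Finset.mem_coe.1 hx)).2
      have h3 := (mem_hits1.1 (Finset.mem_coe.1 hy)).2
      exact Prod.ext hxy (by omega)
  refine h1.trans ?_
  have h2 : 5 * t = (2 * 2 + 1) * t := by ring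
  rw [h2]
  refine card_edges_le H (sup1 s s' n) 2 2 t ?_ ?_ ?_
  · intro e _
    exact Finset.card_le_two
  · intro e _ x _
    have hsub : (H.filter fun f => x ∈ sup1 s s' n f) ⊆ {x.2, n - x.2} := by
      intro v hv
      obtain ⟨h3, h4⟩ := Finset.mem_filter.1 hv
      rw [mem_sup1] at h4
      have h5 := (Finset.mem_filter.1 (Finset.mem_filter.1 h3).1).2
      rw [Finset.mem_insert, Finset.mem_singleton]
      rcases h4 with h4 | h4
      · left
        rw [h4]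
      · right
        rw [h4]
        simp only
        omega
    exact (Finset.card_le_card hsub).trans Finset.card_le_two
  · rintro ⟨M, hM, hMt, hMd⟩
    exact hB ⟨M, hM.trans (Finset.filter_subset _ _), hMt, hMd,
      fun e he => (Finset.mem_filter.1 (hM he)).2⟩

/-- union bound over all local data, equation without a label -/
theorem hits1_prob (P : Ω → ℝ) (hP : ∀ ω, 0 ≤ P ω) (V : Ω → Finset (ι × ℕ)) (p : ι × ℕ → ℝ)
    (hp0 : ∀ q, 0 ≤ p q) (hind : ∀ T : Finset (ι × ℕ), pr P {ω | T ⊆ V ω} ≤ ∏ v ∈ T, p v)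
    {s s' : ι} {A A' : ℝ} (hA : 0 ≤ A) (hA' : 0 ≤ A')
    (hp : ∀ v, 1 ≤ v → p (s, v) ≤ A / Real.sqrt v)
    (hp' : ∀ v, 1 ≤ v → p (s', v) ≤ A' / Real.sqrt v) {lo hi lo' hi' : ℕ}
    (hV : ∀ ω, win (V ω) s ⊆ Ico lo hi) (hV' : ∀ ω, win (V ω) s' ⊆ Ico lo' hi')
    (h1 : 1 ≤ lo) (h1' : 1 ≤ lo') (t : ℕ) (μ : ℝ) (hμ : 4 * (A * A') + A ≤ μ)
    (T : ℕ) (hT : hi + hi' ≤ T) :
    pr P {ω | ∃ n, 5 * t < (hits1 (win (V ω) s) (win (V ω) s') n).card} ≤
      (T : ℝ) * (μ ^ t / (t.factorial : ℝ)) := by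
  classical
  set S1 : ℕ → Set Ω := fun n => {ω | ∃ M ⊆ edg lo hi lo' hi' n, M.card = t ∧
      (M : Set ℕ).PairwiseDisjoint (sup1 s s' n) ∧ ∀ e ∈ M, sup1 s s' n e ⊆ V ω} with hS1
  have hb1 : ∀ n ∈ range T, pr P (S1 n) ≤ μ ^ t / (t.factorial : ℝ) := fun n _ =>
    disjoint_edges_tail P hP V p hp0 hind _ (sup1 s s' n) μ
      ((mean_edg s s' p hp0 hA hA' hp hp' h1 h1' n).trans hμ) t
  refine (pr_biUnion_le P hP (range T) S1 _ ?_).trans ?_
  · rintro ω ⟨n, hn⟩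
    refine ⟨n, ?_, ?_⟩
    · rw [Finset.mem_range]
      by_contra hc
      push Not at hc
      have h3 : hits1 (win (V ω) s) (win (V ω) s') n = ∅ := by
        rw [Finset.eq_empty_iff_forall_notMem]
        intro x hx
        obtain ⟨⟨h2, h3⟩, h4⟩ := mem_hits1.1 hx
        have h5 := Finset.mem_Ico.1 (hV ω h2)
        have h6 := Finset.mem_Ico.1 (hV' ω h3)
        omega
      rw [h3, Finset.card_empty] at hn
      omega
    · by_contra hc
      have := hits1_card_le (V ω) (hV ω) (hV' ω) t hc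
      omega
  · refine (Finset.sum_le_sum hb1).trans (le_of_eq ?_)
    rw [Finset.sum_const, nsmul_eq_mul, Finset.card_range]

theorem N1_of_hits1 {W W' : Finset ℕ} {m R : ℕ} (hm : 0 < m)
    (h : ∀ n, (hits1 W W' n).card ≤ R) :
    N1 (W.image fun v => m * v) (W'.image fun v => m * v) R := by
  intro n
  refine le_trans ?_ (h (n / m))
  refine Finset.card_le_card_of_injOn (fun t => (t.1 / m, t.2 / m)) ?_ ?_
  · rintro ⟨u, u'⟩ ht
    simp only [coe_filter, Set.mem_ofPred_eq, mem_product, mem_image] at ht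
    obtain ⟨⟨⟨v, hv, rfl⟩, ⟨v', hv', rfl⟩⟩, he⟩ := ht
    rw [Finset.mem_coe, mem_hits1]
    simp only [Nat.mul_div_cancel_left _ hm]
    refine ⟨⟨hv, hv'⟩, ?_⟩
    rw [← he, ← Nat.mul_add, Nat.mul_div_cancel_left _ hm]
  · rintro ⟨u, u'⟩ ht ⟨w, w'⟩ ht' hij
    simp only [coe_filter, Set.mem_ofPred_eq, mem_product, mem_image, Prod.mk.injEq] at ht ht' hij
    obtain ⟨⟨⟨v, hv, rfl⟩, ⟨v', hv', rfl⟩⟩, he⟩ := ht
    obtain ⟨⟨⟨x, hx, rfl⟩, ⟨x', hx', rfl⟩⟩, he'⟩ := ht'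
    rw [Nat.mul_div_cancel_left _ hm, Nat.mul_div_cancel_left _ hm, Nat.mul_div_cancel_left _ hm,
      Nat.mul_div_cancel_left _ hm] at hij
    rw [hij.1, hij.2]

/-- the innermost windows have the property `N1` -/
theorem N1_prob (P : Ω → ℝ) (hP : ∀ ω, 0 ≤ P ω) (V : Ω → Finset (ι × ℕ)) (p : ι × ℕ → ℝ)
    (hp0 : ∀ q, 0 ≤ p q) (hind : ∀ T : Finset (ι × ℕ), pr P {ω | T ⊆ V ω} ≤ ∏ v ∈ T, p v)
    {s s' : ι} {A A' : ℝ} (hA : 0 ≤ A) (hA' : 0 ≤ A')
    (hp : ∀ v, 1 ≤ v → p (s, v) ≤ A / Real.sqrt v)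
    (hp' : ∀ v, 1 ≤ v → p (s', v) ≤ A' / Real.sqrt v) {lo hi lo' hi' : ℕ}
    (hV : ∀ ω, win (V ω) s ⊆ Ico lo hi) (hV' : ∀ ω, win (V ω) s' ⊆ Ico lo' hi')
    (h1 : 1 ≤ lo) (h1' : 1 ≤ lo') {m : ℕ} (hm : 0 < m) (t : ℕ) (μ : ℝ)
    (hμ : 4 * (A * A') + A ≤ μ) (T : ℕ) (hT : hi + hi' ≤ T) :
    pr P {ω | ¬ N1 ((win (V ω) s).image fun v => m * v) ((win (V ω) s').image fun v => m * v)
      (5 * t)} ≤ (T : ℝ) * (μ ^ t / (t.factorial : ℝ)) := by
  refine le_trans (pr_mono P hP ?_) (hits1_prob P hP V p hp0 hind hA hA' hp hp' hV hV' h1 h1' t μ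
    hμ T hT)
  intro ω hω
  by_contra hcon
  refine hω (N1_of_hits1 hm fun n => ?_)
  by_contra h3
  push Not at h3
  exact hcon ⟨n, h3⟩

end

end Pool.Agent.Helper57.T5
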