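import Pool.Agent.Helper57.T5.Tower
import Pool.Agent.Helper22.HW.Static

/-!
# Block R: labels of the level 1 and reduction to the local system of the finest common front

The codes `c`, `c'` of the label level have the components `Lg + ρ` modulo `p i ^ e i`, where
`NN p e` is the common front; `NN p b` is the modulus of the lower state, only the family `g` moves.
-/

set_option autoImplicit false

namespace Pool.Agent.Helper57.T5

open Finset Pool.Agent.Helper22.HW Pool.Agent.Helper27.T4 Pool.Agent.Helper3.T4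

theorem div_modEq {m D u v : ℕ} (h : u ≡ v [MOD m * D]) : u / m ≡ v / m [MOD D] := by
  have h1 : u / m % D = v / m % D := by
    rw [← Nat.mod_mul_right_div_self u m D, ← Nat.mod_mul_right_div_self v m D]
    rw [h]
  exact h1

theorem exists_inv_coprime {L p : ℕ} (k : ℕ) (hp : p.Prime) (h : L.Coprime p) :
    ∃ Qi : ℕ, Qi.Coprime p ∧ L * Qi ≡ 1 [MOD p ^ k] := by
  have hco : L.Coprime (p ^ (k + 1)) := Nat.Coprime.pow_right _ h
  have h1 : 1 < p ^ (k + 1) := Nat.one_lt_pow (by omega) hp.one_lt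
  obtain ⟨Qi, hlt, hQi⟩ := Nat.exists_mul_mod_eq_one_of_coprime hco h1
  have h2 : L * Qi ≡ 1 [MOD p ^ (k + 1)] := by
    rw [Nat.ModEq, hQi, Nat.mod_eq_of_lt h1]
  refine ⟨Qi, ?_, h2.of_dvd (pow_dvd_pow p (by omega))⟩
  have h3 : L * Qi ≡ 1 [MOD p] := h2.of_dvd (dvd_pow_self p (by omega))
  have h4 : (L * Qi).Coprime p := by
    rw [Nat.coprime_iff_gcd_eq_one, Nat.ModEq.gcd_eq h3]
    simp
  exact Nat.Coprime.coprime_mul_left h4

section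

variable {ι : Type*} [Fintype ι] [DecidableEq ι] {p : ι → ℕ}

/-- the type of a pair of the label level -/
def ty1 (p : ι → ℕ) (rk : ι → ℕ) (g : ι) (b : ι → ℕ) (q : (ι → ℕ) × (ι → ℕ)) : ι → ℕ × ℕ :=
  Phi rk g (p g ^ (b g + 1)) (zp q.1 q.2)

/-- the label of a pair -/
def lab1 (p : ι → ℕ) (g : ι) (b : ι → ℕ) (q : (ι → ℕ) × (ι → ℕ)) : ℕ :=
  (q.1 g * q.2 g) / p g ^ (b g + 1)

/-- the codes modulo the common front -/
theorem code_modEq (hp : ∀ i, (p i).Prime) (hinj : Function.Injective p) (e : ι → ℕ)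
    (ρ : ∀ i, (ι → ℕ) → ZMod (p i ^ e i)) (X : Finset (ι → ℕ)) (c : (ι → ℕ) → ℕ)
    (hcode : ∀ x ∈ X, ∀ i, ((c x : ℕ) : ZMod (p i ^ e i)) = Lg (p i) (e i) (x i) + ρ i x)
    (x : ι → ℕ) (hx : x ∈ X) : c x ≡ lc hp hinj 1 e ρ x [MOD NN p e] := by
  rw [← ZMod.natCast_eq_natCast_iff, natCast_eq_iff hp hinj]
  intro i
  rw [hcode x hx i, lc, fc_cast hp hinj 1 (fun i => Nat.coprime_one_left _)]

/-- **The class map of a type is linear.** -/
theorem label_class (hp : ∀ i, (p i).Prime) (hp2 : ∀ i, p i ≠ 2) (hinj : Function.Injective p)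
    (rk : ι → ℕ) (g : ι) (e b : ι → ℕ) (hg : ∀ i, i ≠ g → b i = e i) (hbe : b g ≤ e g)
    (hbe2 : e g ≤ 2 * b g + 1) (he0 : 0 < e g) (ρ ρ' : ∀ i, (ι → ℕ) → ZMod (p i ^ e i))
    (hρ : ∀ i x y, (∀ j, rk j < rk i → x j = y j) → ρ i x = ρ i y)
    (hρ' : ∀ i x y, (∀ j, rk j < rk i → x j = y j) → ρ' i x = ρ' i y)
    (X X' : Finset (ι → ℕ)) (c c' : (ι → ℕ) → ℕ)
    (hX : ∀ x ∈ X, ∀ i, (x i).Coprime (p i)) (hX' : ∀ x ∈ X', ∀ i, (x i).Coprime (p i))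
    (hcode : ∀ x ∈ X, ∀ i, ((c x : ℕ) : ZMod (p i ^ e i)) = Lg (p i) (e i) (x i) + ρ i x)
    (hcode' : ∀ x ∈ X', ∀ i, ((c' x : ℕ) : ZMod (p i ^ e i)) = Lg (p i) (e i) (x i) + ρ' i x)
    (n : ℕ) (θ : ι → ℕ × ℕ) :
    ∃ α E : ℕ, E.Coprime (p g) ∧ ∀ q ∈ X ×ˢ X', c q.1 + c' q.2 ≡ n [MOD NN p b] →
      ty1 p rk g b q = θ →
      (c q.1 + c' q.2) / NN p b ≡ α + E * lab1 p g b q [MOD p g ^ (e g - b g)] := by
  classical
  have hbe' : ∀ i, b i ≤ e i := by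
    intro i
    by_cases hi : i = g
    · subst hi; exact hbe
    · rw [hg i hi]
  have hNb := NN_pos hp b
  by_cases hex : ∃ q ∈ X ×ˢ X', c q.1 + c' q.2 ≡ n [MOD NN p b] ∧ ty1 p rk g b q = θ
  swap
  · refine ⟨0, 1, Nat.coprime_one_left _, fun q hq h1 h2 => absurd ⟨q, hq, h1, h2⟩ hex⟩
  obtain ⟨q₀, hq₀, hn₀, hθ₀⟩ := hex
  rw [mem_product] at hq₀
  obtain ⟨R, α, E, hE, hlab⟩ := label_exists hp hp2 hinj 1 (fun i => Nat.coprime_one_left _) rk g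
    e b hg hbe hbe2 he0 ρ ρ' (hρ g) (hρ' g) n q₀.1 q₀.2 (hX _ hq₀.1 g) (hX' _ hq₀.2 g)
  refine ⟨R / NN p b + α, E, hE, ?_⟩
  rintro ⟨x, x'⟩ hq hn hθ
  rw [mem_product] at hq
  have m1 := code_modEq hp hinj e ρ X c hcode x hq.1
  have m2 := code_modEq hp hinj e ρ' X' c' hcode' x' hq.2
  have m3 : c x + c' x' ≡ lc hp hinj 1 e ρ x + lc hp hinj 1 e ρ' x' [MOD NN p e] := m1.add m2
  have hdvd : NN p b ∣ NN p e := NN_dvd p hbe'
  have hres : ∀ i, (lc hp hinj 1 e ρ x + lc hp hinj 1 e ρ' x') ≡ n [MOD p i ^ b i] := by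
    intro i
    exact ((m3.of_dvd hdvd).symm.trans hn).of_dvd (pow_dvd_NN p b i)
  have hphi : Phi rk g (p g ^ (b g + 1)) (zp x x') = Phi rk g (p g ^ (b g + 1)) (zp q₀.1 q₀.2) :=
    hθ.trans hθ₀.symm
  obtain ⟨κ, hκ, hsum⟩ := hlab x x' (hX _ hq.1 g) (hX' _ hq.2 g) hres hphi
  set D := p g ^ (e g - b g) with hD
  have hsplit : NN p e = NN p b * D := NN_split p e b g hg hbe
  set lb := (x g * x' g) / p g ^ (b g + 1) with hlb
  have m4 : c x + c' x' ≡ R + NN p b * (α + E * lb) [MOD NN p b * D] := by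
    rw [← hsplit]
    refine m3.trans ?_
    rw [hsum, hsplit]
    have h1 : 1 * R + 1 * NN p b * ((α + E * lb) % D + κ * D)
        = R + NN p b * ((α + E * lb) % D) + (NN p b * D) * κ := by ring
    rw [h1]
    have h2 : R + NN p b * ((α + E * lb) % D) + (NN p b * D) * κ
        ≡ R + NN p b * ((α + E * lb) % D) + 0 [MOD NN p b * D] :=
      Nat.ModEq.add_left _ ((Nat.modEq_zero_iff_dvd).2 (dvd_mul_right _ _))
    refine h2.trans ?_
    rw [add_zero]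
    exact Nat.ModEq.add_left _ (Nat.ModEq.mul_left' _ (Nat.mod_modEq _ _))
  have m5 := div_modEq m4
  rw [Nat.add_mul_div_left _ _ hNb] at m5
  have h3 : R / NN p b + (α + E * lb) = R / NN p b + α + E * lab1 p g b (x, x') := by
    rw [lab1]; ring
  rw [h3] at m5
  exact m5

/-- the conditions modulo the modulus of the lower state -/
theorem code_b (hp : ∀ i, (p i).Prime) (hp2 : ∀ i, p i ≠ 2) (e b : ι → ℕ)
    (hbe : ∀ i, b i ≤ e i) (ρ : ∀ i, (ι → ℕ) → ZMod (p i ^ e i)) (X : Finset (ι → ℕ))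
    (c : (ι → ℕ) → ℕ) (hX : ∀ x ∈ X, ∀ i, (x i).Coprime (p i))
    (hcode : ∀ x ∈ X, ∀ i, ((c x : ℕ) : ZMod (p i ^ e i)) = Lg (p i) (e i) (x i) + ρ i x)
    (x : ι → ℕ) (hx : x ∈ X) (i : ι) : ((c x : ℕ) : ZMod (p i ^ b i)) = Lg (p i) (b i) (x i) +
      ZMod.castHom (pow_dvd_pow (p i) (hbe i)) (ZMod (p i ^ b i)) (ρ i x) := by
  have h := congrArg (ZMod.castHom (pow_dvd_pow (p i) (hbe i)) (ZMod (p i ^ b i))) (hcode x hx i)
  rw [map_natCast, map_add, Lg_red (hp i) (hp2 i) _ _ _ (hX x hx i) (hbe i)] at h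
  exact h

/-- number of types -/
theorem card_types (hp : ∀ i, (p i).Prime) (hp2 : ∀ i, p i ≠ 2)
    (rk : ι → ℕ) (g : ι) (e b A : ι → ℕ) (hbe : ∀ i, b i ≤ e i) (hA : ∀ i, i ≠ g → A i = b i)
    (ρ ρ' : ∀ i, (ι → ℕ) → ZMod (p i ^ e i))
    (hρ : ∀ i x y, (∀ j, rk j < rk i → x j = y j) → ρ i x = ρ i y)
    (hρ' : ∀ i x y, (∀ j, rk j < rk i → x j = y j) → ρ' i x = ρ' i y)
    (X X' : Finset (ι → ℕ)) (hX : Adm p A X) (hX' : Adm p b X') (c c' : (ι → ℕ) → ℕ)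
    (hcode : ∀ x ∈ X, ∀ i, ((c x : ℕ) : ZMod (p i ^ e i)) = Lg (p i) (e i) (x i) + ρ i x)
    (hcode' : ∀ x ∈ X', ∀ i, ((c' x : ℕ) : ZMod (p i ^ e i)) = Lg (p i) (e i) (x i) + ρ' i x)
    (n : ℕ) :
    (((X ×ˢ X').filter (fun q => c q.1 + c' q.2 ≡ n [MOD NN p b])).image
      (ty1 p rk g b)).card ≤ ∏ i, (2 * (p i - 1)) := by
  classical
  set σ : ∀ i, (ι → ℕ) → ZMod (p i ^ b i) := fun i x =>
    ZMod.castHom (pow_dvd_pow (p i) (hbe i)) (ZMod (p i ^ b i)) (ρ i x) with hσ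
  set σ' : ∀ i, (ι → ℕ) → ZMod (p i ^ b i) := fun i x =>
    ZMod.castHom (pow_dvd_pow (p i) (hbe i)) (ZMod (p i ^ b i)) (ρ' i x) with hσ'
  have hσr : ∀ i x y, (∀ j, rk j < rk i → x j = y j) → σ i x = σ i y := fun i x y h => by
    simp only [hσ]; rw [hρ i x y h]
  have hσr' : ∀ i x y, (∀ j, rk j < rk i → x j = y j) → σ' i x = σ' i y := fun i x y h => by
    simp only [hσ']; rw [hρ' i x y h]
  set S := ((X ×ˢ X').filter (fun q => c q.1 + c' q.2 ≡ n [MOD NN p b])).image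
    (fun q => zp q.1 q.2) with hS
  have h1 : ((X ×ˢ X').filter (fun q => c q.1 + c' q.2 ≡ n [MOD NN p b])).image
      (ty1 p rk g b) = S.image (Phi rk g (p g ^ (b g + 1))) := by
    rw [hS, image_image]
    rfl
  rw [h1]
  refine card_Phi_le hp hp2 b rk g σ σ' hσr hσr' (fun i => ((n : ℕ) : ZMod (p i ^ b i))) S ?_
  intro w hw i
  rw [hS, mem_image] at hw
  obtain ⟨⟨x, x'⟩, hq, rfl⟩ := hw
  rw [mem_filter, mem_product] at hq
  obtain ⟨⟨hx, hx'⟩, hn⟩ := hq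
  obtain ⟨p1, p2, p3⟩ := hX x hx i
  obtain ⟨p1', p2', p3'⟩ := hX' x' hx' i
  refine ⟨p1, p1', p2, p2', ?_, ?_⟩
  · intro hi
    have h2 := prod_lt_of_adm hp hX hX' hx hx' i
    rw [hA i hi, max_self, min_self, Nat.sub_self, Nat.zero_div, pow_zero, Nat.lt_one_iff,
      Nat.div_eq_zero_iff] at h2
    rcases h2 with h2 | h2
    · exact absurd h2 (pow_pos (hp i).pos _).ne'
    · exact h2
  · have h3 := (ZMod.natCast_eq_natCast_iff _ _ _).2 (hn.of_dvd (pow_dvd_NN p b i))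
    rw [Nat.cast_add, code_b hp hp2 e b hbe ρ X c (fun x hx i => (hX x hx i).2.1) hcode x hx i,
      code_b hp hp2 e b hbe ρ' X' c' (fun x hx i => (hX' x hx i).2.1) hcode' x' hx' i] at h3
    exact h3

/-- number of pairs with given label -/
theorem card_pairs_label (hp : ∀ i, (p i).Prime) (hp2 : ∀ i, p i ≠ 2)
    (rk : ι → ℕ) (g : ι) (e b A : ι → ℕ) (hbe : ∀ i, b i ≤ e i) (hA : ∀ i, i ≠ g → A i = b i)
    (ρ ρ' : ∀ i, (ι → ℕ) → ZMod (p i ^ e i))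
    (hρ : ∀ i x y, (∀ j, rk j < rk i → x j = y j) → ρ i x = ρ i y)
    (hρ' : ∀ i x y, (∀ j, rk j < rk i → x j = y j) → ρ' i x = ρ' i y)
    (X X' : Finset (ι → ℕ)) (hX : Adm p A X) (hX' : Adm p b X') (c c' : (ι → ℕ) → ℕ)
    (hcode : ∀ x ∈ X, ∀ i, ((c x : ℕ) : ZMod (p i ^ e i)) = Lg (p i) (e i) (x i) + ρ i x)
    (hcode' : ∀ x ∈ X', ∀ i, ((c' x : ℕ) : ZMod (p i ^ e i)) = Lg (p i) (e i) (x i) + ρ' i x)
    (n k : ℕ) (S : Finset ((ι → ℕ) × (ι → ℕ)))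
    (hS : ∀ q ∈ S, q ∈ X ×ˢ X' ∧ c q.1 + c' q.2 ≡ n [MOD NN p b] ∧ lab1 p g b q = k) :
    S.card ≤ ∏ i, (2 * (p i - 1)) := by
  classical
  set σ : ∀ i, (ι → ℕ) → ZMod (p i ^ b i) := fun i x =>
    ZMod.castHom (pow_dvd_pow (p i) (hbe i)) (ZMod (p i ^ b i)) (ρ i x) with hσ
  set σ' : ∀ i, (ι → ℕ) → ZMod (p i ^ b i) := fun i x =>
    ZMod.castHom (pow_dvd_pow (p i) (hbe i)) (ZMod (p i ^ b i)) (ρ' i x) with hσ'
  have hσr : ∀ i x y, (∀ j, rk j < rk i → x j = y j) → σ i x = σ i y := fun i x y h => by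
    simp only [hσ]; rw [hρ i x y h]
  have hσr' : ∀ i x y, (∀ j, rk j < rk i → x j = y j) → σ' i x = σ' i y := fun i x y h => by
    simp only [hσ']; rw [hρ' i x y h]
  have hinj2 : Set.InjOn (fun q : (ι → ℕ) × (ι → ℕ) => zp q.1 q.2) (S : Set _) := by
    intro q _ q' _ h
    refine Prod.ext (funext fun i => ?_) (funext fun i => ?_)
    · exact congrArg Prod.fst (congrFun h i)
    · exact congrArg Prod.snd (congrFun h i)
  rw [← card_image_of_injOn hinj2]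
  refine card_code_pairs_quot hp hp2 b rk σ σ' hσr hσr' (fun i => ((n : ℕ) : ZMod (p i ^ b i)))
    (fun i => if i = g then k else 0) _ ?_
  intro w hw i
  rw [mem_image] at hw
  obtain ⟨⟨x, x'⟩, hq, rfl⟩ := hw
  obtain ⟨hq1, hn, hk⟩ := hS _ hq
  rw [mem_product] at hq1
  obtain ⟨hx, hx'⟩ := hq1
  obtain ⟨p1, p2, p3⟩ := hX x hx i
  obtain ⟨p1', p2', p3'⟩ := hX' x' hx' i
  refine ⟨p1, p1', p2, p2', ?_, ?_⟩
  · by_cases hi : i = g
    · subst hi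
      rw [if_pos rfl, ← hk]
      rfl
    · rw [if_neg hi]
      have h2 := prod_lt_of_adm hp hX hX' hx hx' i
      rw [hA i hi, max_self, min_self, Nat.sub_self, Nat.zero_div, pow_zero, Nat.lt_one_iff] at h2
      exact h2
  · have h3 := (ZMod.natCast_eq_natCast_iff _ _ _).2 (hn.of_dvd (pow_dvd_NN p b i))
    rw [Nat.cast_add, code_b hp hp2 e b hbe ρ X c (fun x hx i => (hX x hx i).2.1) hcode x hx i,
      code_b hp hp2 e b hbe ρ' X' c' (fun x hx i => (hX' x hx i).2.1) hcode' x' hx' i] at h3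
    exact h3

/-- **Block R.**  A pair of states with the common front `NN p e = F r = F' r`; only the family `g`
of the label level moves.  If the local system of the windows `U`, `U'` has at most `R` solutions
for every linear class map, the pair of scales has at most `C R` representations. -/
theorem R_block {β : Type*} [DecidableEq β] (hp : ∀ i, (p i).Prime) (hp2 : ∀ i, p i ≠ 2)
    (hinj : Function.Injective p) (rk : ι → ℕ) (g : ι) (e b A : ι → ℕ)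
    (hg : ∀ i, i ≠ g → b i = e i) (hbe : b g ≤ e g)
    (hbe2 : e g ≤ 2 * b g + 1) (he0 : 0 < e g) (hA : ∀ i, i ≠ g → A i = b i) (hAg : b g ≤ A g)
    (ρ ρ' : ∀ i, (ι → ℕ) → ZMod (p i ^ e i))
    (hρ : ∀ i x y, (∀ j, rk j < rk i → x j = y j) → ρ i x = ρ i y)
    (hρ' : ∀ i x y, (∀ j, rk j < rk i → x j = y j) → ρ' i x = ρ' i y)
    (X X' : Finset (ι → ℕ)) (hX : Adm p A X) (hX' : Adm p b X') (c c' : (ι → ℕ) → ℕ)
    (hcode : ∀ x ∈ X, ∀ i, ((c x : ℕ) : ZMod (p i ^ e i)) = Lg (p i) (e i) (x i) + ρ i x)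
    (hcode' : ∀ x ∈ X', ∀ i, ((c' x : ℕ) : ZMod (p i ^ e i)) = Lg (p i) (e i) (x i) + ρ' i x)
    (r : ℕ) (Y Y' : ℕ → Finset β) (cc cc' : ℕ → β → ℕ)
    (Q Cd : ℕ → ℕ) (F F' : ℕ → ℕ) (U U' : Finset ℕ) {I R : ℕ} (n : ℕ)
    (hQ : ∀ t < r, 0 < Q t) (hcop : (LL Q r).Coprime (p g))
    (hFr : F r = NN p e) (hFr' : F' r = NN p e)
    (hF : ∀ t ≤ r, NN p e ∣ F t) (hF' : ∀ t ≤ r, NN p e ∣ F' t)
    (hFB : ∀ t < r, 2 * (F t * LL Q t) ≤ F (t + 1) * LL Q (t + 1))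
    (hFB' : ∀ t < r, 2 * (F' t * LL Q t) ≤ F' (t + 1) * LL Q (t + 1))
    (hc : ∀ x ∈ X, c x < F 0) (hc' : ∀ x ∈ X', c' x < F' 0)
    (hcc : ∀ t < r, ∀ y ∈ Y t, cc t y < F (t + 1) * LL Q (t + 1))
    (hcc' : ∀ t < r, ∀ y ∈ Y' t, cc' t y < F' (t + 1) * LL Q (t + 1))
    (hd : ∀ t < r, ∀ y ∈ Y t, F (t + 1) * LL Q t ∣ cc t y)
    (hd' : ∀ t < r, ∀ y ∈ Y' t, F' (t + 1) * LL Q t ∣ cc' t y)
    (hdec : ∀ t < r, Dec (Y t) (Y' t) (cc t) (cc' t) (Q t) (Cd t))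
    (hI : p g ^ ((A g - b g) / 2) ≤ I)
    (hU : ∀ u ∈ U, NN p b * LL Q r ∣ u) (hU' : ∀ u ∈ U', NN p b * LL Q r ∣ u)
    (hR : ∀ α E N : ℕ, E.Coprime (p g) → ∀ κ₂ < 4, cN U U' I (NN p b * LL Q r)
      (p g ^ (e g - b g)) (fun i => α + E * i) κ₂ (NN p b * LL Q r * N) ≤ R) :
    ((scaleSet X c r Y cc U ×ˢ scaleSet X' c' r Y' cc' U').filter
      (fun a => a.1 + a.2 = n)).card ≤ (∏ i, (2 * (p i - 1))) *
        (((∏ i, (2 * (p i - 1))) * ∏ t ∈ range r, Cd t) * (4 * R)) := by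
  classical
  have hbe' : ∀ i, b i ≤ e i := by
    intro i
    by_cases hi : i = g
    · subst hi; exact hbe
    · rw [hg i hi]
  have hNb := NN_pos hp b
  have hD : 0 < p g ^ (e g - b g) := pow_pos (hp g).pos _
  have hsplit : NN p e = NN p b * p g ^ (e g - b g) := NN_split p e b g hg hbe
  obtain ⟨Qi, hQic, hQi⟩ := exists_inv_coprime (e g - b g) (hp g) hcop
  choose α E hE hcl using fun θ => label_class hp hp2 hinj rk g e b hg hbe hbe2 he0 ρ ρ' hρ hρ'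
    X X' c c' (fun x hx i => (hX x hx i).2.1) (fun x hx i => (hX' x hx i).2.1) hcode hcode' n θ
  refine le_trans (scale_pair_card_ty (R := R) (I := I) (C₁ := ∏ i, (2 * (p i - 1)))
    (D₂ := p g ^ (e g - b g)) (m := NN p b) (n := n) (Qi := Qi)
    X X' c c' r Y Y' cc cc' Q Cd F F' U U'
    (((X ×ˢ X').filter (fun q => c q.1 + c' q.2 ≡ n [MOD NN p b])).image (ty1 p rk g b))
    (ty1 p rk g b) (fun θ i => α θ + E θ * i) (lab1 p g b) hNb hQ hD hQi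
    (by rw [hFr, hsplit]) (by rw [hFr', hsplit]) (by rw [← hsplit]; exact hF)
    (by rw [← hsplit]; exact hF') hFB hFB' hc hc' hcc hcc' hd hd' hdec ?_ ?_ hU hU' ?_)
    (Nat.mul_le_mul_right _ (card_types hp hp2 rk g e b A hbe' hA ρ ρ' hρ hρ' X X' hX hX' c c'
      hcode hcode' n))
  · intro q hq hn
    refine ⟨mem_image.2 ⟨q, mem_filter.2 ⟨hq, hn⟩, rfl⟩, ?_, hcl _ q hq hn rfl⟩
    rw [mem_product] at hq
    have h2 := prod_lt_of_adm hp hX hX' hq.1 hq.2 g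
    rw [max_eq_left hAg, min_eq_right hAg] at h2
    exact h2.trans_le hI
  · intro θ i
    refine card_pairs_label hp hp2 rk g e b A hbe' hA ρ ρ' hρ hρ' X X' hX hX' c c'
      hcode hcode' n i _ ?_
    intro q hq
    rw [mem_filter] at hq
    exact ⟨hq.1, hq.2.1, hq.2.2.2⟩
  · intro θ _ κ₂ hκ
    have h1 : (fun i => Qi * (α θ + E θ * i + (p g ^ (e g - b g) - 1) * (n / NN p b % LL Q r)))
        = (fun i => Qi * (α θ + (p g ^ (e g - b g) - 1) * (n / NN p b % LL Q r))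
          + (Qi * E θ) * i) := by
      funext i; ring
    rw [h1]
    exact hR _ _ _ (Nat.Coprime.mul_left hQic (hE θ)) κ₂ hκ

end

end Pool.Agent.Helper57.T5
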