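import Pool.Agent.Helper57.T5.Inner
import Pool.Agent.Helper42.T5.Pr
import Pool.Agent.Helper50.T5.Win

/-!
# From the weighted space to uniform keys: windows with one element in each block

Two states are indexed by `Bool` (`false` = upper state, `true` = lower state).  The key of the
block number `b` of level `L` of the state `s` is `bk s L b`.
-/

set_option autoImplicit false

namespace Pool.Agent.Helper57.T5

open Finset Pool.Agent.Helper1.ET4 Pool.Agent.Helper42.T5.Pr Pool.Agent.Helper50.T5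
  Pool.Agent.Helper57.T4

section

variable {κ : Type*} [DecidableEq κ] {M : κ → ℕ}

/-- the finite space of the keys -/
abbrev Sp (M : κ → ℕ) (K : Finset κ) : Type _ := {r : K → ℕ // r ∈ OmK M K}

/-- the uniform weight -/
noncomputable def un (M : κ → ℕ) (K : Finset κ) : Sp M K → ℝ := fun _ => ((OmK M K).card : ℝ)⁻¹

theorem un_nonneg (M : κ → ℕ) (K : Finset κ) (ω : Sp M K) : 0 ≤ un M K ω := by
  unfold un; positivity

open Classical in
theorem pr_un (M : κ → ℕ) (K : Finset κ) (B : (κ → ℕ) → Prop) :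
    pr (un M K) {ω | B (ext K ω.1)} =
      ((OmK M K).card : ℝ)⁻¹ * (((OmK M K).filter (fun r => B (ext K r))).card : ℝ) := by
  rw [pr_eq_sum]
  unfold un
  rw [← Finset.mul_sum]
  congr 1
  rw [Finset.sum_ite, Finset.sum_const_zero, add_zero, Finset.sum_const, nsmul_eq_mul, mul_one]
  congr 1
  refine Finset.card_bij (fun ω _ => ω.1) ?_ ?_ ?_
  · intro ω hω
    rw [mem_filter] at hω
    exact mem_filter.2 ⟨ω.2, hω.2⟩
  · intro ω _ ω' _ h
    exact Subtype.ext h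
  · intro r hr
    rw [mem_filter] at hr
    exact ⟨⟨r, hr.1⟩, mem_filter.2 ⟨mem_univ _, hr.2⟩, rfl⟩

theorem PrLe_of_pr (hM : ∀ k, 0 < M k) {K : Finset κ} {B : (κ → ℕ) → Prop} {ε : ℝ}
    (h : pr (un M K) {ω | B (ext K ω.1)} ≤ ε) : PrLe M K B ε := by
  classical
  rw [pr_un] at h
  have h0 := card_OmK_pos hM K
  unfold PrLe
  rw [inv_mul_le_iff₀ h0] at h
  refine le_trans (le_of_eq ?_) (h.trans (le_of_eq (mul_comm _ _)))
  congr!

theorem pr_of_PrLe (hM : ∀ k, 0 < M k) {K : Finset κ} {B : (κ → ℕ) → Prop} {ε : ℝ}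
    (h : PrLe M K B ε) : pr (un M K) {ω | B (ext K ω.1)} ≤ ε := by
  classical
  rw [pr_un]
  have h0 := card_OmK_pos hM K
  rw [inv_mul_le_iff₀ h0, mul_comm]
  unfold PrLe at h
  refine le_trans (le_of_eq ?_) h
  congr!

/-- the data of the windows of a pair of states -/
structure WinD (M : κ → ℕ) (K : Finset κ) (lo hi : Bool → ℕ) (bk : Bool → ℕ → ℕ → κ) :
    Prop where
  inj : ∀ s L b s' L' b', bk s L b = bk s' L' b' → s = s' ∧ L = L' ∧ b = b'
  val : ∀ s L b, M (bk s L b) = 2 ^ L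
  mem : ∀ s, ∀ v ∈ Ico (lo s) (hi s), bk s (lev v) (v / 2 ^ lev v) ∈ K

/-- the window of a state -/
def Wd (lo hi : Bool → ℕ) (bk : Bool → ℕ → ℕ → κ) (w : κ → ℕ) (s : Bool) : Finset ℕ :=
  VW (lo s) (hi s) (fun L b => w (bk s L b))

/-- both windows -/
def VVs (lo hi : Bool → ℕ) (bk : Bool → ℕ → ℕ → κ) (w : κ → ℕ) : Finset (Bool × ℕ) :=
  (univ : Finset Bool).biUnion (fun s => (Wd lo hi bk w s).image (fun v => (s, v)))

omit [DecidableEq κ] in
theorem mem_VVs {lo hi : Bool → ℕ} {bk : Bool → ℕ → ℕ → κ} {w : κ → ℕ} {q : Bool × ℕ} :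
    q ∈ VVs lo hi bk w ↔ q.2 ∈ Wd lo hi bk w q.1 := by
  unfold VVs
  rw [mem_biUnion]
  constructor
  · rintro ⟨s, _, h⟩
    rw [mem_image] at h
    obtain ⟨v, hv, rfl⟩ := h
    exact hv
  · intro h
    exact ⟨q.1, mem_univ _, mem_image.2 ⟨q.2, h, rfl⟩⟩

omit [DecidableEq κ] in
theorem win_VVs (lo hi : Bool → ℕ) (bk : Bool → ℕ → ℕ → κ) (w : κ → ℕ) (s : Bool) :
    win (VVs lo hi bk w) s = Wd lo hi bk w s := by
  ext v
  rw [mem_win, mem_VVs]

omit [DecidableEq κ] in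
theorem Wd_sub (lo hi : Bool → ℕ) (bk : Bool → ℕ → ℕ → κ) (w : κ → ℕ) (s : Bool) :
    Wd lo hi bk w s ⊆ Ico (lo s) (hi s) := filter_subset _ _

/-- independence -/
theorem hind_VVs (hM : ∀ k, 0 < M k) {K : Finset κ} {lo hi : Bool → ℕ} {bk : Bool → ℕ → ℕ → κ}
    (h : WinD M K lo hi bk) (T : Finset (Bool × ℕ)) :
    pr (un M K) {ω | T ⊆ VVs lo hi bk (ext K ω.1)} ≤ ∏ q ∈ T, wl q.2 := by
  classical
  have hp : (0 : ℝ) ≤ ∏ q ∈ T, wl q.2 := Finset.prod_nonneg fun q _ => (wl_pos _).le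
  set φ : Bool × ℕ → κ := fun q => bk q.1 (lev q.2) (q.2 / 2 ^ lev q.2) with hφ
  by_cases hall : (∀ q ∈ T, q.2 ∈ Ico (lo q.1) (hi q.1)) ∧
    ∀ q ∈ T, ∀ q' ∈ T, φ q = φ q' → q = q'
  swap
  · -- impossible
    have hemp : {ω : Sp M K | T ⊆ VVs lo hi bk (ext K ω.1)} = ∅ := by
      rw [Set.eq_empty_iff_forall_notMem]
      intro ω hω
      apply hall
      refine ⟨fun q hq => Wd_sub _ _ _ _ _ (mem_VVs.1 (hω hq)), ?_⟩
      intro q hq q' hq' hqq
      have h1 := mem_VVs.1 (hω hq)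
      have h2 := mem_VVs.1 (hω hq')
      unfold Wd VW at h1 h2
      rw [mem_filter] at h1 h2
      obtain ⟨e1, e2, e3⟩ := h.inj _ _ _ _ _ _ hqq
      refine Prod.ext e1 ?_
      have h3 := Nat.div_add_mod q.2 (2 ^ lev q.2)
      have h4 := Nat.div_add_mod q'.2 (2 ^ lev q'.2)
      rw [h1.2] at h3
      rw [h2.2] at h4
      rw [← h3, ← h4, e1, e2]
      rw [e2] at e3
      rw [e3]
    rw [hemp]
    unfold pr
    simp only [Set.indicator_empty]
    rw [Finset.sum_const_zero]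
    exact hp
  obtain ⟨hT, hinj⟩ := hall
  have hSK : T.image φ ⊆ K := by
    intro k hk
    rw [mem_image] at hk
    obtain ⟨q, hq, rfl⟩ := hk
    exact h.mem _ _ (hT q hq)
  -- the prescribed values
  set val : κ → ℕ := fun k => if hk : ∃ q ∈ T, φ q = k then
    (Classical.choose hk).2 % 2 ^ lev (Classical.choose hk).2 else 0 with hval
  have hval' : ∀ q ∈ T, val (φ q) = q.2 % 2 ^ lev q.2 := by
    intro q hq
    have hk : ∃ q' ∈ T, φ q' = φ q := ⟨q, hq, rfl⟩
    simp only [hval]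
    rw [dif_pos hk]
    have h1 := Classical.choose_spec hk
    rw [hinj _ h1.1 q hq h1.2]
  refine (pr_mono _ (un_nonneg M K) ?_).trans
    ((pr_of_PrLe hM (PrLe_pin hM hSK val)).trans (le_of_eq ?_))
  · intro ω hω
    simp only [Set.mem_ofPred_eq]
    intro k hk
    rw [mem_image] at hk
    obtain ⟨q, hq, rfl⟩ := hk
    rw [hval' q hq]
    have h1 := mem_VVs.1 (hω hq)
    unfold Wd VW at h1
    rw [mem_filter] at h1
    exact h1.2.symm
  · rw [Finset.prod_image hinj]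
    refine Finset.prod_congr rfl (fun q _ => ?_)
    simp only [hφ]
    rw [h.val, wl]
    push_cast
    rfl

end

end Pool.Agent.Helper57.T5
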