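import Pool.Agent.Helper57.T5.BotStmt

/-!
# T5a (MP_12a1af): the leaf of the random windows
-/

set_option autoImplicit false

namespace Pool.Agent.Helper57.T5

open Finset
open Pool.Agent.Helper5.ET (bb era cnt av Nj pr pr_prime pr_inj)
open Pool.Agent.Helper27.T4 (fam)
open Pool.Agent.Helper27.T5 Pool.Agent.Helper11.T5 Pool.Agent.Helper42.T5.Pr
open Pool.Agent.Helper30.T5 (Lp Lp_pos)
open Pool.Agent.Helper22.HW (cN)

/-- the pairs of window elements with a given sum -/
noncomputable def vpairs (m k l l' : ℕ) (w : Key → ℕ) (n : ℕ) : Finset (ℕ × ℕ) :=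
  (Vw m k l w ×ˢ Vw m k l' w).filter (fun q =>
    Nj l * LA m k (era l) * q.1 + Nj l' * LA m k (era l) * q.2 = n)

/-- large quotient: at most `vhi l' / q + 1` pairs -/
theorem vpairs_det {m k l l' : ℕ} (hl : l' ≤ l) (he : era l' = era l) (w : Key → ℕ) (n : ℕ)
    (h : vhi m k l' ≤ 1000037 * pr (fam (era l)) ^ (l - l')) :
    (vpairs m k l l' w n).card ≤ 1000038 := by
  classical
  set q := pr (fam (era l)) ^ (l - l') with hq
  have hq0 : 0 < q := Nat.pow_pos (pr_prime _).pos
  have hNl : Nj l = Nj l' * q := Nj_era hl he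
  have hM : 0 < Nj l' * LA m k (era l) := Nat.mul_pos (Nj_pos1 _) (LA_pos _ _ _)
  set M := Nj l' * LA m k (era l) with hMdef
  rcases Finset.eq_empty_or_nonempty (vpairs m k l l' w n) with h0 | ⟨x0, hx0⟩
  · rw [h0]; simp
  have hform : ∀ x ∈ vpairs m k l l' w n, q * x.1 + x.2 = n / M ∧ x.2 < 1000037 * q := by
    intro x hx
    unfold vpairs at hx
    rw [mem_filter, mem_product] at hx
    obtain ⟨⟨h1, h2⟩, h3⟩ := hx
    have h4 : n = M * (q * x.1 + x.2) := by
      rw [← h3, hNl, hMdef]
      ring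
    refine ⟨?_, (lt_of_mem_Vw h2).2.trans_le h⟩
    rw [h4, Nat.mul_div_cancel_left _ hM]
  set N := n / M with hN
  refine le_trans (card_le_card_of_injOn (t := Ico (N / q - 1000037) (N / q + 1))
    (fun x => x.1) ?_ ?_) ?_
  · intro x hx
    obtain ⟨h1, h2⟩ := hform x hx
    rw [mem_coe, mem_Ico]
    have h3 : x.1 ≤ N / q := by
      rw [Nat.le_div_iff_mul_le hq0, mul_comm]
      omega
    have h4 : N / q < x.1 + 1000037 := by
      rw [Nat.div_lt_iff_lt_mul hq0]
      calc N = q * x.1 + x.2 := h1.symm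
        _ < q * x.1 + 1000037 * q := by omega
        _ = (x.1 + 1000037) * q := by ring
    show N / q - 1000037 ≤ x.1 ∧ x.1 < N / q + 1
    omega
  · intro x hx y hy hxy
    have h1 := (hform x hx).1
    have h2 := (hform y hy).1
    have h3 : x.1 = y.1 := hxy
    rw [h3] at h1
    exact Prod.ext h3 (by omega)
  · rw [Nat.card_Ico]
    omega

/-- **the leaf of the random windows**, all distances -/
theorem v_leaf (m k : ℕ) (hk : k + 2 ≤ m) : ∃ j0 : ℕ, ∀ l l' : ℕ, j0 ≤ era l →
    used m l → used m l' → l' ≤ l → era l' = era l →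
    ∀ K : Finset Key, BK m k l K → BK m k l' K →
    PrLe (Mk m) K (fun w => ∃ n, 1155 * W m (era l) (k + 1) < (vpairs m k l l' w n).card)
      (2 * Real.exp (-(W m (era l) (k + 1) : ℝ))) := by
  classical
  obtain ⟨j1, h1⟩ := reps_one m k hk
  obtain ⟨j2, h2⟩ := exists_Lastw m k hk
  refine ⟨max j1 j2, fun l l' hj hu hu' hl he K hK hK' => ?_⟩
  have hj1 := le_trans (le_max_left _ _) hj
  have hL := h2 (era l) (le_trans (le_max_right _ _) hj)
  have hbig := hL.big
  set g := fam (era l) with hg
  have hLA := LA_pos m k (era l)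
  set M := Nj l' * LA m k (era l) with hM
  have hM0 : 0 < M := Nat.mul_pos (Nj_pos1 _) hLA
  have hNl : Nj l = Nj l' * pr g ^ (l - l') := Nj_era hl he
  rcases Nat.eq_or_lt_of_le hl with h0 | h0
  · -- one state
    subst h0
    refine PrLe_mono (fun r _ hw => ?_) le_rfl (h1 l' hj1 hu K hK)
    obtain ⟨n, hn⟩ := hw
    refine ⟨n / M, hn.trans_le (card_le_card ?_)⟩
    intro q hq
    unfold vpairs at hq
    rw [mem_filter, mem_product] at hq
    unfold reps
    rw [mem_filter, mem_product]
    refine ⟨hq.1, ?_⟩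
    have h4 : n = M * (q.1 + q.2) := by
      rw [← hq.2, hM]
      ring
    rw [h4, Nat.mul_div_cancel_left _ hM0]
  · by_cases hq : pr g ^ (l - l') ≤ vlo m k (era l)
    · have hpos : 0 < pr g ^ (l - l') := Nat.pow_pos (pr_prime g).pos
      have hbot := bot_gen (K := K) (p := pr g) (D := pr g ^ (l - l')) (I := 1) (M := M) hk hL
        hu hu' h0 he hK hK' hM0 (pr_prime g) dvd_rfl hpos (hq.trans (vlo_le_sq hk hL)) ?_ ?_ hq
      · refine PrLe_mono (fun r _ hw => ?_) le_rfl hbot
        obtain ⟨n, hn⟩ := hw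
        refine ⟨0, 1, n / M, 0, Nat.coprime_one_left _, ?_⟩
        refine lt_of_lt_of_le (lt_of_eq_of_lt (by ring) hn) ?_
        unfold cN
        refine card_le_card_of_injOn (fun q => (0, (M * (pr g ^ (l - l') * q.1), M * q.2))) ?_ ?_
        · intro q hq1
          unfold vpairs at hq1
          rw [mem_coe, mem_filter, mem_product] at hq1
          obtain ⟨⟨a1, a2⟩, a3⟩ := hq1
          rw [mem_coe, mem_filter, mem_product, mem_product]
          simp only [mem_range, Nat.lt_one_iff, true_and]
          refine ⟨⟨mem_image_of_mem _ a1, mem_image_of_mem _ a2⟩, ?_⟩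
          have h4 : n = M * (pr g ^ (l - l') * q.1 + q.2) := by
            rw [← a3, hNl, hM]
            ring
          rw [h4, Nat.mul_div_cancel_left _ hM0]
          simp
          ring
        · intro q _ q' _ h
          simp only [Prod.mk.injEq, true_and] at h
          have b1 := Nat.eq_of_mul_eq_mul_left hpos (Nat.eq_of_mul_eq_mul_left hM0 h.1)
          have b2 := Nat.eq_of_mul_eq_mul_left hM0 h.2
          exact Prod.ext b1 b2
      · rw [one_pow]; exact hpos
      · have : (16 : ℕ) ≤ (10 ^ 6) ^ W m (era l) (k + 1) := by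
          calc 16 ≤ (10 ^ 6) ^ 1 := by norm_num
            _ ≤ _ := Nat.pow_le_pow_right (by norm_num) (by omega)
        simpa using this
    · -- large quotient
      refine PrLe_mono (B := fun _ => False) (ε := 0) (fun r _ hw => ?_) ?_ ?_
      · obtain ⟨n, hn⟩ := hw
        have h5 := Pool.Agent.Helper83.T5.vhi_le (m := m) (k := k)
          (era_succ_used (l := l') (by rw [he]; exact hL.hb) (by omega) hu')
        rw [he] at h5
        have h6 := vpairs_det (m := m) (k := k) hl he (ext K r) n
          (h5.trans (Nat.mul_le_mul_left _ (le_of_lt (not_le.1 hq))))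
        omega
      · exact (by positivity : (0 : ℝ) ≤ 2 * Real.exp (-(W m (era l) (k + 1) : ℝ)))
      · unfold PrLe
        simp

end Pool.Agent.Helper57.T5
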