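import Pool.Agent.Helper57.T5.Inner

/-!
# The lemma for the innermost windows with arbitrary targets

For every context `c` of a finite set `J` and every label `i ∈ L` there is a target `τ c i`;
for fixed `c` the targets of different labels are different modulo `q`.  Then outside a small
probability `#{(i, v, v') : q v + v' = τ c i} ≤ (2 t0 + 1) t` for all contexts.
-/

set_option autoImplicit false

namespace Pool.Agent.Helper57.T5

open Finset Pool.Agent.Helper1.ET4 Pool.Agent.Helper22.HW Pool.Agent.Helper57.T4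

section

variable {ι Λ : Type*} [DecidableEq ι] [DecidableEq Λ]

/-- the hits `(i, v, v')` -/
def hitsT (V V' : Finset ℕ) (L : Finset Λ) (q : ℕ) (τ : Λ → ℕ) : Finset (Λ × ℕ × ℕ) :=
  (L ×ˢ V ×ˢ V').filter (fun x => q * x.2.1 + x.2.2 = τ x.1)

theorem mem_hitsT {V V' : Finset ℕ} {L : Finset Λ} {q : ℕ} {τ : Λ → ℕ} {x : Λ × ℕ × ℕ} :
    x ∈ hitsT V V' L q τ ↔ (x.1 ∈ L ∧ x.2.1 ∈ V ∧ x.2.2 ∈ V') ∧ q * x.2.1 + x.2.2 = τ x.1 := by
  unfold hitsT
  rw [Finset.mem_filter, Finset.mem_product, Finset.mem_product]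

theorem hitsT_mono {V V' W W' : Finset ℕ} (h : V ⊆ W) (h' : V' ⊆ W') (L : Finset Λ) (q : ℕ)
    (τ : Λ → ℕ) : hitsT V V' L q τ ⊆ hitsT W W' L q τ := by
  intro x hx
  have h1 := mem_hitsT.1 hx
  exact mem_hitsT.2 ⟨⟨h1.1.1, h h1.1.2.1, h' h1.1.2.2⟩, h1.2⟩

/-- the two vertices of a hit -/
def suppT (s s' : ι) (x : Λ × ℕ × ℕ) : Finset (ι × ℕ) := {(s, x.2.1), (s', x.2.2)}

omit [DecidableEq Λ] in
theorem mem_suppT {s s' : ι} {x : Λ × ℕ × ℕ} {q : ι × ℕ} :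
    q ∈ suppT s s' x ↔ q = (s, x.2.1) ∨ q = (s', x.2.2) := by
  unfold suppT
  rw [Finset.mem_insert, Finset.mem_singleton]

/-- the mean number of hits -/
theorem mean_hitsT {s s' : ι} (hss : s ≠ s') (p : ι × ℕ → ℝ) (hp0 : ∀ q, 0 ≤ p q) {A A' : ℝ}
    (hA : 0 ≤ A) (hA' : 0 ≤ A') (hp : ∀ v, 1 ≤ v → p (s, v) ≤ A / Real.sqrt v)
    (hp' : ∀ v, 1 ≤ v → p (s', v) ≤ A' / Real.sqrt v) {lo hi lo' hi' : ℕ}
    (L : Finset Λ) (q : ℕ) (τ : Λ → ℕ) (hq : 0 < q) (h1 : 1 ≤ lo) (h2 : q ≤ lo') :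
    ∑ e ∈ hitsT (Ico lo hi) (Ico lo' hi') L q τ, ∏ x ∈ suppT s s' e, p x ≤
      L.card * (4 * (A * A') / Real.sqrt q) := by
  classical
  have hprod : ∀ e : Λ × ℕ × ℕ, ∏ x ∈ suppT s s' e, p x = p (s, e.2.1) * p (s', e.2.2) := by
    intro e
    unfold suppT
    rw [Finset.prod_pair]
    intro h
    exact hss (congrArg Prod.fst h)
  rw [Finset.sum_congr rfl fun e _ => hprod e]
  set H := hitsT (Ico lo hi) (Ico lo' hi') L q τ with hH
  have hfib : ∑ e ∈ H, p (s, e.2.1) * p (s', e.2.2) =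
      ∑ i ∈ L, ∑ e ∈ H.filter (fun e => e.1 = i), p (s, e.2.1) * p (s', e.2.2) := by
    rw [Finset.sum_fiberwise_of_maps_to]
    intro e he
    exact (mem_hitsT.1 he).1.1
  rw [hfib]
  have hone : ∀ i ∈ L, ∑ e ∈ H.filter (fun e => e.1 = i),
        p (s, e.2.1) * p (s', e.2.2) ≤ 4 * (A * A') / Real.sqrt q := by
    intro i _
    set F := H.filter (fun e => e.1 = i) with hF
    set M := τ i with hM
    have hmem : ∀ e ∈ F, e.1 = i ∧ lo ≤ e.2.1 ∧ lo' ≤ e.2.2 ∧ q * e.2.1 + e.2.2 = M := by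
      intro e he
      rw [hF, Finset.mem_filter] at he
      have h3 := mem_hitsT.1 he.1
      rw [he.2] at h3
      exact ⟨he.2, (Finset.mem_Ico.1 h3.1.2.1).1, (Finset.mem_Ico.1 h3.1.2.2).1, h3.2⟩
    have h4 : ∀ e ∈ F, e.2.2 = M - q * e.2.1 ∧ q * e.2.1 + q ≤ M := by
      intro e he
      obtain ⟨_, _, h6, h7⟩ := hmem e he
      constructor <;> omega
    have h5 : ∑ e ∈ F, p (s, e.2.1) * p (s', e.2.2) = ∑ v ∈ F.image (fun e => e.2.1),
        p (s, v) * p (s', M - q * v) := by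
      rw [Finset.sum_image]
      · exact Finset.sum_congr rfl fun e he => by rw [← (h4 e he).1]
      · intro e he e' he' hee
        have h6 := hmem e he
        have h7 := hmem e' he'
        have h8 := (h4 e he).1
        have h9 := (h4 e' he').1
        simp only at hee
        refine Prod.ext (h6.1.trans h7.1.symm) (Prod.ext hee ?_)
        rw [h8, h9, hee]
    rw [h5]
    refine mean_one A A' hA hA' (fun v => p (s, v)) (fun v => p (s', v)) hp hp' (fun v => hp0 _)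
      q M hq _ ?_
    intro v hv
    obtain ⟨e, he, rfl⟩ := Finset.mem_image.1 hv
    have h6 := hmem e he
    exact ⟨h1.trans h6.2.1, (h4 e he).2⟩
  refine (Finset.sum_le_sum hone).trans (le_of_eq ?_)
  rw [Finset.sum_const, nsmul_eq_mul]

/-- the possible second vertices for given `v` -/
def endsT (s' : ι) (lo' : ℕ) (L : Finset Λ) (q : ℕ) (τ : Λ → ℕ) (v : ℕ) : Finset (ι × ℕ) :=
  (L.image fun i => (s', τ i - q * v)).filter fun x => lo' ≤ x.2

omit [DecidableEq Λ] in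
theorem mean_endsT (s' : ι) (p : ι × ℕ → ℝ) {A' : ℝ} (hA' : 0 ≤ A')
    (hp' : ∀ v, 1 ≤ v → p (s', v) ≤ A' / Real.sqrt v) (lo' : ℕ) (L : Finset Λ) (q : ℕ) (τ : Λ → ℕ)
    (v : ℕ) (h2 : 1 ≤ lo') :
    ∑ x ∈ endsT s' lo' L q τ v, p x ≤ L.card * (A' / Real.sqrt lo') := by
  have h3 : ∀ x ∈ endsT s' lo' L q τ v, p x ≤ A' / Real.sqrt lo' := by
    intro x hx
    obtain ⟨h5, h4⟩ := Finset.mem_filter.1 hx
    obtain ⟨i, _, rfl⟩ := Finset.mem_image.1 h5
    simp only at h4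
    refine (hp' _ (h2.trans h4)).trans ?_
    have h5 : (0 : ℝ) < Real.sqrt lo' := Real.sqrt_pos.2 (by exact_mod_cast h2)
    exact div_le_div_of_nonneg_left hA' h5 (Real.sqrt_le_sqrt (by exact_mod_cast h4))
  refine (Finset.sum_le_card_nsmul _ _ _ h3).trans ?_
  rw [nsmul_eq_mul]
  have h4 : ((endsT s' lo' L q τ v).card : ℝ) ≤ L.card := by
    have h5 : (endsT s' lo' L q τ v).card ≤ L.card :=
      (Finset.card_filter_le _ _).trans Finset.card_image_le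
    exact_mod_cast h5
  exact mul_le_mul_of_nonneg_right h4 (by positivity)

/-- deterministic step: few disjoint hits and small degrees give few hits -/
theorem hitsT_card_le {s s' : ι} {q lo hi lo' hi' : ℕ} (hss : s ≠ s') (hq : 0 < q)
    (L : Finset Λ) (τ : Λ → ℕ) (hτ : ∀ i ∈ L, ∀ j ∈ L, τ i ≡ τ j [MOD q] → i = j)
    (V : Finset (ι × ℕ))
    (hV : win V s ⊆ Ico lo hi) (hV' : win V s' ⊆ Ico lo' hi') (t t0 : ℕ) (ht0 : 1 ≤ t0)
    (hB1 : ∀ v, v < hi → (endsT s' lo' L q τ v ∩ V).card < t0)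
    (hB2 : ¬ ∃ M ⊆ hitsT (Ico lo hi) (Ico lo' hi') L q τ, M.card = t ∧
      (M : Set (Λ × ℕ × ℕ)).PairwiseDisjoint (suppT s s') ∧ ∀ e ∈ M, suppT s s' e ⊆ V) :
    (hitsT (win V s) (win V s') L q τ).card ≤ (2 * t0 + 1) * t := by
  classical
  set H := hitsT (win V s) (win V s') L q τ with hH
  have hHE : H ⊆ hitsT (Ico lo hi) (Ico lo' hi') L q τ := hitsT_mono hV hV' _ _ _
  have hinj : ∀ e ∈ H, ∀ f ∈ H, e.2.2 = f.2.2 → e = f := by
    intro e he f hf hef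
    have h1 := mem_hitsT.1 he
    have h2 := mem_hitsT.1 hf
    have h3 : e.1 = f.1 := by
      refine hτ e.1 h1.1.1 f.1 h2.1.1 ?_
      rw [← h1.2, ← h2.2, hef]
      have h4 : q * e.2.1 ≡ q * f.2.1 [MOD q] := by
        have e1 : q * e.2.1 ≡ 0 [MOD q] := (Nat.modEq_zero_iff_dvd).2 (dvd_mul_right _ _)
        have e2 : q * f.2.1 ≡ 0 [MOD q] := (Nat.modEq_zero_iff_dvd).2 (dvd_mul_right _ _)
        exact e1.trans e2.symm
      exact h4.add_right _
    have h4 : e.2.1 = f.2.1 := by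
      have h5 := h1.2
      have h6 := h2.2
      rw [h3, hef] at h5
      have h7 : q * e.2.1 = q * f.2.1 := by omega
      exact Nat.eq_of_mul_eq_mul_left hq h7
    exact Prod.ext h3 (Prod.ext h4 hef)
  refine card_edges_le H (suppT s s') 2 t0 t ?_ ?_ ?_
  · intro e _
    exact Finset.card_le_two
  · intro e he x hx
    rw [mem_suppT] at hx
    rcases hx with rfl | rfl
    · by_contra hcon
      push Not at hcon
      set F := H.filter fun f => (s, e.2.1) ∈ suppT s s' f with hF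
      have hFm : ∀ f ∈ F, f ∈ H ∧ f.2.1 = e.2.1 := by
        intro f hf
        obtain ⟨h1, h2⟩ := Finset.mem_filter.1 hf
        refine ⟨h1, ?_⟩
        rw [mem_suppT] at h2
        rcases h2 with h2 | h2
        · exact (congrArg Prod.snd h2).symm
        · exact absurd (congrArg Prod.fst h2) hss
      have hv := Finset.mem_Ico.1 (hV (mem_hitsT.1 he).1.2.1)
      have hcard : F.card ≤ (endsT s' lo' L q τ e.2.1 ∩ V).card := by
        refine Finset.card_le_card_of_injOn (fun f => (s', f.2.2)) ?_ ?_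
        · intro f hf
          obtain ⟨h1, h2⟩ := hFm f hf
          have h3 := mem_hitsT.1 h1
          rw [Finset.mem_coe, Finset.mem_inter]
          refine ⟨?_, mem_win.1 h3.1.2.2⟩
          unfold endsT
          refine Finset.mem_filter.2 ⟨Finset.mem_image.2 ⟨f.1, h3.1.1, ?_⟩,
            (Finset.mem_Ico.1 (hV' h3.1.2.2)).1⟩
          have h4 := h3.2
          rw [h2] at h4
          refine Prod.ext rfl ?_
          simp only
          omega
        · intro f hf f' hf' hff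
          have h0 : ((s', f.2.2) : ι × ℕ) = (s', f'.2.2) := hff
          exact hinj f (hFm f hf).1 f' (hFm f' hf').1 (Prod.ext_iff.1 h0).2
      have := hB1 e.2.1 hv.2
      omega
    · refine le_trans ?_ ht0
      rw [Finset.card_le_one]
      intro f hf f' hf'
      have key : ∀ f ∈ H.filter (fun f => (s', e.2.2) ∈ suppT s s' f), f ∈ H ∧ f.2.2 = e.2.2 := by
        intro f hf
        obtain ⟨h1, h2⟩ := Finset.mem_filter.1 hf
        refine ⟨h1, ?_⟩
        rw [mem_suppT] at h2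
        rcases h2 with h2 | h2
        · exact absurd (congrArg Prod.fst h2).symm hss
        · exact (congrArg Prod.snd h2).symm
      obtain ⟨h1, h2⟩ := key f hf
      obtain ⟨h3, h4⟩ := key f' hf'
      exact hinj f h1 f' h3 (h2.trans h4.symm)
  · rintro ⟨M, hM, hMt, hMd⟩
    refine hB2 ⟨M, hM.trans hHE, hMt, hMd, ?_⟩
    intro e he x hx
    have h1 := mem_hitsT.1 (hM he)
    rw [mem_suppT] at hx
    rcases hx with rfl | rfl
    · exact mem_win.1 h1.1.2.1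
    · exact mem_win.1 h1.1.2.2

end

variable {Ω ι Λ C : Type*} [Fintype Ω] [DecidableEq ι] [DecidableEq Λ] [DecidableEq C]

/-- union bound over all contexts -/
theorem hitsT_prob (P : Ω → ℝ) (hP : ∀ ω, 0 ≤ P ω) (V : Ω → Finset (ι × ℕ)) (p : ι × ℕ → ℝ)
    (hp0 : ∀ q, 0 ≤ p q) (hind : ∀ T : Finset (ι × ℕ), pr P {ω | T ⊆ V ω} ≤ ∏ v ∈ T, p v)
    {s s' : ι} (hss : s ≠ s') {A A' : ℝ} (hA : 0 ≤ A) (hA' : 0 ≤ A')
    (hp : ∀ v, 1 ≤ v → p (s, v) ≤ A / Real.sqrt v)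
    (hp' : ∀ v, 1 ≤ v → p (s', v) ≤ A' / Real.sqrt v) {lo hi lo' hi' : ℕ}
    (hV : ∀ ω, win (V ω) s ⊆ Ico lo hi) (hV' : ∀ ω, win (V ω) s' ⊆ Ico lo' hi')
    {q : ℕ} (hq : 0 < q) (h1 : 1 ≤ lo) (h2 : q ≤ lo') (J : Finset C) (L : Finset Λ)
    (τ : C → Λ → ℕ) (hτ : ∀ c ∈ J, ∀ i ∈ L, ∀ j ∈ L, τ c i ≡ τ c j [MOD q] → i = j) (t t0 : ℕ)
    (ht0 : 1 ≤ t0) (μ μ1 : ℝ) (hμ : L.card * (4 * (A * A') / Real.sqrt q) ≤ μ)
    (hμ1 : L.card * (A' / Real.sqrt lo') ≤ μ1) :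
    pr P {ω | ∃ c ∈ J, (2 * t0 + 1) * t < (hitsT (win (V ω) s) (win (V ω) s') L q (τ c)).card} ≤
      (J.card : ℝ) * (μ ^ t / (t.factorial : ℝ) + hi * (μ1 ^ t0 / (t0.factorial : ℝ))) := by
  classical
  set S1 : C → Set Ω := fun x => {ω | ∃ M ⊆ hitsT (Ico lo hi) (Ico lo' hi') L q (τ x),
      M.card = t ∧ (M : Set (Λ × ℕ × ℕ)).PairwiseDisjoint (suppT s s') ∧
      ∀ e ∈ M, suppT s s' e ⊆ V ω} with hS1
  set S2 : C × ℕ → Set Ω := fun x => {ω | t0 ≤ (endsT s' lo' L q (τ x.1) x.2 ∩ V ω).card} with hS2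
  have hb1 : ∀ x ∈ J, pr P (S1 x) ≤ μ ^ t / (t.factorial : ℝ) := fun x _ =>
    disjoint_edges_tail P hP V p hp0 hind _ (suppT s s') μ
      ((mean_hitsT hss p hp0 hA hA' hp hp' L q (τ x) hq h1 h2).trans hμ) t
  have hb2 : ∀ x ∈ J ×ˢ range hi, pr P (S2 x) ≤ μ1 ^ t0 / (t0.factorial : ℝ) := fun x _ =>
    inter_tail P hP V p hp0 hind _ μ1
      ((mean_endsT s' p hA' hp' lo' L q (τ x.1) x.2 (hq.trans_le h2)).trans hμ1) t0
  have hsub : {ω | ∃ c ∈ J, (2 * t0 + 1) * t <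
      (hitsT (win (V ω) s) (win (V ω) s') L q (τ c)).card} ⊆
      {ω | ∃ x ∈ J, ω ∈ S1 x} ∪ {ω | ∃ x ∈ J ×ˢ range hi, ω ∈ S2 x} := by
    rintro ω ⟨c, hc, hbig⟩
    by_contra hcon
    rw [Set.mem_union, not_or] at hcon
    obtain ⟨hc1, hc2⟩ := hcon
    have h3 := hitsT_card_le hss hq L (τ c) (hτ c hc) (V ω) (hV ω) (hV' ω) t t0 ht0
      (fun v hv => by
        by_contra h4
        push Not at h4
        exact hc2 ⟨(c, v), Finset.mem_product.2 ⟨hc, Finset.mem_range.2 hv⟩, h4⟩)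
      (fun h4 => hc1 ⟨c, hc, h4⟩)
    omega
  refine (pr_mono P hP hsub).trans ((pr_union_le P hP _ _).trans ?_)
  have e1 : pr P {ω | ∃ x ∈ J, ω ∈ S1 x} ≤ (J.card : ℝ) * (μ ^ t / (t.factorial : ℝ)) := by
    refine (pr_biUnion_le P hP J S1 _ fun ω hω => hω).trans ?_
    refine (Finset.sum_le_sum hb1).trans (le_of_eq ?_)
    rw [Finset.sum_const, nsmul_eq_mul]
  have e2 : pr P {ω | ∃ x ∈ J ×ˢ range hi, ω ∈ S2 x} ≤
      (J.card : ℝ) * (hi * (μ1 ^ t0 / (t0.factorial : ℝ))) := by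
    refine (pr_biUnion_le P hP (J ×ˢ range hi) S2 _ fun ω hω => hω).trans ?_
    refine (Finset.sum_le_sum hb2).trans (le_of_eq ?_)
    rw [Finset.sum_const, nsmul_eq_mul, Finset.card_product, Finset.card_range]
    push_cast
    ring
  calc _ ≤ (J.card : ℝ) * (μ ^ t / (t.factorial : ℝ)) +
        (J.card : ℝ) * (hi * (μ1 ^ t0 / (t0.factorial : ℝ))) := add_le_add e1 e2
    _ = _ := by ring

end Pool.Agent.Helper57.T5
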